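import Mathlib

/-!
# Interface for the noncommutative counterexample (MP_25d1d3_an)

Definitions shared by the parts of the construction.
-/

open MeasureTheory ENNReal NNReal
open scoped InnerProductSpace

namespace Pool.Agent.H21.NC

variable {H : Type*} [NormedAddCommGroup H] [InnerProductSpace ℂ H] [CompleteSpace H]

/-- `Ω` is a unit vector whose vector state is a faithful (normal) tracial state on the
von Neumann algebra `M`. -/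
structure IsTraceVector (M : VonNeumannAlgebra H) (Ω : H) : Prop where
  norm_one : ‖Ω‖ = 1
  trace : ∀ x ∈ M, ∀ y ∈ M, ⟪Ω, x (y Ω)⟫_ℂ = ⟪Ω, y (x Ω)⟫_ℂ
  separating : ∀ x ∈ M, x Ω = 0 → x = 0

/-- The trace `τ(x) = ⟨Ω, x Ω⟩`. -/
noncomputable def tr (Ω : H) (x : H →L[ℂ] H) : ℂ := ⟪Ω, x Ω⟫_ℂ

/-- The noncommutative `p`-norm `τ(|x|^p)^(1/p)`, where `|x|^p = (x* x)^(p/2)` is formed with the
continuous functional calculus. -/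
noncomputable def pnorm (Ω : H) (p : ℝ) (x : H →L[ℂ] H) : ℝ :=
  (Complex.re (tr Ω (CFC.rpow (star x * x) (p / 2)))) ^ (1 / p)

/-- `X f = ℓ(f) + ℓ(f)* + Λ(f)` (centred free Poisson random measure with intensity `ν`), acting on
a Hilbert space with vacuum vector `Ω`; `M` is the von Neumann algebra, `emb` the embedding of the
one-particle space. -/
structure FreePoisson {Z : Type*} [MeasurableSpace Z] (ν : Measure Z)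
    (M : VonNeumannAlgebra H) (Ω : H) (emb : Lp ℂ 2 ν →ₗᵢ[ℂ] H)
    (X : (Z → ℝ) → H →L[ℂ] H) : Prop where
  isTrace : IsTraceVector M Ω
  emb_orth : ∀ F, ⟪Ω, emb F⟫_ℂ = 0
  mem : ∀ f, MemLp f 2 ν → MemLp f ∞ ν → X f ∈ M
  selfAdjoint : ∀ f, MemLp f 2 ν → MemLp f ∞ ν → IsSelfAdjoint (X f)
  congr : ∀ f g, f =ᵐ[ν] g → X f = X g
  add : ∀ f g, MemLp f 2 ν → MemLp f ∞ ν → MemLp g 2 ν → MemLp g ∞ ν → X (f + g) = X f + X g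
  smul : ∀ (r : ℝ) (f), MemLp f 2 ν → MemLp f ∞ ν → X (r • f) = (r : ℂ) • X f
  vacuum : ∀ (f) (hf : MemLp f 2 ν), MemLp f ∞ ν →
    X f Ω = emb (MemLp.toLp (fun z => (f z : ℂ)) hf.ofReal)
  fourth : ∀ f, MemLp f 2 ν → MemLp f ∞ ν →
    ‖X f (X f Ω)‖ ^ 2 = 2 * (∫ z, f z ^ 2 ∂ν) ^ 2 + ∫ z, f z ^ 4 ∂ν
  pos : ∀ f, MemLp f 2 ν → MemLp f ∞ ν → Integrable f ν → 0 ≤ᵐ[ν] f →
    0 ≤ X f + ((∫ z, f z ∂ν : ℝ) : ℂ) • (1 : H →L[ℂ] H)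
  lower : ∀ f, MemLp f 2 ν → MemLp f ∞ ν → 0 ≤ᵐ[ν] f →
    0 ≤ X f + ((2 * √(∫ z, f z ^ 2 ∂ν) : ℝ) : ℂ) • (1 : H →L[ℂ] H)
  upper : ∀ (f) (C : ℝ), MemLp f 2 ν → (∀ᵐ z ∂ν, |f z| ≤ C) →
    ‖X f‖ ≤ 2 * √(∫ z, f z ^ 2 ∂ν) + C

/-- second quantisation `Γ t` of a measure preserving flow `φ` -/
structure FreePoissonFlow {Z : Type*} [MeasurableSpace Z] (ν : Measure Z)
    (M : VonNeumannAlgebra H) (Ω : H) (X : (Z → ℝ) → H →L[ℂ] H) (φ : ℝ → Z → Z)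
    (Γ : ℝ → H ≃ₗᵢ[ℂ] H) : Prop where
  zero : ∀ ξ, Γ 0 ξ = ξ
  add : ∀ s t ξ, Γ (s + t) ξ = Γ s (Γ t ξ)
  vacuum : ∀ t, Γ t Ω = Ω
  covariant : ∀ t f ξ, MemLp f 2 ν → MemLp f ∞ ν →
    Γ t (X f ξ) = X (fun z => f (φ (-t) z)) (Γ t ξ)
  mem : ∀ t, ∀ x ∈ M, ((Γ t).toContinuousLinearEquiv : H →L[ℂ] H) * x *
    ((Γ (-t)).toContinuousLinearEquiv : H →L[ℂ] H) ∈ M
  cont : ∀ ξ, Continuous fun t => Γ t ξ

/-- truncation at height `2^k`: the part `x - clamp x` of `h` above `2^k` -/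
noncomputable def trunc (k : ℤ) (h : H →L[ℂ] H) : H →L[ℂ] H :=
  cfc (fun x : ℝ => x - max (-(2 : ℝ) ^ k) (min x ((2 : ℝ) ^ k))) h

/-- `E` is a model of `L^p(M, τ)`: `ι` maps `M` onto a dense subspace and
`‖ι x‖ = τ(|x|^p)^(1/p)`. -/
structure IsNCLp (M : VonNeumannAlgebra H) (Ω : H) (p : ℝ) {E : Type*} [NormedAddCommGroup E]
    [NormedSpace ℂ E] (ι : (H →L[ℂ] H) → E) : Prop where
  add : ∀ x ∈ M, ∀ y ∈ M, ι (x + y) = ι x + ι y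
  smul : ∀ (c : ℂ), ∀ x ∈ M, ι (c • x) = c • ι x
  norm : ∀ x ∈ M, ‖ι x‖ = pnorm Ω p x
  dense : ∀ e : E, ∀ ε > 0, ∃ x ∈ M, ‖e - ι x‖ < ε

end Pool.Agent.H21.NC
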