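import Pool.Agent.H91.NCL2

/-!
# The first chaos coefficient of an element of the free Poisson algebra
-/

open MeasureTheory ENNReal NNReal Filter Topology
open scoped InnerProductSpace

namespace Pool.Agent.H21.NC

variable {H : Type*} [NormedAddCommGroup H] [InnerProductSpace ℂ H] [CompleteSpace H]
variable {Z : Type*} [MeasurableSpace Z] {ν : Measure Z} {M : VonNeumannAlgebra H} {Ω : H}
  {emb : Lp ℂ 2 ν →ₗᵢ[ℂ] H} {X : (Z → ℝ) → H →L[ℂ] H}

/-! ### trace basics -/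

lemma tr_subE (Ω : H) (x y : H →L[ℂ] H) : tr Ω (x - y) = tr Ω x - tr Ω y := by
  simp [tr, inner_sub_right]

lemma tr_starE (Ω : H) (x : H →L[ℂ] H) : tr Ω (star x) = (starRingEnd ℂ) (tr Ω x) := by
  simp only [tr]
  rw [ContinuousLinearMap.star_eq_adjoint, ContinuousLinearMap.adjoint_inner_right]
  exact (inner_conj_symm _ _).symm

lemma tr_oneE (hΩ : ‖Ω‖ = 1) : tr Ω (1 : H →L[ℂ] H) = 1 := by
  simp only [tr, ContinuousLinearMap.one_apply]
  rw [inner_self_eq_norm_sq_to_K, hΩ]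
  simp

lemma norm_tr_le (hΩ : ‖Ω‖ = 1) (x : H →L[ℂ] H) : ‖tr Ω x‖ ≤ ‖x‖ := by
  simp only [tr]
  calc ‖⟪Ω, x Ω⟫_ℂ‖ ≤ ‖Ω‖ * ‖x Ω‖ := norm_inner_le_norm _ _
    _ ≤ 1 * (‖x‖ * ‖Ω‖) := by rw [hΩ]; gcongr; rw [← hΩ]; exact x.le_opNorm _
    _ = ‖x‖ := by rw [hΩ]; ring

theorem tr_mul_comm (hΩ : IsTraceVector M Ω) {x y : H →L[ℂ] H} (hx : x ∈ M) (hy : y ∈ M) :
    tr Ω (x * y) = tr Ω (y * x) := tr_comm hΩ hx hy

theorem tr_mul_nonneg (hΩ : IsTraceVector M Ω) {x y : H →L[ℂ] H} (hx : x ∈ M) (hy : y ∈ M)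
    (hx0 : 0 ≤ x) (hy0 : 0 ≤ y) : 0 ≤ (tr Ω (x * y)).re ∧ (tr Ω (x * y)).im = 0 := by
  have hsa : IsSelfAdjoint x := IsSelfAdjoint.of_nonneg hx0
  set r : H →L[ℂ] H := cfc Real.sqrt x with hr
  have hrM : r ∈ M := cfc_mem hx _
  have hrsa : star r = r := cfc_selfAdjoint _ _
  have hrr : r * r = x := by
    rw [hr, cfc_mul' Real.continuous_sqrt Real.continuous_sqrt]
    conv_rhs => rw [cfc_self hsa]
    apply cfc_congr
    intro t ht
    exact Real.mul_self_sqrt (spec_nonneg hx0 ht)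
  have h1 : tr Ω (x * y) = tr Ω (star r * y * r) := by
    rw [hrsa, ← hrr, mul_assoc, tr_comm hΩ hrM (mul_mem hrM hy), mul_assoc]
  have h2 : 0 ≤ star r * y * r := star_left_conjugate_nonneg hy0 r
  rw [h1]
  refine ⟨re_tr_nonneg h2, ?_⟩
  have h3 : star (star r * y * r) = star r * y * r := (IsSelfAdjoint.of_nonneg h2).star_eq
  have h4 := tr_starE Ω (star r * y * r)
  rw [h3] at h4
  exact Complex.conj_eq_iff_im.mp h4.symm

theorem pnorm_four_one (hΩ : IsTraceVector M Ω) : pnorm Ω 4 (1 : H →L[ℂ] H) = 1 := by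
  rw [pnorm_four_eq]
  simp [hΩ.norm_one]

theorem pnorm_one (hΩ : IsTraceVector M Ω) : pnorm Ω (4 / 3) (1 : H →L[ℂ] H) = 1 := by
  apply le_antisymm
  · have := pnorm_le_norm_vacuum hΩ (one_mem M)
    simpa [hΩ.norm_one] using this
  · have h := holder hΩ (one_mem M) (one_mem M)
    rw [mul_one, tr_oneE hΩ.norm_one, pnorm_four_one hΩ, mul_one] at h
    simpa using h

/-! ### chaos coefficients -/

/-- The first chaos coefficient of `x`, an element of `L²(ν)`. -/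
noncomputable def chaos (emb : Lp ℂ 2 ν →ₗᵢ[ℂ] H) (Ω : H) (x : H →L[ℂ] H) : Lp ℂ 2 ν :=
  ContinuousLinearMap.adjoint emb.toContinuousLinearMap (x Ω)

lemma chaos_add (x y : H →L[ℂ] H) : chaos emb Ω (x + y) = chaos emb Ω x + chaos emb Ω y := by
  simp [chaos]

lemma chaos_sub (x y : H →L[ℂ] H) : chaos emb Ω (x - y) = chaos emb Ω x - chaos emb Ω y := by
  simp [chaos]

lemma chaos_smul (c : ℂ) (x : H →L[ℂ] H) : chaos emb Ω (c • x) = c • chaos emb Ω x := by
  simp [chaos]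

lemma norm_chaos_le (x : H →L[ℂ] H) : ‖chaos emb Ω x‖ ≤ ‖x Ω‖ := by
  rw [chaos]
  refine (ContinuousLinearMap.le_opNorm _ _).trans ?_
  have h1 : ‖ContinuousLinearMap.adjoint emb.toContinuousLinearMap‖ ≤ 1 := by
    rw [LinearIsometryEquiv.norm_map]
    exact emb.norm_toContinuousLinearMap_le
  calc _ ≤ 1 * ‖x Ω‖ := by gcongr
    _ = _ := one_mul _

lemma inner_emb (F : Lp ℂ 2 ν) (x : H →L[ℂ] H) :
    ⟪emb F, x Ω⟫_ℂ = ⟪F, chaos emb Ω x⟫_ℂ := by
  rw [chaos, ContinuousLinearMap.adjoint_inner_right]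
  rfl

lemma chaos_emb {x : H →L[ℂ] H} {F : Lp ℂ 2 ν} (h : x Ω = emb F) : chaos emb Ω x = F := by
  apply ext_inner_left ℂ
  intro G
  rw [← inner_emb, h]
  exact emb.inner_map_map _ _

lemma chaos_one (hP : FreePoisson ν M Ω emb X) : chaos emb Ω (1 : H →L[ℂ] H) = 0 := by
  apply ext_inner_left ℂ
  intro G
  rw [← inner_emb, inner_zero_right, ContinuousLinearMap.one_apply, ← inner_conj_symm,
    hP.emb_orth, map_zero]

/-! ### the complexified centred Poisson integral -/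

/-- complex-linear extension of `X` -/
noncomputable def XC (X : (Z → ℝ) → H →L[ℂ] H) (F : Z → ℂ) : H →L[ℂ] H :=
  X (fun z => (F z).re) + Complex.I • X (fun z => (F z).im)

/-- functions in `L² ∩ L^∞` -/
def Good {𝕜 : Type*} [NormedAddCommGroup 𝕜] (ν : Measure Z) (f : Z → 𝕜) : Prop :=
  MemLp f 2 ν ∧ MemLp f ∞ ν

lemma Good.re {F : Z → ℂ} (h : Good ν F) : Good ν (fun z => (F z).re) := ⟨h.1.re, h.2.re⟩
lemma Good.im {F : Z → ℂ} (h : Good ν F) : Good ν (fun z => (F z).im) := ⟨h.1.im, h.2.im⟩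
lemma Good.ofReal {f : Z → ℝ} (h : Good ν f) : Good ν (fun z => (f z : ℂ)) :=
  ⟨h.1.ofReal, h.2.ofReal⟩

lemma Good.add {𝕜 : Type*} [NormedAddCommGroup 𝕜] {f g : Z → 𝕜} (hf : Good ν f) (hg : Good ν g) :
    Good ν (fun z => f z + g z) := ⟨hf.1.add hg.1, hf.2.add hg.2⟩

lemma XC_ofReal (hP : FreePoisson ν M Ω emb X) (f : Z → ℝ) :
    XC X (fun z => (f z : ℂ)) = X f := by
  have h0 : X (fun _ => (0 : ℝ)) = 0 := by
    have h := hP.smul 0 (fun _ => (0 : ℝ)) MemLp.zero MemLp.zero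
    simp only [Complex.ofReal_zero, zero_smul] at h
    exact h
  simp only [XC, Complex.ofReal_re, Complex.ofReal_im]
  rw [h0, smul_zero, add_zero]

lemma XC_mem (hP : FreePoisson ν M Ω emb X) {F : Z → ℂ} (hF : Good ν F) : XC X F ∈ M := by
  have h1 : X (fun z => (F z).re) ∈ M := hP.mem _ hF.re.1 hF.re.2
  have h2 : X (fun z => (F z).im) ∈ M := hP.mem _ hF.im.1 hF.im.2
  exact add_mem h1 (M.toStarSubalgebra.smul_mem h2 _)

lemma XC_congr (hP : FreePoisson ν M Ω emb X) {F G : Z → ℂ} (h : F =ᵐ[ν] G) :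
    XC X F = XC X G := by
  have h1 : (fun z => (F z).re) =ᵐ[ν] fun z => (G z).re := h.fun_comp Complex.re
  have h2 : (fun z => (F z).im) =ᵐ[ν] fun z => (G z).im := h.fun_comp Complex.im
  rw [XC, XC, hP.congr _ _ h1, hP.congr _ _ h2]

lemma XC_add (hP : FreePoisson ν M Ω emb X) {F G : Z → ℂ} (hF : Good ν F) (hG : Good ν G) :
    XC X (fun z => F z + G z) = XC X F + XC X G := by
  have h1 := hP.add _ _ hF.re.1 hF.re.2 hG.re.1 hG.re.2
  have h2 := hP.add _ _ hF.im.1 hF.im.2 hG.im.1 hG.im.2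
  have e1 : (fun z => (F z + G z).re) = (fun z => (F z).re) + fun z => (G z).re := by
    ext z; simp
  have e2 : (fun z => (F z + G z).im) = (fun z => (F z).im) + fun z => (G z).im := by
    ext z; simp
  rw [XC, XC, XC, e1, e2, h1, h2, smul_add]
  abel

lemma XC_smul (hP : FreePoisson ν M Ω emb X) (c : ℂ) {F : Z → ℂ} (hF : Good ν F) :
    XC X (fun z => c * F z) = c • XC X F := by
  have hr : ∀ (r : ℝ) (f : Z → ℝ), Good ν f → X (fun z => r * f z) = (r : ℂ) • X f :=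
    fun r f hf => hP.smul r f hf.1 hf.2
  have gs : ∀ (r : ℝ) (f : Z → ℝ), Good ν f → Good ν (fun z => r * f z) :=
    fun r f hf => ⟨hf.1.const_mul r, hf.2.const_mul r⟩
  have e1 : (fun z => (c * F z).re) =
      (fun z => c.re * (F z).re) + fun z => (-c.im) * (F z).im := by
    ext z; simp [Complex.mul_re]; ring
  have e2 : (fun z => (c * F z).im) =
      (fun z => c.re * (F z).im) + fun z => c.im * (F z).re := by
    ext z; simp [Complex.mul_im]
  rw [XC, XC, e1, e2,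
    hP.add _ _ (gs _ _ hF.re).1 (gs _ _ hF.re).2 (gs _ _ hF.im).1 (gs _ _ hF.im).2,
    hP.add _ _ (gs _ _ hF.im).1 (gs _ _ hF.im).2 (gs _ _ hF.re).1 (gs _ _ hF.re).2,
    hr _ _ hF.re, hr _ _ hF.im, hr _ _ hF.im, hr _ _ hF.re]
  simp only [smul_add, smul_smul]
  have hc : c = (c.re : ℂ) + (c.im : ℂ) * Complex.I := (Complex.re_add_im c).symm
  have h3 : c • X (fun z => (F z).re) = (c.re : ℂ) • X (fun z => (F z).re) +
      (Complex.I * (c.im : ℂ)) • X (fun z => (F z).re) := by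
    rw [← add_smul]
    congr 1
    rw [mul_comm]
    exact hc
  have h4 : (c * Complex.I) • X (fun z => (F z).im) = (Complex.I * (c.re : ℂ)) •
      X (fun z => (F z).im) + ((-c.im : ℝ) : ℂ) • X (fun z => (F z).im) := by
    rw [← add_smul]
    congr 1
    conv_lhs => rw [hc]
    push_cast
    ring_nf
    rw [Complex.I_sq]
    ring
  rw [h3, h4]
  abel

lemma XC_vacuum (hP : FreePoisson ν M Ω emb X) {F : Z → ℂ} (hF : Good ν F) :
    XC X F Ω = emb (hF.1.toLp F) := by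
  rw [XC, ContinuousLinearMap.add_apply, ContinuousLinearMap.smul_apply,
    hP.vacuum _ hF.re.1 hF.re.2, hP.vacuum _ hF.im.1 hF.im.2, ← map_smul, ← map_add]
  congr 1
  apply Lp.ext
  filter_upwards [hF.1.coeFn_toLp,
    Lp.coeFn_add (hF.re.1.ofReal.toLp (fun z => ((F z).re : ℂ)))
      (Complex.I • hF.im.1.ofReal.toLp (fun z => ((F z).im : ℂ))),
    Lp.coeFn_smul Complex.I (hF.im.1.ofReal.toLp (fun z => ((F z).im : ℂ))),
    (hF.re.1.ofReal (K := ℂ)).coeFn_toLp, (hF.im.1.ofReal (K := ℂ)).coeFn_toLp]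
    with z h1 h2 h3 h4 h5
  rw [h1]
  refine h2.trans ?_
  rw [Pi.add_apply, h3, Pi.smul_apply]
  have h4' : (hF.re.1.ofReal.toLp (fun z => ((F z).re : ℂ))) z = ((F z).re : ℂ) := h4
  have h5' : (hF.im.1.ofReal.toLp (fun z => ((F z).im : ℂ))) z = ((F z).im : ℂ) := h5
  rw [h4', h5', smul_eq_mul, mul_comm]
  exact Complex.re_add_im _

lemma chaos_XC (hP : FreePoisson ν M Ω emb X) {F : Z → ℂ} (hF : Good ν F) :
    chaos emb Ω (XC X F) = hF.1.toLp F := chaos_emb (XC_vacuum hP hF)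

/-- `τ(X(f) x) = ∫ f B_x`. -/
lemma tr_X_mul (hP : FreePoisson ν M Ω emb X) {f : Z → ℝ} (hf : Good ν f) (x : H →L[ℂ] H) :
    tr Ω (X f * x) = ∫ z, (f z : ℂ) * chaos emb Ω x z ∂ν := by
  have h1 : tr Ω (X f * x) = ⟪X f Ω, x Ω⟫_ℂ := by
    rw [tr, ContinuousLinearMap.mul_apply]
    have h2 := hP.selfAdjoint f hf.1 hf.2
    rw [ContinuousLinearMap.isSelfAdjoint_iff_isSymmetric] at h2
    exact (h2 Ω (x Ω)).symm
  rw [h1, hP.vacuum f hf.1 hf.2, inner_emb, L2.inner_def]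
  apply integral_congr_ae
  filter_upwards [(hf.1.ofReal (K := ℂ)).coeFn_toLp] with z hz
  have hz' : (hf.1.ofReal.toLp (fun z => (f z : ℂ))) z = (f z : ℂ) := hz
  rw [hz']
  simp [mul_comm]

lemma good_mul_integrable {F : Z → ℂ} (hF : MemLp F 2 ν) (G : Lp ℂ 2 ν) :
    Integrable (fun z => F z * G z) ν :=
  MemLp.integrable_mul hF (Lp.memLp G)

lemma tr_XC_mul (hP : FreePoisson ν M Ω emb X) {F : Z → ℂ} (hF : Good ν F) (x : H →L[ℂ] H) :
    tr Ω (XC X F * x) = ∫ z, F z * chaos emb Ω x z ∂ν := by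
  rw [XC, add_mul, tr_add, smul_mul_assoc, tr_smul, tr_X_mul hP hF.re, tr_X_mul hP hF.im,
    ← integral_const_mul, ← integral_add]
  · apply integral_congr_ae
    filter_upwards with z
    conv_rhs => rw [← Complex.re_add_im (F z)]
    ring
  · exact good_mul_integrable hF.re.1.ofReal _
  · exact (good_mul_integrable hF.im.1.ofReal _).const_mul _

/-! ### positivity -/

lemma good_indicator {s : Set Z} (hs : MeasurableSet s) (hμ : ν s < ∞) :
    Good ν (s.indicator fun _ => (1 : ℝ)) :=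
  ⟨memLp_indicator_const 2 hs 1 (Or.inr hμ.ne), by
    have h := (memLp_top_const (μ := ν) (1 : ℝ)).indicator hs
    exact h⟩

lemma integral_indicator_mul (x : H →L[ℂ] H) {s : Set Z} (hs : MeasurableSet s) :
    ∫ z, ((s.indicator (fun _ => (1 : ℝ)) z : ℝ) : ℂ) * chaos emb Ω x z ∂ν =
      ∫ z in s, chaos emb Ω x z ∂ν := by
  rw [← integral_indicator hs]
  apply integral_congr_ae
  filter_upwards with z
  by_cases hz : z ∈ s <;> simp [hz]

/-- for positive `x`, `B_x + τ(x) ≥ 0` a.e. -/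
lemma chaos_nonneg [SigmaFinite ν] (hP : FreePoisson ν M Ω emb X) {x : H →L[ℂ] H} (hx : x ∈ M)
    (hx0 : 0 ≤ x) : ∀ᵐ z ∂ν, 0 ≤ (chaos emb Ω x z).re + (tr Ω x).re := by
  have hint : ∀ s, MeasurableSet s → ν s < ∞ → IntegrableOn (fun z => chaos emb Ω x z) s ν := by
    intro s hs hμ
    exact integrableOn_Lp_of_measure_ne_top _ (by norm_num) hμ.ne
  refine ae_nonneg_of_forall_setIntegral_nonneg_of_sigmaFinite (fun s hs hμ => ?_)
    (fun s hs hμ => ?_)
  · exact (hint s hs hμ).re.add (integrableOn_const hμ.ne)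
  · have hg := good_indicator hs hμ
    have h1 := hP.pos _ hg.1 hg.2 ((integrable_indicator_iff hs).mpr (integrableOn_const hμ.ne))
      (Eventually.of_forall fun z => Set.indicator_nonneg (fun _ _ => zero_le_one) z)
    have hI : ∫ z, s.indicator (fun _ => (1 : ℝ)) z ∂ν = ν.real s := by
      rw [integral_indicator hs]; simp [Measure.real]
    rw [hI] at h1
    have hmem : X (s.indicator fun _ => (1 : ℝ)) + ((ν.real s : ℝ) : ℂ) • (1 : H →L[ℂ] H) ∈ M :=
      add_mem (hP.mem _ hg.1 hg.2) (M.toStarSubalgebra.smul_mem (one_mem M) _)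
    have h2 := tr_mul_nonneg hP.isTrace hmem hx h1 hx0
    rw [add_mul, tr_add, smul_mul_assoc, one_mul, tr_smul, tr_X_mul hP hg,
      integral_indicator_mul x hs] at h2
    have h3 := h2.1
    rw [Complex.add_re, Complex.re_ofReal_mul] at h3
    have h6 : Integrable (fun z => (chaos emb Ω x z).re) (ν.restrict s) := (hint s hs hμ).re
    have h7 : Integrable (fun _ : Z => (tr Ω x).re) (ν.restrict s) := integrableOn_const hμ.ne
    rw [integral_add h6 h7]
    have h4 : ∫ z in s, (chaos emb Ω x z).re ∂ν = (∫ z in s, chaos emb Ω x z ∂ν).re :=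
      integral_re (hint s hs hμ)
    have h5 : ∫ z in s, (tr Ω x).re ∂ν = ν.real s * (tr Ω x).re := by
      rw [setIntegral_const, smul_eq_mul]
    rw [h4, h5]
    exact h3

/-- for selfadjoint `x`, `B_x` is real a.e. -/
lemma chaos_im [SigmaFinite ν] (hP : FreePoisson ν M Ω emb X) {x : H →L[ℂ] H} (hx : x ∈ M)
    (hsa : IsSelfAdjoint x) : ∀ᵐ z ∂ν, (chaos emb Ω x z).im = 0 := by
  have hint : ∀ s, MeasurableSet s → ν s < ∞ → IntegrableOn (fun z => chaos emb Ω x z) s ν := by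
    intro s hs hμ
    exact integrableOn_Lp_of_measure_ne_top _ (by norm_num) hμ.ne
  refine ae_eq_zero_of_forall_setIntegral_eq_of_sigmaFinite (fun s hs hμ => (hint s hs hμ).im)
    (fun s hs hμ => ?_)
  have hg := good_indicator hs hμ
  have h4 : ∫ z in s, (chaos emb Ω x z).im ∂ν = (∫ z in s, chaos emb Ω x z ∂ν).im :=
    integral_im (hint s hs hμ)
  rw [h4, ← integral_indicator_mul x hs, ← tr_X_mul hP hg]
  have h5 : tr Ω (X (s.indicator fun _ => (1 : ℝ)) * x) =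
      (starRingEnd ℂ) (tr Ω (X (s.indicator fun _ => (1 : ℝ)) * x)) := by
    rw [← tr_starE, star_mul, hsa.star_eq, (hP.selfAdjoint _ hg.1 hg.2).star_eq]
    exact tr_mul_comm hP.isTrace (hP.mem _ hg.1 hg.2) hx
  exact Complex.conj_eq_iff_im.mp h5.symm

/-- sup bound -/
lemma chaos_bound_sa [SigmaFinite ν] (hP : FreePoisson ν M Ω emb X) {x : H →L[ℂ] H} (hx : x ∈ M)
    (hsa : IsSelfAdjoint x) : ∀ᵐ z ∂ν, ‖chaos emb Ω x z‖ ≤ 2 * ‖x‖ := by
  have hΩ := hP.isTrace.norm_one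
  have hn : (algebraMap ℝ (H →L[ℂ] H) ‖x‖) = ((‖x‖ : ℝ) : ℂ) • (1 : H →L[ℂ] H) := by
    rw [Algebra.algebraMap_eq_smul_one]
    exact (Complex.coe_smul _ _).symm
  have hm1 : ((‖x‖ : ℝ) : ℂ) • (1 : H →L[ℂ] H) ∈ M := M.toStarSubalgebra.smul_mem (one_mem M) _
  have h1 : 0 ≤ ((‖x‖ : ℝ) : ℂ) • (1 : H →L[ℂ] H) - x := by
    rw [sub_nonneg, ← hn]; exact hsa.le_algebraMap_norm_self
  have h2 : 0 ≤ ((‖x‖ : ℝ) : ℂ) • (1 : H →L[ℂ] H) + x := by
    rw [← sub_neg_eq_add, sub_nonneg, ← hn]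
    have := hsa.neg.le_algebraMap_norm_self
    rwa [norm_neg] at this
  have e1 := chaos_nonneg hP (sub_mem hm1 hx) h1
  have e2 := chaos_nonneg hP (add_mem hm1 hx) h2
  rw [chaos_sub, chaos_smul, chaos_one hP, smul_zero, zero_sub, tr_subE, tr_smul, tr_oneE hΩ,
    mul_one] at e1
  rw [chaos_add, chaos_smul, chaos_one hP, smul_zero, zero_add, tr_add, tr_smul, tr_oneE hΩ,
    mul_one] at e2
  have htr : |(tr Ω x).re| ≤ ‖x‖ := (Complex.abs_re_le_norm _).trans (norm_tr_le hΩ x)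
  filter_upwards [e1, e2, chaos_im hP hx hsa, Lp.coeFn_neg (chaos emb Ω x)] with z h3 h4 h5 h6
  rw [h6, Pi.neg_apply] at h3
  simp only [Complex.neg_re, Complex.sub_re, Complex.ofReal_re, Complex.add_re] at h3 h4
  have e : chaos emb Ω x z = ((chaos emb Ω x z).re : ℂ) := by
    apply Complex.ext
    · simp
    · simp [h5]
  rw [e, Complex.norm_real, Real.norm_eq_abs, abs_le]
  have := abs_le.mp htr
  constructor <;> linarith [this.1, this.2]

/-- real part and imaginary part of an operator in `M` -/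
lemma exists_re_im {x : H →L[ℂ] H} (hx : x ∈ M) :
    ∃ a ∈ M, ∃ b ∈ M, IsSelfAdjoint a ∧ IsSelfAdjoint b ∧ x = a + Complex.I • b ∧
      a = ((1 / 2 : ℝ) : ℂ) • (x + star x) ∧
      b = ((1 / 2 : ℝ) : ℂ) • ((-Complex.I) • x + Complex.I • star x) ∧
      ‖a‖ ≤ ‖x‖ ∧ ‖b‖ ≤ ‖x‖ := by
  have hsx : star x ∈ M := star_mem hx
  refine ⟨((1 / 2 : ℝ) : ℂ) • (x + star x), M.toStarSubalgebra.smul_mem (add_mem hx hsx) _,
    ((1 / 2 : ℝ) : ℂ) • ((-Complex.I) • x + Complex.I • star x),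
    M.toStarSubalgebra.smul_mem (add_mem (M.toStarSubalgebra.smul_mem hx _)
      (M.toStarSubalgebra.smul_mem hsx _)) _, ?_, ?_, ?_, rfl, rfl, ?_, ?_⟩
  · rw [IsSelfAdjoint, star_smul, star_add, star_star, add_comm (star x) x]
    congr 1
    simp
  · rw [IsSelfAdjoint, star_smul, star_add, star_smul, star_smul, star_star]
    have e1 : star (((1 / 2 : ℝ) : ℂ)) = ((1 / 2 : ℝ) : ℂ) := by simp
    have e2 : star (-Complex.I) = Complex.I := by simp
    have e3 : star (Complex.I) = -Complex.I := by simp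
    rw [e1, e2, e3, add_comm]
  · rw [smul_comm Complex.I, ← smul_add, smul_add Complex.I, smul_smul, smul_smul]
    have e1 : Complex.I * -Complex.I = 1 := by simp
    have e2 : Complex.I * Complex.I = -1 := by simp
    rw [e1, e2, one_smul, neg_one_smul]
    have e3 : x + star x + (x + -star x) = (2 : ℂ) • x := by rw [two_smul]; abel
    rw [e3, smul_smul]
    norm_num
  · rw [norm_smul]
    calc ‖((1 / 2 : ℝ) : ℂ)‖ * ‖x + star x‖ ≤ (1 / 2) * (‖x‖ + ‖star x‖) := by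
          gcongr
          · simp
          · exact norm_add_le _ _
      _ = ‖x‖ := by rw [norm_star]; ring
  · rw [norm_smul]
    calc ‖((1 / 2 : ℝ) : ℂ)‖ * ‖(-Complex.I) • x + Complex.I • star x‖
        ≤ (1 / 2) * (‖(-Complex.I) • x‖ + ‖Complex.I • star x‖) := by
          gcongr
          · simp
          · exact norm_add_le _ _
      _ = ‖x‖ := by rw [norm_smul, norm_smul, norm_star]; simp; ring

lemma chaos_bound [SigmaFinite ν] (hP : FreePoisson ν M Ω emb X) {x : H →L[ℂ] H} (hx : x ∈ M) :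
    ∀ᵐ z ∂ν, ‖chaos emb Ω x z‖ ≤ 4 * ‖x‖ := by
  obtain ⟨a, ha, b, hb, sa, sb, hab, _, _, na, nb⟩ := exists_re_im hx
  have h0 : chaos emb Ω x = chaos emb Ω a + Complex.I • chaos emb Ω b := by
    rw [hab, chaos_add, chaos_smul]
  filter_upwards [chaos_bound_sa hP ha sa, chaos_bound_sa hP hb sb,
    Lp.coeFn_add (chaos emb Ω a) (Complex.I • chaos emb Ω b),
    Lp.coeFn_smul Complex.I (chaos emb Ω b)] with z h1 h2 h3 h4
  rw [h0, h3, Pi.add_apply, h4, Pi.smul_apply]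
  refine (norm_add_le _ _).trans ?_
  rw [norm_smul, Complex.norm_I, one_mul]
  linarith

/-- **Real interpolation**: the first chaos projection is bounded on `L⁴`. -/
theorem chaos_four [SigmaFinite ν] (hP : FreePoisson ν M Ω emb X) {h : H →L[ℂ] H} (hh : h ∈ M)
    (hsa : IsSelfAdjoint h) :
    ∫⁻ z, ‖chaos emb Ω h z‖ₑ ^ 4 ∂ν ≤ ENNReal.ofReal (1024 / 3 * pnorm Ω 4 h ^ 4) := by
  have htm : ∀ k, trunc k h ∈ M := fun k => trunc_mem hh hsa k
  have hd : ∀ k : ℤ, ∀ᵐ z ∂ν, ‖chaos emb Ω h z‖ ≤ ‖chaos emb Ω (trunc k h) z‖ + 2 * 2 ^ k := by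
    intro k
    have hsat : IsSelfAdjoint (trunc k h) := cfc_predicate _ _
    have h0 : chaos emb Ω h = chaos emb Ω (trunc k h) + chaos emb Ω (h - trunc k h) := by
      rw [← chaos_add]; congr 1; abel
    filter_upwards [chaos_bound_sa hP (sub_mem hh (htm k)) (hsa.sub hsat),
      Lp.coeFn_add (chaos emb Ω (trunc k h)) (chaos emb Ω (h - trunc k h))] with z h1 h2
    rw [h0, h2, Pi.add_apply]
    refine (norm_add_le _ _).trans ?_
    have := norm_sub_trunc_le hsa k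
    linarith
  have hall : ∀ᵐ z ∂ν, ∀ k : ℤ, ‖chaos emb Ω h z‖ ≤ ‖chaos emb Ω (trunc k h) z‖ + 2 * 2 ^ k :=
    ae_all_iff.mpr hd
  have hpt : ∀ᵐ z ∂ν, ‖chaos emb Ω h z‖ₑ ^ 4 ≤
      256 * ∑' k : ℤ, ENNReal.ofReal (4 ^ k) * ‖chaos emb Ω (trunc k h) z‖ₑ ^ 2 := by
    filter_upwards [hall] with z hz
    set b := ‖chaos emb Ω h z‖ with hb
    rcases (norm_nonneg (chaos emb Ω h z)).eq_or_lt with h0 | h0
    · have : ‖chaos emb Ω h z‖ₑ = 0 := by
        rw [← ofReal_norm, ← h0, ENNReal.ofReal_zero]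
      rw [this]; simp
    · obtain ⟨k, hk1, hk2⟩ := exists_mem_Ico_zpow (x := b / 4) (y := (2 : ℝ)) (by positivity)
        (by norm_num)
      have hz1 := hz k
      rw [zpow_add₀ (by norm_num : (2 : ℝ) ≠ 0), zpow_one] at hk2
      set a := ‖chaos emb Ω (trunc k h) z‖ with ha
      have h2k : (0 : ℝ) < 2 ^ k := by positivity
      have hab : b / 2 ≤ a := by linarith
      have h4k : (4 : ℝ) ^ k = (2 ^ k) ^ 2 := by
        rw [← zpow_natCast, ← zpow_mul, mul_comm, zpow_mul]; norm_num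
      have h8 : b / 8 ≤ 2 ^ k := by linarith
      have hreal : b ^ 4 ≤ 256 * (4 ^ k * a ^ 2) := by
        have h5 : (b / 8) ^ 2 * (b / 2) ^ 2 ≤ 4 ^ k * a ^ 2 := by
          rw [h4k]
          gcongr
        calc b ^ 4 = 256 * ((b / 8) ^ 2 * (b / 2) ^ 2) := by ring
          _ ≤ _ := by gcongr
      calc ‖chaos emb Ω h z‖ₑ ^ 4 = ENNReal.ofReal (b ^ 4) := by
            rw [← ofReal_norm, ENNReal.ofReal_pow (norm_nonneg _)]
        _ ≤ ENNReal.ofReal (256 * (4 ^ k * a ^ 2)) := ENNReal.ofReal_le_ofReal hreal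
        _ = 256 * (ENNReal.ofReal (4 ^ k) * ‖chaos emb Ω (trunc k h) z‖ₑ ^ 2) := by
            rw [ENNReal.ofReal_mul (by norm_num), ENNReal.ofReal_mul (by positivity),
              ENNReal.ofReal_pow (norm_nonneg _), ofReal_norm]
            norm_num
        _ ≤ _ := by
            gcongr
            exact ENNReal.le_tsum (f := fun k : ℤ => ENNReal.ofReal (4 ^ k) *
              ‖chaos emb Ω (trunc k h) z‖ₑ ^ 2) k
  have hterm : ∀ k : ℤ, ∫⁻ z, ENNReal.ofReal (4 ^ k) * ‖chaos emb Ω (trunc k h) z‖ₑ ^ 2 ∂ν ≤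
      ENNReal.ofReal (4 ^ k * ‖trunc k h Ω‖ ^ 2) := by
    intro k
    rw [lintegral_const_mul' _ _ ENNReal.ofReal_ne_top, ENNReal.ofReal_mul (by positivity)]
    gcongr
    have h1 : ∫⁻ z, ‖chaos emb Ω (trunc k h) z‖ₑ ^ 2 ∂ν = ‖chaos emb Ω (trunc k h)‖ₑ ^ 2 := by
      rw [Lp.enorm_def, eLpNorm_eq_lintegral_rpow_enorm_toReal (by norm_num) (by norm_num)]
      simp only [ENNReal.toReal_ofNat, ENNReal.rpow_ofNat, one_div]
      rw [← ENNReal.rpow_natCast, ← ENNReal.rpow_mul]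
      norm_num
    rw [h1, ← ofReal_norm, ← ENNReal.ofReal_pow (norm_nonneg _)]
    gcongr
    exact norm_chaos_le _
  calc ∫⁻ z, ‖chaos emb Ω h z‖ₑ ^ 4 ∂ν
      ≤ ∫⁻ z, 256 * ∑' k : ℤ, ENNReal.ofReal (4 ^ k) * ‖chaos emb Ω (trunc k h) z‖ₑ ^ 2 ∂ν :=
        lintegral_mono_ae hpt
    _ = 256 * ∑' k : ℤ, ∫⁻ z, ENNReal.ofReal (4 ^ k) * ‖chaos emb Ω (trunc k h) z‖ₑ ^ 2 ∂ν := by
        rw [lintegral_const_mul' _ _ (by norm_num), lintegral_tsum]
        intro k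
        exact ((Lp.aestronglyMeasurable _).enorm.pow_const 2).const_mul _
    _ ≤ 256 * ENNReal.ofReal (4 / 3 * pnorm Ω 4 h ^ 4) := by
        gcongr
        rw [ENNReal.tsum_eq_iSup_sum]
        refine iSup_le fun F => ?_
        calc ∑ k ∈ F, ∫⁻ z, ENNReal.ofReal (4 ^ k) * ‖chaos emb Ω (trunc k h) z‖ₑ ^ 2 ∂ν
            ≤ ∑ k ∈ F, ENNReal.ofReal (4 ^ k * ‖trunc k h Ω‖ ^ 2) :=
              Finset.sum_le_sum fun k _ => hterm k
          _ = ENNReal.ofReal (∑ k ∈ F, 4 ^ k * ‖trunc k h Ω‖ ^ 2) := by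
              rw [ENNReal.ofReal_sum_of_nonneg]
              intro k _; positivity
          _ ≤ _ := ENNReal.ofReal_le_ofReal (trunc_sum_le hP.isTrace hh hsa F)
    _ = ENNReal.ofReal (1024 / 3 * pnorm Ω 4 h ^ 4) := by
        have : (256 : ℝ≥0∞) = ENNReal.ofReal 256 := by norm_num
        rw [this, ← ENNReal.ofReal_mul (by norm_num)]
        congr 1
        ring

end Pool.Agent.H21.NC
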