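import Pool.Agent.H21.NC.Growth2
import Pool.Agent.H21.Semi3

/-!
# Extension from the von Neumann algebra to `L^p`
-/

open MeasureTheory ENNReal NNReal Filter Topology
open scoped InnerProductSpace

namespace Pool.Agent.H21.NC

variable {H : Type*} [NormedAddCommGroup H] [InnerProductSpace ℂ H] [CompleteSpace H]
variable {M : VonNeumannAlgebra H} {Ω : H} {p : ℝ}
variable {E : Type*} [NormedAddCommGroup E] [NormedSpace ℂ E]
variable {ι : (H →L[ℂ] H) → E}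

/-- a function that is linear on `M`, as a linear map -/
noncomputable def linOn (M : VonNeumannAlgebra H) {F : Type*} [AddCommGroup F] [Module ℂ F]
    (T : (H →L[ℂ] H) → F) (hadd : ∀ x ∈ M, ∀ y ∈ M, T (x + y) = T x + T y)
    (hsmul : ∀ c : ℂ, ∀ x ∈ M, T (c • x) = c • T x) : ↥M.toStarSubalgebra →ₗ[ℂ] F where
  toFun x := T x.1
  map_add' x y := hadd _ x.2 _ y.2
  map_smul' c x := hsmul c _ x.2

lemma IsNCLp.denseRange (hE : IsNCLp M Ω p ι) : DenseRange (linOn M ι hE.add hE.smul) := by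
  intro e
  rw [Metric.mem_closure_iff]
  intro ε hε
  obtain ⟨x, hx, h⟩ := hE.dense e ε hε
  exact ⟨ι x, ⟨⟨x, hx⟩, rfl⟩, by rwa [dist_eq_norm]⟩

/-- extension of a bounded linear map -/
theorem exists_ext (hE : IsNCLp M Ω p ι) {F : Type*} [NormedAddCommGroup F] [NormedSpace ℂ F]
    [CompleteSpace F] (T : (H →L[ℂ] H) → F) (hadd : ∀ x ∈ M, ∀ y ∈ M, T (x + y) = T x + T y)
    (hsmul : ∀ c : ℂ, ∀ x ∈ M, T (c • x) = c • T x) {C : ℝ} (hC : 0 ≤ C)
    (hb : ∀ x ∈ M, ‖T x‖ ≤ C * ‖ι x‖) :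
    ∃ T' : E →L[ℂ] F, (∀ x ∈ M, T' (ι x) = T x) ∧ ‖T'‖ ≤ C := by
  have hd := hE.denseRange
  have hn : ∀ x : ↥M.toStarSubalgebra, ‖linOn M T hadd hsmul x‖ ≤
      C * ‖linOn M ι hE.add hE.smul x‖ := fun x => hb x.1 x.2
  refine ⟨(linOn M T hadd hsmul).extendOfNorm (linOn M ι hE.add hE.smul), ?_,
    LinearMap.opNorm_extendOfNorm_le hd hC hn⟩
  intro x hx
  exact LinearMap.extendOfNorm_eq hd ⟨C, hn⟩ ⟨x, hx⟩

/-- two continuous functions agreeing on `ι M` agree -/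
theorem eq_of_eqOn (hE : IsNCLp M Ω p ι) {F : Type*} [TopologicalSpace F] [T2Space F]
    {f g : E → F} (hf : Continuous f) (hg : Continuous g) (h : ∀ x ∈ M, f (ι x) = g (ι x)) (e : E) :
    f e = g e := by
  have hd := hE.denseRange
  have h2 : f = g := by
    apply DenseRange.equalizer hd hf hg
    ext x
    exact h x.1 x.2
  rw [h2]

/-- the positive cone of `L^p(M, τ)` -/
def ncCone (M : VonNeumannAlgebra H) (ι : (H →L[ℂ] H) → E) : Set E :=
  closure (ι '' {x | x ∈ M ∧ 0 ≤ x})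

lemma ι_mem_cone {x : H →L[ℂ] H} (hx : x ∈ M) (h0 : 0 ≤ x) : ι x ∈ ncCone M ι :=
  subset_closure ⟨x, ⟨hx, h0⟩, rfl⟩

/-- continuous maps sending `ι M₊` to a closed set send the cone to it -/
lemma cone_induction {F : Type*} [TopologicalSpace F] {f : E → F} (hf : Continuous f) {S : Set F}
    (hS : IsClosed S) (h : ∀ x ∈ M, 0 ≤ x → f (ι x) ∈ S) : ∀ g ∈ ncCone M ι, f g ∈ S := by
  intro g hg
  have h1 : closure (ι '' {x | x ∈ M ∧ 0 ≤ x}) ⊆ f ⁻¹' S := by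
    apply closure_minimal _ (hS.preimage hf)
    rintro _ ⟨x, ⟨hx, h0⟩, rfl⟩
    exact h x hx h0
  exact h1 hg

lemma zero_eq (hE : IsNCLp M Ω p ι) : ι 0 = 0 := by
  have h := hE.smul 0 0 (zero_mem M)
  simpa using h

lemma nonneg_smul_of_nonneg {x : H →L[ℂ] H} (h : 0 ≤ x) {c : ℝ} (hc : 0 ≤ c) :
    0 ≤ (c : ℂ) • x := by
  have h1 : (c : ℂ) • x = c • x := Complex.coe_smul _ _
  rw [h1]
  exact smul_nonneg hc h

theorem isClosedCone_ncCone (hE : IsNCLp M Ω p ι) : IsClosedCone (ncCone M ι) where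
  closed := isClosed_closure
  zero_mem := by
    rw [← zero_eq hE]
    exact ι_mem_cone (zero_mem M) le_rfl
  add_mem := by
    have h1 : ∀ x ∈ M, 0 ≤ x → ∀ g ∈ ncCone M ι, ι x + g ∈ ncCone M ι := by
      intro x hx h0
      refine cone_induction (f := fun g => ι x + g) (continuous_const.add continuous_id)
        isClosed_closure (fun y hy h0' => ?_)
      show ι x + ι y ∈ ncCone M ι
      rw [← hE.add x hx y hy]
      exact ι_mem_cone (add_mem hx hy) (add_nonneg h0 h0')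
    intro g hg g' hg'
    refine cone_induction (f := fun g => g + g') (continuous_id.add continuous_const)
      isClosed_closure (fun x hx h0 => ?_) g hg
    exact h1 x hx h0 g' hg'
  smul_mem := by
    intro c hc g hg
    refine cone_induction (f := fun g => (c : ℂ) • g) (continuous_const_smul _)
      isClosed_closure (fun x hx h0 => ?_) g hg
    show (c : ℂ) • ι x ∈ ncCone M ι
    rw [← hE.smul _ x hx]
    exact ι_mem_cone (smul_mem' _ hx) (nonneg_smul_of_nonneg h0 hc)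

/-! ### functionals -/

theorem exists_phi (hΩ : IsTraceVector M Ω) (hE : IsNCLp M Ω (4 / 3) ι) {y : H →L[ℂ] H}
    (hy : y ∈ M) : ∃ φ : E →L[ℂ] ℂ, (∀ x ∈ M, φ (ι x) = tr Ω (x * y)) ∧ ‖φ‖ ≤ pnorm Ω 4 y := by
  apply exists_ext hE (fun x => tr Ω (x * y))
  · intro x _ x' _
    rw [add_mul, tr_add]
  · intro c x _
    rw [smul_mul_assoc, tr_smul]; rfl
  · exact pnorm_four_nonneg y
  · intro x hx
    rw [hE.norm x hx, mul_comm]
    exact holder hΩ hx hy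

/-- duality in `E` -/
theorem norm_le_of_dual (hΩ : IsTraceVector M Ω) (hE : IsNCLp M Ω (4 / 3) ι) {e : E} {C : ℝ}
    (hC : 0 ≤ C) (h : ∀ y ∈ M, ∀ φ : E →L[ℂ] ℂ, (∀ x ∈ M, φ (ι x) = tr Ω (x * y)) →
      ‖φ e‖ ≤ C * pnorm Ω 4 y) : ‖e‖ ≤ C := by
  apply _root_.le_of_forall_pos_le_add
  intro ε hε
  obtain ⟨x, hx, hxe⟩ := hE.dense e (ε / 2) (by positivity)
  have h1 : pnorm Ω (4 / 3) x ≤ C + ε / 2 := by
    apply pnorm_le_of_forall hΩ hx (by positivity)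
    intro y hy
    obtain ⟨φ, h2, h3⟩ := exists_phi hΩ hE hy
    have hp := pnorm_four_nonneg (Ω := Ω) y
    rw [← h2 x hx]
    have h4 : φ (ι x) = φ e - φ (e - ι x) := by rw [map_sub]; ring
    rw [h4]
    calc _ ≤ ‖φ e‖ + ‖φ (e - ι x)‖ := norm_sub_le _ _
      _ ≤ C * pnorm Ω 4 y + pnorm Ω 4 y * (ε / 2) := by
          gcongr
          · exact h y hy φ h2
          · exact (φ.le_opNorm _).trans (by gcongr)
      _ = _ := by ring
  calc ‖e‖ = ‖(e - ι x) + ι x‖ := by rw [sub_add_cancel]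
    _ ≤ ‖e - ι x‖ + ‖ι x‖ := norm_add_le _ _
    _ ≤ ε / 2 + (C + ε / 2) := by
        rw [hE.norm x hx]
        gcongr
    _ = C + ε := by ring

theorem eq_zero_of_dual (hΩ : IsTraceVector M Ω) (hE : IsNCLp M Ω (4 / 3) ι) {e : E}
    (h : ∀ y ∈ M, ∀ φ : E →L[ℂ] ℂ, (∀ x ∈ M, φ (ι x) = tr Ω (x * y)) → φ e = 0) : e = 0 := by
  rw [← norm_le_zero_iff]
  apply norm_le_of_dual hΩ hE le_rfl
  intro y hy φ hφ
  rw [h y hy φ hφ, norm_zero, zero_mul]

theorem norm_tr_mul_le_of_nonneg (hΩ : IsTraceVector M Ω) {x y : H →L[ℂ] H} (hx : x ∈ M)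
    (hx0 : 0 ≤ x) (hy : y ∈ M) : ‖tr Ω (x * y)‖ ≤ 2 * ‖y‖ * (tr Ω x).re := by
  have hxr := re_tr_nonneg (Ω := Ω) hx0
  have hsa : ∀ a ∈ M, IsSelfAdjoint a → ‖tr Ω (x * a)‖ ≤ ‖a‖ * (tr Ω x).re := by
    intro a ha sa
    have h1 := neg_le_of_norm_le sa le_rfl
    have h2 := neg_le_of_norm_le sa.neg (le_of_eq (norm_neg a))
    have hm1 : ((‖a‖ : ℝ) : ℂ) • (1 : H →L[ℂ] H) ∈ M := smul_mem' _ (one_mem M)
    obtain ⟨r1, i1⟩ := tr_mul_nonneg hΩ hx (add_mem ha hm1) hx0 h1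
    obtain ⟨r2, i2⟩ := tr_mul_nonneg hΩ hx (add_mem (neg_mem ha) hm1) hx0 h2
    rw [mul_add, tr_add, mul_smul_comm, tr_smul, mul_one] at r1 i1 r2 i2
    have hn : tr Ω (x * -a) = - tr Ω (x * a) := by
      rw [mul_neg, tr, ContinuousLinearMap.neg_apply, inner_neg_right]; rfl
    rw [hn] at r2 i2
    have hxi : (tr Ω x).im = 0 := by
      have h3 := (tr_mul_nonneg hΩ hx (one_mem M) hx0 zero_le_one).2
      rwa [mul_one] at h3
    simp only [Complex.add_re, Complex.add_im, Complex.re_ofReal_mul, Complex.im_ofReal_mul,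
      Complex.neg_re, Complex.neg_im, hxi, mul_zero, add_zero] at r1 i1 r2 i2
    have h4 : tr Ω (x * a) = (((tr Ω (x * a)).re : ℝ) : ℂ) := by
      apply Complex.ext <;> simp [i1]
    rw [h4, Complex.norm_real, Real.norm_eq_abs, abs_le]
    constructor <;> linarith
  obtain ⟨a, ha, b, hb, sa, sb, hab, _, _, na, nb⟩ := exists_re_im hy
  have h3 : tr Ω (x * y) = tr Ω (x * a) + Complex.I * tr Ω (x * b) := by
    rw [hab, mul_add, tr_add, mul_smul_comm, tr_smul]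
  rw [h3]
  refine (norm_add_le _ _).trans ?_
  rw [norm_mul, Complex.norm_I, one_mul]
  have h5 : ‖a‖ * (tr Ω x).re ≤ ‖y‖ * (tr Ω x).re := by gcongr
  have h6 : ‖b‖ * (tr Ω x).re ≤ ‖y‖ * (tr Ω x).re := by gcongr
  linarith [hsa a ha sa, hsa b hb sb]

/-- the trace as a functional -/
theorem exists_tau (hΩ : IsTraceVector M Ω) (hE : IsNCLp M Ω (4 / 3) ι) :
    ∃ τ : E →L[ℂ] ℂ, (∀ x ∈ M, τ (ι x) = tr Ω x) ∧ (∀ g ∈ ncCone M ι, 0 ≤ (τ g).re ∧ (τ g).im = 0) ∧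
      (∀ g ∈ ncCone M ι, τ g = 0 → g = 0) := by
  obtain ⟨τ, h1, _⟩ := exists_phi hΩ hE (one_mem M)
  have h1' : ∀ x ∈ M, τ (ι x) = tr Ω x := fun x hx => by rw [h1 x hx, mul_one]
  refine ⟨τ, h1', ?_, ?_⟩
  · have hcl : IsClosed {z : ℂ | 0 ≤ z.re ∧ z.im = 0} :=
      (isClosed_le continuous_const Complex.continuous_re).inter
        (isClosed_eq Complex.continuous_im continuous_const)
    refine cone_induction τ.continuous hcl fun x hx h0 => ?_
    have h3 := tr_mul_nonneg hΩ hx (one_mem M) h0 zero_le_one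
    rw [mul_one] at h3
    show 0 ≤ (τ (ι x)).re ∧ (τ (ι x)).im = 0
    rw [h1' x hx]
    exact h3
  · intro g hg hτ
    apply eq_zero_of_dual hΩ hE
    intro y hy φ hφ
    have h2 : ∀ g ∈ ncCone M ι, ‖φ g‖ - 2 * ‖y‖ * (τ g).re ∈ Set.Iic (0 : ℝ) := by
      refine cone_induction (f := fun g => ‖φ g‖ - 2 * ‖y‖ * (τ g).re) ?_ isClosed_Iic
        fun x hx h0 => ?_
      · exact (φ.continuous.norm).sub
          ((Complex.continuous_re.comp τ.continuous).const_mul _)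
      · show ‖φ (ι x)‖ - 2 * ‖y‖ * (τ (ι x)).re ≤ 0
        rw [hφ x hx, h1' x hx]
        linarith [norm_tr_mul_le_of_nonneg hΩ hx h0 hy]
    have h3 := h2 g hg
    rw [hτ] at h3
    simp only [Complex.zero_re, mul_zero, sub_zero, Set.mem_Iic] at h3
    exact norm_le_zero_iff.mp h3

end Pool.Agent.H21.NC
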