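import Pool.Agent.H21.NC.Mean
import Pool.Agent.H20.NP.Main
import Pool.Agent.H20.FP.Flow
import Pool.Agent.H40.Semi.Main

/-!
# The semigroup on the noncommutative `L^{4/3}`
-/

open MeasureTheory ENNReal NNReal Filter Topology
open scoped InnerProductSpace

namespace Pool.Agent.H21.NC

variable {H : Type*} [NormedAddCommGroup H] [InnerProductSpace ℂ H] [CompleteSpace H]
variable {M : VonNeumannAlgebra H} {Ω : H}
  {emb : Lp ℂ 2 nu →ₗᵢ[ℂ] H} {X : (ZZ → ℝ) → H →L[ℂ] H} {Γ : ℝ → H ≃ₗᵢ[ℂ] H}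
variable {E : Type*} [NormedAddCommGroup E] [NormedSpace ℂ E] [CompleteSpace E]
variable {ι : (H →L[ℂ] H) → E}

/-- `N_S` on `L^{4/3}` -/
lemma exists_NE (hP : FreePoisson nu M Ω emb X) (hE : IsNCLp M Ω (4 / 3) ι) (S : Set ℕ) :
    ∃ N : E →L[ℂ] E, (∀ x ∈ M, N (ι x) = ι (Nop emb Ω X S 1 x)) ∧ ‖N‖ ≤ 18 := by
  apply exists_ext hE (fun x => ι (Nop emb Ω X S 1 x))
  · intro x hx y hy
    rw [Nop_add hP hx hy S le_rfl,
      hE.add _ (Nop_mem hP hx S le_rfl) _ (Nop_mem hP hy S le_rfl)]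
  · intro c x hx
    rw [Nop_smul hP c hx S le_rfl, hE.smul c _ (Nop_mem hP hx S le_rfl)]
  · norm_num
  · intro x hx
    rw [hE.norm _ (Nop_mem hP hx S le_rfl), hE.norm x hx]
    exact pnorm_Nop_le hP hx S

/-- `U_t` on `L^{4/3}` -/
lemma exists_UE (hP : FreePoisson nu M Ω emb X) (hF : FreePoissonFlow nu M Ω X phi Γ)
    (hE : IsNCLp M Ω (4 / 3) ι) (t : ℝ) :
    ∃ U : E →L[ℂ] E, (∀ x ∈ M, U (ι x) = ι (alp Γ t x)) ∧ ‖U‖ ≤ 1 := by
  apply exists_ext hE (fun x => ι (alp Γ t x))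
  · intro x hx y hy
    rw [alp_add, hE.add _ (alp_mem hF t hx) _ (alp_mem hF t hy)]
  · intro c x hx
    rw [alp_smul, hE.smul c _ (alp_mem hF t hx)]
  · norm_num
  · intro x hx
    rw [hE.norm _ (alp_mem hF t hx), hE.norm x hx, one_mul]
    exact pnorm_alp_le hP hF t hx

lemma ι_sub (hE : IsNCLp M Ω (4 / 3) ι) {x y : H →L[ℂ] H} (hx : x ∈ M) (hy : y ∈ M) :
    ι (x - y) = ι x - ι y := by
  have h := hE.add (x - y) (sub_mem hx hy) y hy
  rw [sub_add_cancel] at h
  rw [h, add_sub_cancel_right]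

lemma iso_of_M (hE : IsNCLp M Ω (4 / 3) ι) {U : E →L[ℂ] E} (h : ∀ x ∈ M, ‖U (ι x)‖ = ‖ι x‖)
    (e : E) : ‖U e‖ = ‖e‖ :=
  eq_of_eqOn hE U.continuous.norm continuous_norm h e

/-- strong continuity -/
lemma cont_UE (hP : FreePoisson nu M Ω emb X) (hF : FreePoissonFlow nu M Ω X phi Γ)
    (hE : IsNCLp M Ω (4 / 3) ι) {U : ℝ → E →L[ℂ] E} (hU : ∀ t, ∀ x ∈ M, U t (ι x) = ι (alp Γ t x))
    (hUi : ∀ t e, ‖U t e‖ = ‖e‖) (e : E) : Continuous fun t => U t e := by
  have h1 : ∀ x ∈ M, Continuous fun t => U t (ι x) := by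
    intro x hx
    rw [Metric.continuous_iff]
    intro s ε hε
    have h2 := Metric.continuous_iff.mp (hF.cont (x Ω)) s ε hε
    obtain ⟨δ, hδ, h3⟩ := h2
    refine ⟨δ, hδ, fun t ht => ?_⟩
    have h4 := h3 t ht
    rw [dist_eq_norm] at h4 ⊢
    rw [hU t x hx, hU s x hx, ← ι_sub hE (alp_mem hF t hx) (alp_mem hF s hx),
      hE.norm _ (sub_mem (alp_mem hF t hx) (alp_mem hF s hx))]
    refine lt_of_le_of_lt
      (pnorm_le_norm_vacuum hP.isTrace (sub_mem (alp_mem hF t hx) (alp_mem hF s hx))) ?_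
    rw [ContinuousLinearMap.sub_apply, alp_vac hF, alp_vac hF]
    exact h4
  apply continuous_of_uniform_approx_of_continuous
  intro u hu
  obtain ⟨ε, hε, hεu⟩ := Metric.mem_uniformity_dist.mp hu
  obtain ⟨x, hx, hxe⟩ := hE.dense e ε hε
  refine ⟨fun t => U t (ι x), h1 x hx, fun t => hεu ?_⟩
  rw [dist_eq_norm, ← map_sub, hUi]
  exact hxe

theorem exists_semigroup_NC (hP : FreePoisson nu M Ω emb X)
    (hF : FreePoissonFlow nu M Ω X phi Γ) (hE : IsNCLp M Ω (4 / 3) ι) :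
    ∃ T : ℝ≥0 → E →L[ℂ] E, IsC0Semigroup T ∧
      (∀ f ∈ ncCone M ι, ∃ t₀ : ℝ≥0, ∀ t, t₀ ≤ t → T t f ∈ ncCone M ι) ∧
      spectralBound T < growthBound T := by
  have hΩ := hP.isTrace
  obtain ⟨τ, hτ, hτP, hτ0⟩ := exists_tau hΩ hE
  choose UR hUR _ using fun t => exists_UE hP hF hE t
  choose NS hNS hNSn using fun S => exists_NE hP hE S
  have hURi : ∀ t e, ‖UR t e‖ = ‖e‖ := fun t => iso_of_M hE fun x hx => by
    rw [hUR t x hx, hE.norm _ (alp_mem hF t hx), hE.norm x hx, pnorm_alp hP hF t hx]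
  have hURc : ∀ e, Continuous fun t => UR t e := cont_UE hP hF hE hUR hURi
  have hcomm : ∀ t S e, UR t (NS S e) = NS S (UR t e) := by
    intro t S e
    refine eq_of_eqOn hE (f := fun e => UR t (NS S e)) (g := fun e => NS S (UR t e))
      ((UR t).continuous.comp (NS S).continuous) ((NS S).continuous.comp (UR t).continuous)
      (fun x hx => ?_) e
    show UR t (NS S (ι x)) = NS S (UR t (ι x))
    rw [hNS S x hx, hUR t _ (Nop_mem hP hx S le_rfl), hUR t x hx, hNS S _ (alp_mem hF t hx),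
      alp_Nop hP hF t hx S le_rfl]
  have hmul : ∀ S S' : Set ℕ, ∀ x ∈ M, NS S (NS S' (ι x)) = ι (Nop emb Ω X (S ∩ S') 2 x) := by
    intro S S' x hx
    rw [hNS S' x hx, hNS S _ (Nop_mem hP hx S' le_rfl), Nop_comp hP hx S S' le_rfl]
  have hpowM : ∀ k : ℕ, ∀ x ∈ M, Npow emb Ω X k x ∈ M := by
    intro k
    induction k with
    | zero => intro x hx; exact hx
    | succ k ih =>
      intro x hx
      rw [Npow_succ]
      exact Nop_mem hP (ih x hx) _ le_rfl
  have hpow : ∀ k : ℕ, ∀ x ∈ M, (NS Set.univ ^ k) (ι x) = ι (Npow emb Ω X k x) := by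
    intro k
    induction k with
    | zero => intro x _; rfl
    | succ k ih =>
      intro x hx
      rw [pow_succ', ContinuousLinearMap.mul_apply, ih x hx, hNS _ _ (hpowM k x hx), Npow_succ]
  refine exists_semigroup (P := ncCone M ι) (isClosedCone_ncCone hE) (e := ι 1) (τ := τ)
    (U := fun t : ℝ≥0 => UR (t : ℝ)) ?_ (fun t x => hURi _ _) (N := NS Set.univ)
    (fun t x => hcomm _ _ _) ?_ ?_ ?_ ?_ ?_ ?_ hτP hτ0 ?_ (C := 300) ?_ (c := 1 / 72)
    (by norm_num) ?_ (C' := 18) ?_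
  · -- C₀-semigroup
    constructor
    · ext e
      refine eq_of_eqOn hE (UR ((0 : ℝ≥0) : ℝ)).continuous continuous_id (fun x hx => ?_) e
      rw [NNReal.coe_zero, hUR 0 x hx, alp_zero hF]
      rfl
    · intro s t
      ext e
      refine eq_of_eqOn hE (UR ((s + t : ℝ≥0) : ℝ)).continuous
        ((UR (s : ℝ)) * (UR (t : ℝ))).continuous (fun x hx => ?_) e
      rw [hUR _ x hx, ContinuousLinearMap.mul_apply, hUR _ x hx, hUR _ _ (alp_mem hF _ hx),
        alp_alp hF, NNReal.coe_add]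
    · intro e
      exact (hURc e).comp NNReal.continuous_coe
  · intro t
    rw [hUR _ 1 (one_mem M), alp_one hF]
  · intro t x
    refine eq_of_eqOn hE (f := fun e => τ (UR (t : ℝ) e)) (g := fun e => τ e)
      (τ.continuous.comp (UR (t : ℝ)).continuous) τ.continuous (fun x hx => ?_) x
    show τ (UR (t : ℝ) (ι x)) = τ (ι x)
    rw [hUR _ x hx, hτ _ (alp_mem hF _ hx), hτ x hx, tr_alp hF]
  · rw [hNS _ 1 (one_mem M), Nop_one hP, zero_eq hE]
  · intro e
    refine eq_of_eqOn hE (f := fun e => τ (NS Set.univ e)) (g := fun _ => 0)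
      (τ.continuous.comp (NS Set.univ).continuous) continuous_const (fun x hx => ?_) e
    show τ (NS Set.univ (ι x)) = 0
    rw [hNS _ x hx, hτ _ (Nop_mem hP hx _ le_rfl), tr_Nop hP hx _ le_rfl]
  · rw [hτ 1 (one_mem M), tr_oneE hΩ.norm_one]
  · exact ι_mem_cone (one_mem M) zero_le_one
  · intro t g hg
    refine cone_induction (UR (t : ℝ)).continuous isClosed_closure (fun x hx h0 => ?_) g hg
    rw [hUR _ x hx]
    exact ι_mem_cone (alp_mem hF _ hx) (alp_nonneg hF _ h0)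
  · -- near positivity
    intro k hk g hg
    obtain ⟨k, rfl⟩ : ∃ k', k = k' + 1 := ⟨k - 1, by omega⟩
    refine cone_induction (f := fun g => (NS Set.univ ^ (k + 1)) g +
      ((300 * (1 / 4) ^ (k + 1) * ‖g‖ : ℝ) : ℂ) • ι 1) ?_ isClosed_closure
      (fun x hx h0 => ?_) g hg
    · exact (NS Set.univ ^ (k + 1)).continuous.add
        ((Complex.continuous_ofReal.comp (continuous_norm.const_mul _)).smul continuous_const)
    · show (NS Set.univ ^ (k + 1)) (ι x) + ((300 * (1 / 4) ^ (k + 1) * ‖ι x‖ : ℝ) : ℂ) • ι 1 ∈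
        ncCone M ι
      have hm1 : ((300 * (1 / 4) ^ (k + 1) * pnorm Ω (4 / 3) x : ℝ) : ℂ) • (1 : H →L[ℂ] H) ∈ M :=
        smul_mem' _ (one_mem M)
      have hm2 : Nop emb Ω X Set.univ (k + 1) x ∈ M := Nop_mem hP hx _ (by omega)
      rw [hpow _ x hx, Npow_eq hP hx, hE.norm x hx, ← hE.smul _ 1 (one_mem M),
        ← hE.add _ hm2 _ hm1]
      refine ι_mem_cone (add_mem hm2 hm1) ?_
      exact Nop_pos hP hx (IsSelfAdjoint.of_nonneg h0)
        (fun n i k hk hki _ => near_pos hP hx h0 hk hki) (by omega)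
  · -- growth
    intro k
    obtain ⟨g, hg, y, hy, h1, h2, h3, h4, h5⟩ := growth_elt hP k
    obtain ⟨ψ, hψ, hψn⟩ := exists_phi hΩ hE hy
    refine ⟨ι g, ψ, ?_, hψn.trans h2, ?_, ?_, ?_⟩
    · rwa [hE.norm g hg]
    · rw [hτ g hg, h3]
    · intro j hj
      rw [hpow j g hg, hψ _ (hpowM j g hg), h4 j hj]
    · rw [hpow k g hg, hψ _ (hpowM k g hg)]
      exact h5
  · -- splitting
    intro m
    have hcompl : (Set.univ ∩ {n : ℕ | n < m}) = {n | n < m} := Set.univ_inter _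
    have hcompl' : (Set.univ ∩ {n : ℕ | m ≤ n}) = {n | m ≤ n} := Set.univ_inter _
    have hempty : ({n : ℕ | m ≤ n} ∩ {n | n < m}) = ∅ := by
      ext n
      simp only [Set.mem_inter_iff, Set.mem_empty_iff_false, iff_false, not_and]
      intro h1 h2
      have h1' : m ≤ n := h1
      have h2' : n < m := h2
      omega
    have hzero : ∀ x : H →L[ℂ] H, Nop emb Ω X (∅ : Set ℕ) 2 x = 0 := fun x =>
      Nop_zero_of hP _ _ (Eventually.of_forall fun z => Kf_empty 2 _ z)
    refine ⟨NS {n | m ≤ n}, NS {n | n < m}, ?_, ?_, ?_, ⟨m + 1, ?_⟩, hNSn _,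
      fun t x => hcomm _ _ _, ?_, ?_⟩
    · ext e
      refine eq_of_eqOn hE (NS Set.univ).continuous
        (NS {n | m ≤ n} + NS {n | n < m}).continuous (fun x hx => ?_) e
      rw [ContinuousLinearMap.add_apply, hNS _ x hx, hNS _ x hx, hNS _ x hx,
        ← hE.add _ (Nop_mem hP hx _ le_rfl) _ (Nop_mem hP hx _ le_rfl),
        Nop_split hP hx Set.univ m le_rfl, hcompl, hcompl', add_comm]
    · ext e
      refine eq_of_eqOn hE (NS {n | m ≤ n} * NS {n | n < m}).continuous continuous_const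
        (fun x hx => ?_) e
      rw [ContinuousLinearMap.mul_apply, hmul _ _ x hx, hempty, hzero, zero_eq hE]
      rfl
    · ext e
      refine eq_of_eqOn hE (NS {n | n < m} * NS {n | m ≤ n}).continuous continuous_const
        (fun x hx => ?_) e
      rw [ContinuousLinearMap.mul_apply, hmul _ _ x hx, Set.inter_comm, hempty, hzero, zero_eq hE]
      rfl
    · have h1 : ∀ k : ℕ, ∀ x ∈ M, (NS {n | n < m} ^ (k + 1)) (ι x) =
          ι (Nop emb Ω X {n | n < m} (k + 1) x) := by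
        intro k
        induction k with
        | zero => intro x hx; rw [pow_one]; exact hNS _ x hx
        | succ k ih =>
          intro x hx
          rw [pow_succ', ContinuousLinearMap.mul_apply, ih x hx,
            hNS _ _ (Nop_mem hP hx _ (by omega)), Nop_comp hP hx _ _ (by omega), Set.inter_self]
      ext e
      refine eq_of_eqOn hE (NS {n | n < m} ^ (m + 1)).continuous continuous_const
        (fun x hx => ?_) e
      rw [h1 m x hx, Nop_zero_of hP _ _ (Eventually.of_forall fun z => Kf_zero_of_lt m _ z),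
        zero_eq hE]
      rfl
    · intro e
      refine eq_of_eqOn hE (f := fun e => UR (((1 / 2) ^ m : ℝ≥0) : ℝ) (NS {n | m ≤ n} e))
        (g := fun e => NS {n | m ≤ n} e) ((UR _).continuous.comp (NS _).continuous)
        (NS _).continuous (fun x hx => ?_) e
      show UR (((1 / 2) ^ m : ℝ≥0) : ℝ) (NS {n | m ≤ n} (ι x)) = NS {n | m ≤ n} (ι x)
      have hc : (((1 / 2) ^ m : ℝ≥0) : ℝ) = (1 / 2) ^ m := by push_cast; rfl
      rw [hNS _ x hx, hUR _ _ (Nop_mem hP hx _ le_rfl), hc, Nop,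
        alp_XC hP hF _ (Kf_chaos_good hP hx _ le_rfl)]
      congr 2
      ext z
      exact Kf_period m (fun n hn => hn) 1 _ z
    · intro e
      set δ : ℝ := (1 / 2) ^ m with hδ
      have hδ0 : 0 ≤ δ := by positivity
      have hcont : ∀ e, Continuous fun t : ℝ => UR (t.toNNReal : ℝ) (NS {n | m ≤ n} e) := fun e =>
        (hURc _).comp (NNReal.continuous_coe.comp continuous_real_toNNReal)
      have h0 : ∀ x ∈ M, ∫ t in (0 : ℝ)..δ, UR (t.toNNReal : ℝ) (NS {n | m ≤ n} (ι x)) = 0 := by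
        intro x hx
        apply eq_zero_of_dual hΩ hE
        intro y hy φ hφ
        rw [← ContinuousLinearMap.intervalIntegral_comp_comm φ ((hcont _).intervalIntegrable _ _)]
        have h1 : ∫ t in (0 : ℝ)..δ, φ (UR (t.toNNReal : ℝ) (NS {n | m ≤ n} (ι x))) =
            ∫ t in (0 : ℝ)..δ, tr Ω (alp Γ t (Nop emb Ω X {n | m ≤ n} 1 x) * y) := by
          apply intervalIntegral.integral_congr
          intro t ht
          rw [Set.uIcc_of_le hδ0] at ht
          simp only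
          rw [Real.coe_toNNReal t ht.1, hNS _ x hx, hUR _ _ (Nop_mem hP hx _ le_rfl),
            hφ _ (alp_mem hF _ (Nop_mem hP hx _ le_rfl))]
        rw [h1, hδ]
        exact mean_zero hP hF m hx y
      rw [← norm_le_zero_iff]
      apply _root_.le_of_forall_pos_le_add
      intro ε hε
      obtain ⟨x, hx, hxe⟩ := hE.dense e (ε / 18) (by positivity)
      have h2 : ∫ t in (0 : ℝ)..δ, UR (t.toNNReal : ℝ) (NS {n | m ≤ n} e) =
          ∫ t in (0 : ℝ)..δ, UR (t.toNNReal : ℝ) (NS {n | m ≤ n} (e - ι x)) := by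
        have h3 : ∀ t : ℝ, UR (t.toNNReal : ℝ) (NS {n | m ≤ n} (e - ι x)) =
            UR (t.toNNReal : ℝ) (NS {n | m ≤ n} e) - UR (t.toNNReal : ℝ) (NS {n | m ≤ n} (ι x)) := by
          intro t; rw [map_sub, map_sub]
        simp_rw [h3]
        rw [intervalIntegral.integral_sub ((hcont _).intervalIntegrable _ _)
          ((hcont _).intervalIntegrable _ _), h0 x hx, sub_zero]
      show ‖∫ t in (0 : ℝ)..δ, UR (t.toNNReal : ℝ) (NS {n | m ≤ n} e)‖ ≤ 0 + ε
      rw [h2, zero_add]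
      have h4 : ∀ t ∈ Set.uIoc (0 : ℝ) δ,
          ‖UR (t.toNNReal : ℝ) (NS {n | m ≤ n} (e - ι x))‖ ≤ ε := by
        intro t _
        rw [hURi]
        refine ((NS {n | m ≤ n}).le_opNorm _).trans ?_
        calc ‖NS {n | m ≤ n}‖ * ‖e - ι x‖ ≤ 18 * (ε / 18) := by
              gcongr
              exact hNSn _
          _ = ε := by ring
      refine (intervalIntegral.norm_integral_le_of_norm_le_const h4).trans ?_
      rw [sub_zero, abs_of_nonneg hδ0]
      have hδ1 : δ ≤ 1 := pow_le_one₀ (by norm_num) (by norm_num)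
      nlinarith

lemma nu_ne_zero : nu ≠ 0 := by
  intro h
  have h1 := lintegral_nu (fun _ => 1)
  rw [h, lintegral_zero_measure] at h1
  have h2 := ENNReal.tsum_eq_zero.mp h1.symm (0, 0, 0)
  have h3 := q_pos (0, 0, 0)
  simp only [lintegral_const, measure_univ, mul_one, ENNReal.ofReal_eq_zero, not_le] at h2
  have h4 : 0 < q (0, 0, 0) ^ 4 := by positivity
  linarith

end Pool.Agent.H21.NC
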