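import Pool.Agent.H21.NC.Ext

/-!
# The flow on the von Neumann algebra
-/

open MeasureTheory ENNReal NNReal Filter Topology
open scoped InnerProductSpace

namespace Pool.Agent.H21.NC

variable {H : Type*} [NormedAddCommGroup H] [InnerProductSpace ℂ H] [CompleteSpace H]
variable {M : VonNeumannAlgebra H} {Ω : H}
  {emb : Lp ℂ 2 nu →ₗᵢ[ℂ] H} {X : (ZZ → ℝ) → H →L[ℂ] H} {Γ : ℝ → H ≃ₗᵢ[ℂ] H}

/-- conjugation by `Γ t` -/
noncomputable def alp (Γ : ℝ → H ≃ₗᵢ[ℂ] H) (t : ℝ) (x : H →L[ℂ] H) : H →L[ℂ] H :=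
  ((Γ t).toContinuousLinearEquiv : H →L[ℂ] H) * x *
    ((Γ (-t)).toContinuousLinearEquiv : H →L[ℂ] H)

lemma alp_apply (t : ℝ) (x : H →L[ℂ] H) (ξ : H) : alp Γ t x ξ = Γ t (x (Γ (-t) ξ)) := rfl

lemma gam_neg (hF : FreePoissonFlow nu M Ω X phi Γ) (t : ℝ) (ξ : H) : Γ t (Γ (-t) ξ) = ξ := by
  rw [← hF.add, add_neg_cancel, hF.zero]

lemma gam_neg' (hF : FreePoissonFlow nu M Ω X phi Γ) (t : ℝ) (ξ : H) : Γ (-t) (Γ t ξ) = ξ := by
  rw [← hF.add, neg_add_cancel, hF.zero]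

lemma alp_mem (hF : FreePoissonFlow nu M Ω X phi Γ) (t : ℝ) {x : H →L[ℂ] H} (hx : x ∈ M) :
    alp Γ t x ∈ M := hF.mem t x hx

lemma alp_add (t : ℝ) (x y : H →L[ℂ] H) : alp Γ t (x + y) = alp Γ t x + alp Γ t y := by
  ext ξ
  simp [alp_apply]

lemma alp_smul (t : ℝ) (c : ℂ) (x : H →L[ℂ] H) : alp Γ t (c • x) = c • alp Γ t x := by
  ext ξ
  simp [alp_apply]

lemma alp_mul (hF : FreePoissonFlow nu M Ω X phi Γ) (t : ℝ) (x y : H →L[ℂ] H) :
    alp Γ t (x * y) = alp Γ t x * alp Γ t y := by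
  ext ξ
  rw [alp_apply, ContinuousLinearMap.mul_apply, ContinuousLinearMap.mul_apply, alp_apply,
    alp_apply, gam_neg' hF]

lemma alp_one (hF : FreePoissonFlow nu M Ω X phi Γ) (t : ℝ) : alp Γ t 1 = 1 := by
  ext ξ
  rw [alp_apply, ContinuousLinearMap.one_apply, gam_neg hF, ContinuousLinearMap.one_apply]

lemma alp_zero (hF : FreePoissonFlow nu M Ω X phi Γ) (x : H →L[ℂ] H) : alp Γ 0 x = x := by
  ext ξ
  rw [alp_apply, neg_zero, hF.zero, hF.zero]

lemma alp_alp (hF : FreePoissonFlow nu M Ω X phi Γ) (s t : ℝ) (x : H →L[ℂ] H) :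
    alp Γ s (alp Γ t x) = alp Γ (s + t) x := by
  ext ξ
  rw [alp_apply, alp_apply, alp_apply, ← hF.add, ← hF.add, neg_add_rev]

lemma alp_neg (hF : FreePoissonFlow nu M Ω X phi Γ) (t : ℝ) (x : H →L[ℂ] H) :
    alp Γ t (alp Γ (-t) x) = x := by
  rw [alp_alp hF, add_neg_cancel, alp_zero hF]

lemma inner_gam (hF : FreePoissonFlow nu M Ω X phi Γ) (t : ℝ) (ξ η : H) :
    ⟪Γ t ξ, η⟫_ℂ = ⟪ξ, Γ (-t) η⟫_ℂ := by
  rw [← (Γ (-t)).inner_map_map (Γ t ξ) η, gam_neg' hF]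

lemma alp_star (hF : FreePoissonFlow nu M Ω X phi Γ) (t : ℝ) (x : H →L[ℂ] H) :
    alp Γ t (star x) = star (alp Γ t x) := by
  rw [ContinuousLinearMap.star_eq_adjoint (alp Γ t x), ContinuousLinearMap.eq_adjoint_iff]
  intro ξ η
  rw [alp_apply, alp_apply, inner_gam hF, ContinuousLinearMap.star_eq_adjoint,
    ContinuousLinearMap.adjoint_inner_left, inner_gam hF, neg_neg]

lemma alp_vac (hF : FreePoissonFlow nu M Ω X phi Γ) (t : ℝ) (x : H →L[ℂ] H) :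
    alp Γ t x Ω = Γ t (x Ω) := by
  rw [alp_apply, hF.vacuum]

lemma tr_alp (hF : FreePoissonFlow nu M Ω X phi Γ) (t : ℝ) (x : H →L[ℂ] H) :
    tr Ω (alp Γ t x) = tr Ω x := by
  rw [tr, alp_vac hF, tr]
  have h := (Γ t).inner_map_map Ω (x Ω)
  rwa [hF.vacuum] at h

lemma pnorm_four_alp (hF : FreePoissonFlow nu M Ω X phi Γ) (t : ℝ) (x : H →L[ℂ] H) :
    pnorm Ω 4 (alp Γ t x) = pnorm Ω 4 x := by
  rw [pnorm_four_eq, pnorm_four_eq, ← alp_star hF, ← alp_mul hF, alp_vac hF,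
    LinearIsometryEquiv.norm_map]

lemma pnorm_alp_le (hP : FreePoisson nu M Ω emb X) (hF : FreePoissonFlow nu M Ω X phi Γ) (t : ℝ)
    {x : H →L[ℂ] H} (hx : x ∈ M) : pnorm Ω (4 / 3) (alp Γ t x) ≤ pnorm Ω (4 / 3) x := by
  refine pnorm_le_of_forall hP.isTrace (alp_mem hF t hx) (pnorm_nonneg' x) fun y hy => ?_
  have h1 : tr Ω (alp Γ t x * y) = tr Ω (x * alp Γ (-t) y) := by
    rw [← tr_alp hF t (x * alp Γ (-t) y), alp_mul hF, alp_neg hF]
  rw [h1, ← pnorm_four_alp hF (-t) y]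
  exact holder hP.isTrace hx (alp_mem hF _ hy)

lemma pnorm_alp (hP : FreePoisson nu M Ω emb X) (hF : FreePoissonFlow nu M Ω X phi Γ) (t : ℝ)
    {x : H →L[ℂ] H} (hx : x ∈ M) : pnorm Ω (4 / 3) (alp Γ t x) = pnorm Ω (4 / 3) x := by
  refine le_antisymm (pnorm_alp_le hP hF t hx) ?_
  have h := pnorm_alp_le hP hF (-t) (alp_mem hF t hx)
  rwa [alp_alp hF, neg_add_cancel, alp_zero hF] at h

lemma alp_nonneg (hF : FreePoissonFlow nu M Ω X phi Γ) (t : ℝ) {x : H →L[ℂ] H} (hx : 0 ≤ x) :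
    0 ≤ alp Γ t x := by
  set r : H →L[ℂ] H := cfc Real.sqrt x with hr
  have hrsa : star r = r := cfc_selfAdjoint _ _
  have hsa : IsSelfAdjoint x := IsSelfAdjoint.of_nonneg hx
  have hrr : star r * r = x := by
    rw [hrsa, hr, ← cfc_mul Real.sqrt Real.sqrt x]
    conv_rhs => rw [← cfc_id' ℝ x]
    apply cfc_congr
    intro s hs
    exact Real.mul_self_sqrt (spec_nonneg hx hs)
  rw [← hrr, alp_mul hF, alp_star hF]
  exact star_mul_self_nonneg _

/-! ### the flow and the second quantisation -/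

lemma good_comp {F : ZZ → ℂ} (hF : Good nu F) (t : ℝ) : Good nu (fun z => F (phi t z)) :=
  ⟨hF.1.comp_measurePreserving (measurePreserving_phi t),
    hF.2.comp_measurePreserving (measurePreserving_phi t)⟩

lemma alp_X (hP : FreePoisson nu M Ω emb X) (hF : FreePoissonFlow nu M Ω X phi Γ) (t : ℝ)
    {f : ZZ → ℝ} (hf : Good nu f) : alp Γ t (X f) = X (fun z => f (phi (-t) z)) := by
  ext ξ
  rw [alp_apply, hF.covariant t f _ hf.1 hf.2, gam_neg hF]

lemma alp_XC (hP : FreePoisson nu M Ω emb X) (hF : FreePoissonFlow nu M Ω X phi Γ) (t : ℝ)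
    {F : ZZ → ℂ} (hG : Good nu F) : alp Γ t (XC X F) = XC X (fun z => F (phi (-t) z)) := by
  rw [XC, alp_add, alp_smul, alp_X hP hF t hG.re, alp_X hP hF t hG.im]
  rfl

lemma integral_comp_phi (t : ℝ) (F : ZZ → ℂ) (hF : AEStronglyMeasurable F nu) :
    ∫ z, F (phi t z) ∂nu = ∫ z, F z ∂nu := by
  have h := measurePreserving_phi t
  rw [← h.map_eq] at hF
  have h2 := integral_map h.measurable.aemeasurable hF
  rw [h.map_eq] at h2
  exact h2.symm

lemma phi_neg (t : ℝ) (z : ZZ) : phi t (phi (-t) z) = z := by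
  rw [← phi_add, add_neg_cancel, phi_zero]

lemma phi_neg' (t : ℝ) (z : ZZ) : phi (-t) (phi t z) = z := by
  rw [← phi_add, neg_add_cancel, phi_zero]

/-- two `L²` functions with the same pairings with good real functions agree -/
lemma ae_eq_of_pairing {F G : ZZ → ℂ} (hF : MemLp F 2 nu) (hG : MemLp G 2 nu)
    (h : ∀ f : ZZ → ℝ, Good nu f → ∫ z, (f z : ℂ) * F z ∂nu = ∫ z, (f z : ℂ) * G z ∂nu) :
    F =ᵐ[nu] G := by
  have hint : ∀ {F : ZZ → ℂ}, MemLp F 2 nu → ∀ s, MeasurableSet s → nu s < ∞ →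
      IntegrableOn F s nu := by
    intro F hF s hs hμ
    haveI : IsFiniteMeasure (nu.restrict s) := ⟨by rwa [Measure.restrict_apply_univ]⟩
    exact (hF.restrict s).integrable (by norm_num)
  refine ae_eq_of_forall_setIntegral_eq_of_sigmaFinite (hint hF) (hint hG) fun s hs hμ => ?_
  have h1 : ∀ F : ZZ → ℂ, ∫ z, ((s.indicator (fun _ => (1 : ℝ)) z : ℝ) : ℂ) * F z ∂nu =
      ∫ z in s, F z ∂nu := by
    intro F
    rw [← integral_indicator hs]
    apply integral_congr_ae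
    filter_upwards with z
    by_cases hz : z ∈ s
    · simp [hz]
    · simp [hz]
  rw [← h1, ← h1]
  exact h _ (good_indicator hs hμ)

lemma chaos_alp (hP : FreePoisson nu M Ω emb X) (hF : FreePoissonFlow nu M Ω X phi Γ) (t : ℝ)
    (x : H →L[ℂ] H) :
    (chaos emb Ω (alp Γ t x) : ZZ → ℂ) =ᵐ[nu] fun z => chaos emb Ω x (phi (-t) z) := by
  apply ae_eq_of_pairing (Lp.memLp _)
    ((Lp.memLp (chaos emb Ω x)).comp_measurePreserving (measurePreserving_phi (-t)))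
  intro f hf
  have hf' : Good nu (fun z => f (phi t z)) :=
    ⟨hf.1.comp_measurePreserving (measurePreserving_phi t),
      hf.2.comp_measurePreserving (measurePreserving_phi t)⟩
  rw [← tr_X_mul hP hf]
  have h1 : tr Ω (X f * alp Γ t x) = tr Ω (X (fun z => f (phi t z)) * x) := by
    have h2 : X (fun z => f (phi t z)) = alp Γ (-t) (X f) := by
      rw [alp_X hP hF (-t) hf, neg_neg]
    rw [h2, ← tr_alp hF t (alp Γ (-t) (X f) * x), alp_mul hF, alp_neg hF]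
  rw [h1, tr_X_mul hP hf']
  have h3 : ∀ z, (f z : ℂ) * chaos emb Ω x (phi (-t) z) =
      (fun w => (f (phi t w) : ℂ) * chaos emb Ω x w) (phi (-t) z) := by
    intro z
    show _ = (f (phi t (phi (-t) z)) : ℂ) * chaos emb Ω x (phi (-t) z)
    rw [phi_neg]
  have h4 : ∫ z, (f z : ℂ) * chaos emb Ω x (phi (-t) z) ∂nu =
      ∫ z, (fun w => (f (phi t w) : ℂ) * chaos emb Ω x w) (phi (-t) z) ∂nu := by
    congr 1
    ext z
    exact h3 z
  have h5 := integral_comp_phi (-t) (fun w => (f (phi t w) : ℂ) * chaos emb Ω x w)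
    ((hf'.ofReal.1.1).mul (Lp.aestronglyMeasurable _))
  exact (h4.trans h5).symm

lemma alp_Nop (hP : FreePoisson nu M Ω emb X) (hF : FreePoissonFlow nu M Ω X phi Γ) (t : ℝ)
    {x : H →L[ℂ] H} (hx : x ∈ M) (S : Set ℕ) {k : ℕ} (hk : 1 ≤ k) :
    alp Γ t (Nop emb Ω X S k x) = Nop emb Ω X S k (alp Γ t x) := by
  rw [Nop, alp_XC hP hF t (Kf_chaos_good hP hx S hk), Nop]
  apply XC_congr hP
  refine EventuallyEq.trans ?_ (Kf_congr (chaos_alp hP hF t x) S k).symm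
  filter_upwards with z
  exact (Kf_phi (-t) S k _ z).symm

end Pool.Agent.H21.NC
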