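import Pool.Agent.H21.NC.Nop

/-!
# Growth: test elements for the powers of `N`
-/

open MeasureTheory ENNReal NNReal Filter Topology
open scoped InnerProductSpace

namespace Pool.Agent.H21.NC

variable {H : Type*} [NormedAddCommGroup H] [InnerProductSpace ℂ H] [CompleteSpace H]
variable {M : VonNeumannAlgebra H} {Ω : H}
  {emb : Lp ℂ 2 nu →ₗᵢ[ℂ] H} {X : (ZZ → ℝ) → H →L[ℂ] H}

/-! ### the profile -/

/-- a narrow bump with mean zero -/
noncomputable def bump (t : ℝ) (s : UnitAddCircle) : ℝ :=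
  (Metric.closedBall (0 : UnitAddCircle) (t ^ 4 / 4)).indicator (fun _ => (1 : ℝ)) s - t ^ 4 / 2

lemma bump_meas (t : ℝ) : Measurable (bump t) :=
  (measurable_const.indicator Metric.isClosed_closedBall.measurableSet).sub_const _

lemma ball_vol {t : ℝ} (h0 : 0 < t) (h1 : t ≤ 1) :
    (volume (Metric.closedBall (0 : UnitAddCircle) (t ^ 4 / 4))).toReal = t ^ 4 / 2 := by
  rw [AddCircle.volume_closedBall]
  have h2 : t ^ 4 ≤ 1 := pow_le_one₀ h0.le h1
  have h3 : min 1 (2 * (t ^ 4 / 4)) = t ^ 4 / 2 := by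
    rw [min_eq_right] <;> linarith
  rw [h3, ENNReal.toReal_ofReal (by positivity)]

lemma integral_ind {t : ℝ} (h0 : 0 < t) (h1 : t ≤ 1) :
    ∫ s, (Metric.closedBall (0 : UnitAddCircle) (t ^ 4 / 4)).indicator (fun _ => (1 : ℝ)) s =
      t ^ 4 / 2 := by
  rw [integral_indicator_const _ Metric.isClosed_closedBall.measurableSet, Measure.real,
    ball_vol h0 h1, smul_eq_mul, mul_one]

lemma ind_integrable (t : ℝ) : Integrable
    ((Metric.closedBall (0 : UnitAddCircle) (t ^ 4 / 4)).indicator (fun _ => (1 : ℝ))) volume :=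
  (integrable_const _).indicator Metric.isClosed_closedBall.measurableSet

lemma integral_bump {t : ℝ} (h0 : 0 < t) (h1 : t ≤ 1) : ∫ s, bump t s = 0 := by
  simp only [bump]
  rw [integral_sub (ind_integrable t) (integrable_const _), integral_ind h0 h1, integral_const]
  simp

lemma abs_bump_le {t : ℝ} (h0 : 0 < t) (h1 : t ≤ 1) (s : UnitAddCircle) : |bump t s| ≤ 1 := by
  have h2 : t ^ 4 ≤ 1 := pow_le_one₀ h0.le h1
  have h3 : 0 < t ^ 4 := by positivity
  simp only [bump]
  by_cases hs : s ∈ Metric.closedBall (0 : UnitAddCircle) (t ^ 4 / 4)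
  · rw [Set.indicator_of_mem hs, abs_le]
    constructor <;> linarith
  · rw [Set.indicator_of_notMem hs, abs_le]
    constructor <;> linarith

lemma bump_integrable {t : ℝ} : Integrable (bump t) volume :=
  (ind_integrable t).sub (integrable_const _)

lemma abs_bump_le' {t : ℝ} (s : UnitAddCircle) : |bump t s| ≤
    (Metric.closedBall (0 : UnitAddCircle) (t ^ 4 / 4)).indicator (fun _ => (1 : ℝ)) s +
      t ^ 4 / 2 := by
  have h3 : 0 ≤ t ^ 4 := by positivity
  simp only [bump]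
  set u := (Metric.closedBall (0 : UnitAddCircle) (t ^ 4 / 4)).indicator (fun _ => (1 : ℝ)) s
    with hu
  have h4 : 0 ≤ u := Set.indicator_nonneg (fun _ _ => zero_le_one) _
  rw [abs_le]
  constructor <;> linarith

lemma integral_abs_bump {t : ℝ} (h0 : 0 < t) (h1 : t ≤ 1) : ∫ s, |bump t s| ≤ t ^ 4 := by
  have e1 : ∫ s, ((Metric.closedBall (0 : UnitAddCircle) (t ^ 4 / 4)).indicator
      (fun _ => (1 : ℝ)) s + t ^ 4 / 2) = t ^ 4 / 2 + t ^ 4 / 2 := by
    rw [integral_add (ind_integrable t) (integrable_const _), integral_ind h0 h1,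
        integral_const]
    simp
  have e2 : ∫ s, |bump t s| ≤ ∫ s, ((Metric.closedBall (0 : UnitAddCircle) (t ^ 4 / 4)).indicator
      (fun _ => (1 : ℝ)) s + t ^ 4 / 2) := by
    apply integral_mono bump_integrable.abs ((ind_integrable t).add (integrable_const _))
    intro s
    exact abs_bump_le' s
  linarith

lemma bump_pow_integrable {t : ℝ} (h0 : 0 < t) (h1 : t ≤ 1) {m : ℕ} :
    Integrable (fun s => bump t s ^ m) volume := by
  refine Integrable.mono' (integrable_const (1 : ℝ)) ((bump_meas t).pow_const m).aestronglyMeasurable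
    (Eventually.of_forall fun s => ?_)
  rw [Real.norm_eq_abs, abs_pow]
  exact pow_le_one₀ (abs_nonneg _) (abs_bump_le h0 h1 s)

lemma integral_bump_pow_le {t : ℝ} (h0 : 0 < t) (h1 : t ≤ 1) {m : ℕ} (hm : 1 ≤ m) :
    ∫ s, bump t s ^ m ≤ t ^ 4 := by
  refine le_trans (integral_mono (bump_pow_integrable h0 h1) bump_integrable.abs fun s => ?_)
    (integral_abs_bump h0 h1)
  have h := abs_bump_le h0 h1 s
  calc bump t s ^ m ≤ |bump t s ^ m| := le_abs_self _
    _ = |bump t s| ^ m := abs_pow _ _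
    _ ≤ |bump t s| ^ 1 := pow_le_pow_of_le_one (abs_nonneg _) h hm
    _ = _ := pow_one _

lemma integral_bump_sq {t : ℝ} (h0 : 0 < t) (h1 : t ≤ 1) : t ^ 4 / 4 ≤ ∫ s, bump t s ^ 2 := by
  have h2 : t ^ 4 ≤ 1 := pow_le_one₀ h0.le h1
  have h3 : 0 < t ^ 4 := by positivity
  have h : ∀ s, bump t s ^ 2 = (1 - t ^ 4) *
      (Metric.closedBall (0 : UnitAddCircle) (t ^ 4 / 4)).indicator (fun _ => (1 : ℝ)) s +
        (t ^ 4 / 2) ^ 2 := by
    intro s
    simp only [bump]
    by_cases hs : s ∈ Metric.closedBall (0 : UnitAddCircle) (t ^ 4 / 4)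
    · rw [Set.indicator_of_mem hs]; ring
    · rw [Set.indicator_of_notMem hs]; ring
  simp_rw [h]
  rw [integral_add ((ind_integrable t).const_mul _) (integrable_const _), integral_const_mul,
    integral_ind h0 h1, integral_const]
  simp only [probReal_univ, smul_eq_mul, one_mul]
  nlinarith

lemma bump_holder {t : ℝ} (h0 : 0 < t) (h1 : t ≤ 1) {b : UnitAddCircle → ℂ} {K : ℝ} (hK : 0 ≤ K)
    (hb : AEStronglyMeasurable b volume) (h : ∫⁻ s, ‖b s‖ₑ ^ 4 ≤ ENNReal.ofReal (K ^ 4)) :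
    ‖∫ s, (bump t s : ℂ) * b s‖ ≤ t ^ 3 * K := by
  have e1 : ‖∫ s, (bump t s : ℂ) * b s‖ₑ ≤ ENNReal.ofReal (t ^ 3 * K) := by
    refine (enorm_integral_le_lintegral_enorm _).trans ?_
    have e2 : ∫⁻ s, ‖(bump t s : ℂ) * b s‖ₑ ≤
        (∫⁻ s, (‖(bump t s : ℂ)‖ₑ) ^ (4 / 3 : ℝ)) ^ (1 / (4 / 3 : ℝ)) *
        (∫⁻ s, ‖b s‖ₑ ^ (4 : ℝ)) ^ (1 / (4 : ℝ)) := by
      have e3 := ENNReal.lintegral_mul_le_Lp_mul_Lq (volume : Measure UnitAddCircle)
        (p := 4 / 3) (q := 4) (by constructor <;> norm_num)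
        (f := fun s => ‖(bump t s : ℂ)‖ₑ) (g := fun s => ‖b s‖ₑ)
        (by
          have : Measurable fun s => (bump t s : ℂ) := Complex.measurable_ofReal.comp (bump_meas t)
          exact this.enorm.aemeasurable) hb.enorm
      refine le_trans (le_of_eq ?_) e3
      apply lintegral_congr
      intro s
      simp only [Pi.mul_apply, enorm_mul]
    refine e2.trans ?_
    rw [ENNReal.ofReal_mul (by positivity)]
    gcongr
    · have e4 : ∫⁻ s, ‖(bump t s : ℂ)‖ₑ ^ (4 / 3 : ℝ) ≤ ENNReal.ofReal (t ^ 4) := by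
        calc ∫⁻ s, ‖(bump t s : ℂ)‖ₑ ^ (4 / 3 : ℝ) ≤ ∫⁻ s, ENNReal.ofReal |bump t s| := by
              apply lintegral_mono
              intro s
              have e5 : ‖(bump t s : ℂ)‖ₑ = ENNReal.ofReal |bump t s| := by
                rw [← ofReal_norm, Complex.norm_real, Real.norm_eq_abs]
              simp only
              rw [e5]
              have e6 : ENNReal.ofReal |bump t s| ≤ 1 := by
                rw [← ENNReal.ofReal_one]
                exact ENNReal.ofReal_le_ofReal (abs_bump_le h0 h1 s)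
              calc ENNReal.ofReal |bump t s| ^ (4 / 3 : ℝ) ≤ ENNReal.ofReal |bump t s| ^ (1 : ℝ) :=
                    ENNReal.rpow_le_rpow_of_exponent_ge e6 (by norm_num)
                _ = _ := ENNReal.rpow_one _
          _ = ENNReal.ofReal (∫ s, |bump t s|) :=
              (ofReal_integral_eq_lintegral_ofReal bump_integrable.abs
                (Eventually.of_forall fun s => abs_nonneg _)).symm
          _ ≤ _ := ENNReal.ofReal_le_ofReal (integral_abs_bump h0 h1)
      calc (∫⁻ s, ‖(bump t s : ℂ)‖ₑ ^ (4 / 3 : ℝ)) ^ (1 / (4 / 3 : ℝ)) ≤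
          (ENNReal.ofReal (t ^ 4)) ^ (1 / (4 / 3 : ℝ)) := by gcongr
        _ = ENNReal.ofReal (t ^ 3) := by
          rw [ENNReal.ofReal_rpow_of_nonneg (by positivity) (by norm_num)]
          congr 1
          rw [← Real.rpow_natCast, ← Real.rpow_mul h0.le, ← Real.rpow_natCast]
          norm_num
    · have e7 : ∫⁻ s, ‖b s‖ₑ ^ (4 : ℝ) = ∫⁻ s, ‖b s‖ₑ ^ 4 := by
        apply lintegral_congr
        intro s
        exact ENNReal.rpow_natCast _ 4
      rw [e7]
      calc (∫⁻ s, ‖b s‖ₑ ^ 4) ^ (1 / (4 : ℝ)) ≤ (ENNReal.ofReal (K ^ 4)) ^ (1 / (4 : ℝ)) := by gcongr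
        _ = ENNReal.ofReal K := by
          rw [ENNReal.ofReal_rpow_of_nonneg (by positivity) (by norm_num)]
          congr 1
          rw [← Real.rpow_natCast, ← Real.rpow_mul hK]
          norm_num
  rw [← ofReal_norm, ENNReal.ofReal_le_ofReal_iff (by positivity)] at e1
  exact e1

/-! ### functions supported on a stage -/

/-- function living on stage `(n, i)` with weights `w` and profile `f` -/
noncomputable def stgf (n i : ℕ) (w : Lev → ℝ) (f : UnitAddCircle → ℝ) (z : ZZ) : ℝ :=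
  open Classical in if z.2.1 = n ∧ z.2.2.1 = i ∧ z.2.2.2 < numLev n then w z.2 * f z.1 else 0

lemma stg_in {n i j : ℕ} (hj : j < numLev n) (w : Lev → ℝ) (f : UnitAddCircle → ℝ)
    (s : UnitAddCircle) : stgf n i w f (s, (n, i, j)) = w (n, i, j) * f s := by
  simp only [stgf]
  rw [if_pos ⟨trivial, trivial, hj⟩]

lemma stg_out {n i n' i' j : ℕ} (h : ¬ (n' = n ∧ i' = i ∧ j < numLev n)) (w : Lev → ℝ)
    (f : UnitAddCircle → ℝ) (s : UnitAddCircle) : stgf n i w f (s, (n', i', j)) = 0 := by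
  simp only [stgf]
  rw [if_neg h]

/-- the levels of a stage -/
def Tst (n i : ℕ) : Finset Lev := (Finset.range (numLev n)).image fun j => (n, i, j)

lemma mem_Tst {n i n' i' j : ℕ} : (n', i', j) ∈ Tst n i ↔ n' = n ∧ i' = i ∧ j < numLev n := by
  simp only [Tst, Finset.mem_image, Finset.mem_range, Prod.mk.injEq]
  constructor
  · rintro ⟨j', h1, h2, h3, h4⟩
    subst h4
    exact ⟨h2.symm, h3.symm, h1⟩
  · rintro ⟨h1, h2, h3⟩
    exact ⟨j, h3, h1.symm, h2.symm, rfl⟩

lemma sum_Tst {A : Type*} [AddCommMonoid A] (n i : ℕ) (f : Lev → A) :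
    ∑ a ∈ Tst n i, f a = ∑ j ∈ Finset.range (numLev n), f (n, i, j) := by
  rw [Tst, Finset.sum_image]
  intro j _ j' _ h
  simpa using h

lemma integral_stage {E : Type*} [NormedAddCommGroup E] [NormedSpace ℝ E] {n i : ℕ} {Φ : ZZ → E}
    (h0 : ∀ a ∉ Tst n i, ∀ s, Φ (s, a) = 0)
    (hi : ∀ a ∈ Tst n i, Integrable (fun s => Φ (s, a)) volume) :
    ∫ z, Φ z ∂nu = ∑ j ∈ Finset.range (numLev n), (q (n, i, j) ^ 4) • ∫ s, Φ (s, (n, i, j)) := by
  rw [integral_nu_finset (Tst n i) h0 hi, sum_Tst]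

lemma stg_zero (n i : ℕ) (w : Lev → ℝ) (f : UnitAddCircle → ℝ) :
    ∀ a ∉ Tst n i, ∀ s, stgf n i w f (s, a) = 0 := by
  rintro ⟨n', i', j⟩ h s
  exact stg_out (fun h' => h (mem_Tst.mpr h')) w f s

lemma stgf_aesm (n i : ℕ) (w : Lev → ℝ) {f : UnitAddCircle → ℝ} (hf : Measurable f) :
    AEStronglyMeasurable (stgf n i w f) nu := by
  rw [aesm_nu]
  rintro ⟨n', i', j⟩
  by_cases h : n' = n ∧ i' = i ∧ j < numLev n
  · obtain ⟨rfl, rfl, h3⟩ := h
    have : (fun s => stgf n' i' w f (s, (n', i', j))) = fun s => w (n', i', j) * f s := by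
      ext s; exact stg_in h3 w f s
    rw [this]
    exact (hf.const_mul _).aestronglyMeasurable
  · have : (fun s => stgf n i w f (s, (n', i', j))) = fun s => 0 := by
      ext s; exact stg_out h w f s
    rw [this]
    exact aestronglyMeasurable_const

lemma stg_good (n i : ℕ) (w : Lev → ℝ) {f : UnitAddCircle → ℝ} (hf : Measurable f)
    {K : ℝ} (hK : ∀ s, |f s| ≤ K) : Good nu (stgf n i w f) := by
  have hK0 : 0 ≤ K := (abs_nonneg _).trans (hK 0)
  have hb : ∀ z, |stgf n i w f z| ≤ (∑ a ∈ Tst n i, |w a|) * K := by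
    rintro ⟨s, n', i', j⟩
    have hs0 : 0 ≤ ∑ a ∈ Tst n i, |w a| := Finset.sum_nonneg fun _ _ => abs_nonneg _
    by_cases h : n' = n ∧ i' = i ∧ j < numLev n
    · obtain ⟨rfl, rfl, h3⟩ := h
      rw [stg_in h3, abs_mul]
      gcongr
      · exact Finset.single_le_sum (f := fun a => |w a|) (fun _ _ => abs_nonneg _)
          (mem_Tst.mpr ⟨rfl, rfl, h3⟩)
      · exact hK s
    · rw [stg_out h, abs_zero]
      positivity
  have htop : MemLp (stgf n i w f) ∞ nu :=
    memLp_top_of_bound (stgf_aesm n i w hf) _ (Eventually.of_forall hb)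
  refine ⟨?_, htop⟩
  rw [memLp_two_iff_integrable_sq (stgf_aesm n i w hf)]
  apply integrable_nu_finset (Tst n i)
  · intro a ha s
    rw [stg_zero n i w f a ha s]
    norm_num
  · rintro ⟨n', i', j⟩ ha
    obtain ⟨rfl, rfl, h3⟩ := mem_Tst.mp ha
    have : (fun s => stgf n' i' w f (s, (n', i', j)) ^ 2) =
        fun s => w (n', i', j) ^ 2 * f s ^ 2 := by
      ext s; rw [stg_in h3]; ring
    rw [this]
    apply Integrable.const_mul
    refine Integrable.mono' (integrable_const (K ^ 2)) (hf.pow_const 2).aestronglyMeasurable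
      (Eventually.of_forall fun s => ?_)
    rw [Real.norm_eq_abs, abs_pow]
    exact pow_le_pow_left₀ (abs_nonneg _) (hK s) 2

lemma integral_stg_pow (n i : ℕ) (w : Lev → ℝ) {f : UnitAddCircle → ℝ} {m : ℕ} (hm : 1 ≤ m)
    (hf : Integrable (fun s => f s ^ m) volume) :
    ∫ z, stgf n i w f z ^ m ∂nu =
      (∑ j ∈ Finset.range (numLev n), q (n, i, j) ^ 4 * w (n, i, j) ^ m) * ∫ s, f s ^ m := by
  rw [integral_stage (n := n) (i := i)]
  · rw [Finset.sum_mul]
    apply Finset.sum_congr rfl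
    intro j hj
    rw [Finset.mem_range] at hj
    simp_rw [stg_in hj, mul_pow]
    rw [integral_const_mul, smul_eq_mul, mul_assoc]
  · intro a ha s
    rw [stg_zero n i w f a ha s, zero_pow (by omega)]
  · rintro ⟨n', i', j⟩ ha
    obtain ⟨rfl, rfl, h3⟩ := mem_Tst.mp ha
    simp_rw [stg_in h3, mul_pow]
    exact hf.const_mul _

lemma q_stage_sum (n i : ℕ) :
    ∑ j ∈ Finset.range (numLev n), q (n, i, j) ^ 4 *
      (((8 ^ n * q (n, i, j)) ^ 3)⁻¹ * (8 ^ n * q (n, i, j))⁻¹) = 1 := by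
  have h : ∀ j ∈ Finset.range (numLev n), q (n, i, j) ^ 4 *
      (((8 ^ n * q (n, i, j)) ^ 3)⁻¹ * (8 ^ n * q (n, i, j))⁻¹) = (((8 : ℝ) ^ n) ^ 4)⁻¹ := by
    intro j _
    have := q_pos (n, i, j)
    field_simp
  rw [Finset.sum_congr rfl h, Finset.sum_const, Finset.card_range, nsmul_eq_mul, numLev_cast,
    mul_inv_cancel₀ (by positivity)]

end Pool.Agent.H21.NC
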