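import Pool.Agent.H21.NC.Nop

/-!
# Near positivity of the powers of `N`, from near positivity on the stages
-/

open MeasureTheory ENNReal NNReal Filter Topology
open scoped InnerProductSpace

namespace Pool.Agent.H21.NC

variable {H : Type*} [NormedAddCommGroup H] [InnerProductSpace ℂ H] [CompleteSpace H]
variable {M : VonNeumannAlgebra H} {Ω : H}
  {emb : Lp ℂ 2 nu →ₗᵢ[ℂ] H} {X : (ZZ → ℝ) → H →L[ℂ] H}

lemma XC_sum (hP : FreePoisson nu M Ω emb X) {ι : Type*} (T : Finset ι) (F : ι → ZZ → ℂ)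
    (h : ∀ p ∈ T, Good nu (F p)) :
    Good nu (fun z => ∑ p ∈ T, F p z) ∧
      XC X (fun z => ∑ p ∈ T, F p z) = ∑ p ∈ T, XC X (F p) := by
  classical
  induction T using Finset.induction_on with
  | empty =>
    simp only [Finset.sum_empty]
    exact ⟨⟨MemLp.zero, MemLp.zero⟩, XC_zero hP⟩
  | insert a T ha ih =>
    obtain ⟨h1, h2⟩ := ih fun p hp => h p (Finset.mem_insert_of_mem hp)
    have h3 := h a (Finset.mem_insert_self _ _)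
    simp only [Finset.sum_insert ha]
    exact ⟨h3.add h1, by rw [XC_add hP h3 h1, h2]⟩

lemma Kst_eq {n i k : ℕ} (hk : k ≤ i) (hi : i ≤ n) (B : ZZ → ℂ) :
    Kst n i k B = {z : ZZ | z.2.2.1 = i}.indicator (Kf {n} k B) := by
  classical
  ext ⟨s, n', i', j'⟩
  rw [Set.indicator_apply]
  by_cases h : i' = i
  · subst h
    rw [if_pos (show ((s, n', i', j') : ZZ) ∈ {z : ZZ | z.2.2.1 = i'} from rfl)]
    simp only [Kst, Kf, Set.mem_singleton_iff]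
    by_cases h2 : n' = n
    · subst h2
      simp only [true_and, hk, hi]
    · simp [h2]
  · rw [if_neg (show ((s, n', i', j') : ZZ) ∉ {z : ZZ | z.2.2.1 = i} from h)]
    simp only [Kst]
    rw [if_neg]
    rintro ⟨_, h3, _⟩
    exact h h3

lemma Kst_good {n i k : ℕ} (hk1 : 1 ≤ k) (hk : k ≤ i) (hi : i ≤ n) {B : ZZ → ℂ}
    (hB : MemLp B 2 nu) {C : ℝ} (hC : 0 ≤ C) (hBC : ∀ᵐ z ∂nu, ‖B z‖ ≤ C) :
    Good nu (Kst n i k B) := by
  have hm : MeasurableSet {z : ZZ | z.2.2.1 = i} :=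
    (measurable_snd.snd.fst : Measurable fun z : ZZ => z.2.2.1) (measurableSet_singleton i)
  have h := Kf_good hB hC hBC {n} hk1
  rw [Kst_eq hk hi]
  exact ⟨h.1.indicator hm, h.2.indicator hm⟩

lemma Kf_eq_sum (k m : ℕ) (B : ZZ → ℂ) (z : ZZ) :
    Kf {n | n < m} k B z = ∑ n ∈ Finset.Ico k m, ∑ i ∈ Finset.Icc k n, Kst n i k B z := by
  classical
  obtain ⟨s, n, i, j⟩ := z
  have hz : ∀ n' i', (n' ≠ n ∨ i' ≠ i) → Kst n' i' k B (s, n, i, j) = 0 := by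
    intro n' i' h
    simp only [Kst]
    rw [if_neg]
    rintro ⟨h1, h2, _⟩
    rcases h with h | h
    · exact h h1.symm
    · exact h h2.symm
  by_cases hc : n < m ∧ k ≤ i ∧ i ≤ n
  · rw [Finset.sum_eq_single n, Finset.sum_eq_single i]
    · simp only [Kf, Kst]
      by_cases hj : j < numLev n
      · rw [if_pos ⟨hc.1, hc.2.1, hc.2.2, hj⟩, if_pos ⟨trivial, trivial, hj⟩]
      · rw [if_neg fun h => hj h.2.2.2, if_neg fun h => hj h.2.2]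
    · intro i' _ h
      exact hz _ _ (Or.inr h)
    · intro h
      exact absurd (Finset.mem_Icc.mpr hc.2) h
    · intro n' _ h
      exact Finset.sum_eq_zero fun i' _ => hz _ _ (Or.inl h)
    · intro h
      exact absurd (Finset.mem_Ico.mpr ⟨hc.2.1.trans hc.2.2, hc.1⟩) h
  · rw [Finset.sum_eq_zero]
    · simp only [Kf]
      rw [if_neg]
      rintro ⟨h1, h2, h3, _⟩
      exact hc ⟨h1, h2, h3⟩
    · intro n' hn'
      apply Finset.sum_eq_zero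
      intro i' hi'
      apply hz
      by_contra hcon
      rw [not_or, not_not, not_not] at hcon
      obtain ⟨rfl, rfl⟩ := hcon
      rw [Finset.mem_Icc] at hi'
      rw [Finset.mem_Ico] at hn'
      exact hc ⟨hn'.2, hi'.1, hi'.2⟩

lemma Nop_eq_sum (hP : FreePoisson nu M Ω emb X) {g : H →L[ℂ] H} (hg : g ∈ M) {k : ℕ}
    (hk : 1 ≤ k) (m : ℕ) :
    Nop emb Ω X {n | n < m} k g =
      ∑ n ∈ Finset.Ico k m, ∑ i ∈ Finset.Icc k n, XC X (Kst n i k (chaos emb Ω g)) := by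
  have hgood : ∀ n, ∀ i ∈ Finset.Icc k n, Good nu (Kst n i k (chaos emb Ω g)) := by
    intro n i hi
    rw [Finset.mem_Icc] at hi
    exact Kst_good hk hi.1 hi.2 (Lp.memLp _) (by positivity) (chaos_bound hP hg)
  have h1 := fun n => XC_sum hP (Finset.Icc k n) (fun i => Kst n i k (chaos emb Ω g)) (hgood n)
  have h2 := XC_sum hP (Finset.Ico k m)
    (fun n z => ∑ i ∈ Finset.Icc k n, Kst n i k (chaos emb Ω g) z) (fun n _ => (h1 n).1)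
  rw [Nop, ← Finset.sum_congr rfl fun n _ => (h1 n).2, ← h2.2]
  congr 1
  ext z
  exact Kf_eq_sum k m _ z

lemma sum_eps (k m : ℕ) :
    ∑ n ∈ Finset.Ico k m, ∑ _i ∈ Finset.Icc k n, 200 * ((8 : ℝ) ^ n)⁻¹ ≤ 300 * (1 / 4) ^ k := by
  have h1 : ∀ n ∈ Finset.Ico k m, ∑ _i ∈ Finset.Icc k n, 200 * ((8 : ℝ) ^ n)⁻¹ ≤
      200 * (1 / 4) ^ n := by
    intro n _
    rw [Finset.sum_const, nsmul_eq_mul, Nat.card_Icc]
    have h2 : ((n + 1 - k : ℕ) : ℝ) ≤ 2 ^ n := by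
      have h3 : n + 1 - k ≤ 2 ^ n := (Nat.sub_le _ _).trans (Nat.lt_two_pow_self)
      exact_mod_cast h3
    calc ((n + 1 - k : ℕ) : ℝ) * (200 * ((8 : ℝ) ^ n)⁻¹) ≤ 2 ^ n * (200 * ((8 : ℝ) ^ n)⁻¹) := by
          gcongr
      _ = 200 * (1 / 4) ^ n := by
          have : (8 : ℝ) ^ n = 2 ^ n * 4 ^ n := by rw [← mul_pow]; norm_num
          rw [this, one_div, inv_pow]
          field_simp
  refine (Finset.sum_le_sum h1).trans ?_
  rw [← Finset.mul_sum]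
  have h4 := geom_sum_Ico_le_of_lt_one (x := (1 / 4 : ℝ)) (m := k) (n := m) (by norm_num)
    (by norm_num)
  have h5 : (0 : ℝ) ≤ (1 / 4) ^ k := by positivity
  have h6 : ((1 / 4 : ℝ)) ^ k / (1 - 1 / 4) = 4 / 3 * (1 / 4) ^ k := by ring
  rw [h6] at h4
  linarith

lemma Kf_ofReal (S : Set ℕ) (k : ℕ) (b : ZZ → ℝ) (z : ZZ) :
    ((Kf S k (fun z => (b z : ℂ)) z).re : ℂ) = Kf S k (fun z => (b z : ℂ)) z := by
  apply Complex.conj_eq_iff_re.mp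
  rw [Kf_conj]
  simp only [Complex.conj_ofReal]

/-- for selfadjoint `x` the operator `N_{S,k} x` is `X` of a real function -/
lemma Nop_real (hP : FreePoisson nu M Ω emb X) {x : H →L[ℂ] H} (hx : x ∈ M)
    (hsa : IsSelfAdjoint x) (S : Set ℕ) (k : ℕ) :
    Nop emb Ω X S k x = X (fun z => (Kf S k (chaos emb Ω x) z).re) := by
  set b : ZZ → ℝ := fun z => (chaos emb Ω x z).re with hb
  have hcb : (chaos emb Ω x : ZZ → ℂ) =ᵐ[nu] fun z => (b z : ℂ) := by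
    filter_upwards [chaos_im hP hx hsa] with z hz
    apply Complex.ext <;> simp [hb, hz]
  rw [← XC_ofReal hP, Nop]
  apply XC_congr hP
  filter_upwards [Kf_congr hcb S k] with z hz
  rw [hz, Kf_ofReal]

lemma Nop_selfAdjoint (hP : FreePoisson nu M Ω emb X) {x : H →L[ℂ] H} (hx : x ∈ M)
    (hsa : IsSelfAdjoint x) (S : Set ℕ) {k : ℕ} (hk : 1 ≤ k) :
    IsSelfAdjoint (Nop emb Ω X S k x) := by
  rw [Nop_real hP hx hsa]
  have h := (Kf_chaos_good hP hx S hk).re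
  exact hP.selfAdjoint _ h.1 h.2

lemma norm_Nop_tail (hP : FreePoisson nu M Ω emb X) {x : H →L[ℂ] H} (hx : x ∈ M)
    (hsa : IsSelfAdjoint x) {k : ℕ} (hk : 1 ≤ k) {S : Set ℕ} {m : ℕ} (hS : ∀ n ∈ S, m ≤ n) :
    ‖Nop emb Ω X S k x‖ ≤ 20 * ‖x‖ * ((8 : ℝ) ^ m)⁻¹ := by
  rw [Nop_real hP hx hsa]
  have h := (Kf_chaos_good hP hx S hk).re
  have hle : ∀ z, |(Kf S k (chaos emb Ω x) z).re| ≤ ‖Kf S k (chaos emb Ω x) z‖ :=
    fun z => Complex.abs_re_le_norm _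
  have h1 : ∫ z, (Kf S k (chaos emb Ω x) z).re ^ 2 ∂nu ≤ (3 * ((8 : ℝ) ^ m)⁻¹ * ‖x‖) ^ 2 := by
    refine integral_pow_le h.1.1 (by norm_num) hle (by positivity) ?_
    refine (Kf_L2 (Lp.aestronglyMeasurable _) hS hk).trans ?_
    refine (mul_le_mul_right (lint_chaos_le x) _).trans ?_
    rw [← ENNReal.ofReal_mul (by positivity)]
    apply ENNReal.ofReal_le_ofReal
    have h2 : ‖x Ω‖ ≤ ‖x‖ := by
      have := x.le_opNorm Ω
      rwa [hP.isTrace.norm_one, mul_one] at this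
    have h3 : ‖x Ω‖ ^ 2 ≤ ‖x‖ ^ 2 := by gcongr
    have h4 : 0 ≤ (((8 : ℝ) ^ m)⁻¹) ^ 2 := by positivity
    calc 8 * (((8 : ℝ) ^ m)⁻¹) ^ 2 * ‖x Ω‖ ^ 2 ≤ 9 * (((8 : ℝ) ^ m)⁻¹) ^ 2 * ‖x‖ ^ 2 := by
          gcongr; norm_num
      _ = _ := by ring
  have h2 : ∀ᵐ z ∂nu, |(Kf S k (chaos emb Ω x) z).re| ≤ 2 * ((8 : ℝ) ^ m)⁻¹ * (4 * ‖x‖) := by
    filter_upwards [Kf_sup (by positivity) (chaos_bound hP hx) hS hk] with z hz
    exact (hle z).trans hz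
  have h3 := hP.upper _ _ h.1 h2
  have h4 : √(∫ z, (Kf S k (chaos emb Ω x) z).re ^ 2 ∂nu) ≤ 3 * ((8 : ℝ) ^ m)⁻¹ * ‖x‖ := by
    rw [Real.sqrt_le_left (by positivity)]
    exact h1
  calc _ ≤ _ := h3
    _ ≤ 2 * (3 * ((8 : ℝ) ^ m)⁻¹ * ‖x‖) + 2 * ((8 : ℝ) ^ m)⁻¹ * (4 * ‖x‖) := by gcongr
    _ = 14 * ‖x‖ * ((8 : ℝ) ^ m)⁻¹ := by ring
    _ ≤ _ := by gcongr; norm_num

lemma neg_le_of_norm_le {y : H →L[ℂ] H} (hy : IsSelfAdjoint y) {c : ℝ} (hc : ‖y‖ ≤ c) :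
    0 ≤ y + ((c : ℝ) : ℂ) • (1 : H →L[ℂ] H) := by
  have h1 : -(algebraMap ℝ (H →L[ℂ] H) ‖y‖) ≤ y := hy.neg_algebraMap_norm_le_self
  have h2 : (algebraMap ℝ (H →L[ℂ] H) ‖y‖) ≤ ((c : ℝ) : ℂ) • (1 : H →L[ℂ] H) := by
    have h3 : ((c : ℝ) : ℂ) • (1 : H →L[ℂ] H) = algebraMap ℝ (H →L[ℂ] H) c := by
      rw [Algebra.algebraMap_eq_smul_one]
      exact (Complex.coe_smul _ _)
    rw [h3]
    exact algebraMap_mono _ hc
  have h3 : 0 ≤ y + algebraMap ℝ (H →L[ℂ] H) ‖y‖ := by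
    rw [← sub_neg_eq_add]
    exact sub_nonneg.mpr h1
  exact h3.trans (by gcongr)

/-- the near positivity hypothesis of one stage (proved in `near_pos`) -/
def StagePos (emb : Lp ℂ 2 nu →ₗᵢ[ℂ] H) (Ω : H) (X : (ZZ → ℝ) → H →L[ℂ] H)
    (g : H →L[ℂ] H) : Prop :=
  ∀ n i k : ℕ, 1 ≤ k → k ≤ i → i ≤ n →
    0 ≤ XC X (Kst n i k (chaos emb Ω g)) +
      ((200 * ((8 : ℝ) ^ n)⁻¹ * pnorm Ω (4 / 3) g : ℝ) : ℂ) • (1 : H →L[ℂ] H)

lemma sum_smul_one {ι : Type*} (T : Finset ι) (f : ι → ℝ) (c : ℝ) :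
    ∑ p ∈ T, (((f p * c : ℝ) : ℂ) • (1 : H →L[ℂ] H)) =
      (((∑ p ∈ T, f p) * c : ℝ) : ℂ) • (1 : H →L[ℂ] H) := by
  rw [← Finset.sum_smul, Finset.sum_mul, Complex.ofReal_sum]

theorem Nop_finite_pos (hP : FreePoisson nu M Ω emb X) {g : H →L[ℂ] H} (hg : g ∈ M)
    (hst : StagePos emb Ω X g) {k : ℕ} (hk : 1 ≤ k) (m : ℕ) :
    0 ≤ Nop emb Ω X {n | n < m} k g +
      ((300 * (1 / 4) ^ k * pnorm Ω (4 / 3) g : ℝ) : ℂ) • (1 : H →L[ℂ] H) := by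
  have hp := pnorm_nonneg' (Ω := Ω) g
  have h1 : 0 ≤ ∑ n ∈ Finset.Ico k m, ∑ i ∈ Finset.Icc k n,
      (XC X (Kst n i k (chaos emb Ω g)) +
      ((200 * ((8 : ℝ) ^ n)⁻¹ * pnorm Ω (4 / 3) g : ℝ) : ℂ) • (1 : H →L[ℂ] H)) := by
    apply Finset.sum_nonneg
    intro n _
    apply Finset.sum_nonneg
    intro i hi
    rw [Finset.mem_Icc] at hi
    exact hst n i k hk hi.1 hi.2
  simp_rw [Finset.sum_add_distrib] at h1
  rw [← Nop_eq_sum hP hg hk m] at h1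
  have h2 : ∑ n ∈ Finset.Ico k m, ∑ _i ∈ Finset.Icc k n,
      ((200 * ((8 : ℝ) ^ n)⁻¹ * pnorm Ω (4 / 3) g : ℝ) : ℂ) • (1 : H →L[ℂ] H) =
      (((∑ n ∈ Finset.Ico k m, ∑ _i ∈ Finset.Icc k n, 200 * ((8 : ℝ) ^ n)⁻¹) *
        pnorm Ω (4 / 3) g : ℝ) : ℂ) • (1 : H →L[ℂ] H) := by
    simp_rw [sum_smul_one]
  rw [h2] at h1
  refine h1.trans ?_
  have h3 : ∀ a b : ℝ, a ≤ b → ((a : ℝ) : ℂ) • (1 : H →L[ℂ] H) ≤ ((b : ℝ) : ℂ) • (1 : H →L[ℂ] H) := by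
    intro a b hab
    have h4 : ∀ c : ℝ, ((c : ℝ) : ℂ) • (1 : H →L[ℂ] H) = algebraMap ℝ (H →L[ℂ] H) c := by
      intro c
      rw [Algebra.algebraMap_eq_smul_one]
      exact (Complex.coe_smul _ _)
    rw [h4, h4]
    exact algebraMap_mono _ hab
  gcongr
  apply h3
  gcongr
  exact sum_eps k m

theorem Nop_pos (hP : FreePoisson nu M Ω emb X) {g : H →L[ℂ] H} (hg : g ∈ M)
    (hsa : IsSelfAdjoint g) (hst : StagePos emb Ω X g) {k : ℕ} (hk : 1 ≤ k) :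
    0 ≤ Nop emb Ω X Set.univ k g +
      ((300 * (1 / 4) ^ k * pnorm Ω (4 / 3) g : ℝ) : ℂ) • (1 : H →L[ℂ] H) := by
  set y := Nop emb Ω X Set.univ k g +
      ((300 * (1 / 4) ^ k * pnorm Ω (4 / 3) g : ℝ) : ℂ) • (1 : H →L[ℂ] H) with hy
  have h1 : ∀ m : ℕ, 0 ≤ y + ((20 * ‖g‖ * ((8 : ℝ)⁻¹) ^ m : ℝ) : ℂ) • (1 : H →L[ℂ] H) := by
    intro m
    have h2 := Nop_finite_pos hP hg hst hk m
    have h3 := neg_le_of_norm_le (Nop_selfAdjoint hP hg hsa (Set.univ ∩ {n | m ≤ n}) hk)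
      (norm_Nop_tail hP hg hsa hk (S := Set.univ ∩ {n | m ≤ n}) (m := m) fun n hn => hn.2)
    have h4 := add_nonneg h2 h3
    rw [hy, Nop_split hP hg Set.univ m hk]
    have h5 : (Set.univ ∩ {n | n < m} : Set ℕ) = {n | n < m} := Set.univ_inter _
    rw [h5, inv_pow]
    refine h4.trans (le_of_eq ?_)
    abel
  have hlim : Tendsto (fun m : ℕ => y + ((20 * ‖g‖ * ((8 : ℝ)⁻¹) ^ m : ℝ) : ℂ) • (1 : H →L[ℂ] H))
      atTop (𝓝 (y + ((20 * ‖g‖ * 0 : ℝ) : ℂ) • (1 : H →L[ℂ] H))) := by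
    apply Tendsto.const_add
    apply Tendsto.smul_const
    apply (Complex.continuous_ofReal.tendsto _).comp
    exact (_root_.tendsto_pow_atTop_nhds_zero_of_lt_one (by norm_num) (by norm_num)).const_mul _
  rw [mul_zero, Complex.ofReal_zero, zero_smul, add_zero] at hlim
  exact ge_of_tendsto' hlim h1

end Pool.Agent.H21.NC
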