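import Pool.Agent.H21.NC.Growth
import Pool.Agent.H21.NC.Nsum

/-!
# Growth: the test elements
-/

open MeasureTheory ENNReal NNReal Filter Topology
open scoped InnerProductSpace

namespace Pool.Agent.H21.NC

variable {H : Type*} [NormedAddCommGroup H] [InnerProductSpace ℂ H] [CompleteSpace H]
variable {M : VonNeumannAlgebra H} {Ω : H}
  {emb : Lp ℂ 2 nu →ₗᵢ[ℂ] H} {X : (ZZ → ℝ) → H →L[ℂ] H}

/-- synthesis weights -/
noncomputable def w3 (a : Lev) : ℝ := ((8 ^ a.1 * q a) ^ 3)⁻¹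

/-- test weights -/
noncomputable def w1 (a : Lev) : ℝ := (8 ^ a.1 * q a)⁻¹

lemma Aop_stg (n n' i : ℕ) (f : UnitAddCircle → ℝ) (s : UnitAddCircle) :
    Aop n' i (fun z => ((stgf n 0 w3 f z : ℝ) : ℂ)) s =
      if n' = n ∧ i = 0 then ((f s : ℝ) : ℂ) else 0 := by
  simp only [Aop]
  by_cases h : n' = n ∧ i = 0
  · obtain ⟨rfl, rfl⟩ := h
    rw [if_pos ⟨rfl, rfl⟩]
    have h1 : ∀ j ∈ Finset.range (numLev n'), ((q (n', 0, j) ^ 3 : ℝ) : ℂ) *
        ((stgf n' 0 w3 f (s, (n', 0, j)) : ℝ) : ℂ) = (((((8 : ℝ) ^ n') ^ 3)⁻¹ * f s : ℝ) : ℂ) := by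
      intro j hj
      rw [Finset.mem_range] at hj
      rw [stg_in hj, ← Complex.ofReal_mul, w3]
      have := q_pos (n', 0, j)
      congr 1
      field_simp
    rw [Finset.sum_congr rfl h1, Finset.sum_const, Finset.card_range, nsmul_eq_mul,
      ← Complex.ofReal_natCast, numLev_cast, ← Complex.ofReal_mul, ← Complex.ofReal_mul]
    congr 1
    field_simp
  · rw [if_neg h, Finset.sum_eq_zero, mul_zero]
    intro j _
    rw [stg_out, Complex.ofReal_zero, mul_zero]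
    rintro ⟨h1, h2, _⟩
    exact h ⟨h1, h2⟩

lemma cen_ofReal {f : UnitAddCircle → ℝ} (hf : ∫ s, f s = 0) (s : UnitAddCircle) :
    cen (fun s => ((f s : ℝ) : ℂ)) s = ((f s : ℝ) : ℂ) := by
  simp only [cen]
  rw [integral_complex_ofReal, hf]
  simp

lemma Kf_stg {n j : ℕ} {f : UnitAddCircle → ℝ} (hf : ∫ s, f s = 0) (z : ZZ) :
    Kf Set.univ j (fun z => ((stgf n 0 w3 f z : ℝ) : ℂ)) z =
      if j ≤ n then ((stgf n j w3 f z : ℝ) : ℂ) else 0 := by
  obtain ⟨s, n', i, l⟩ := z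
  have hA : Aop n' (i - j) (fun z => ((stgf n 0 w3 f z : ℝ) : ℂ)) = fun s =>
      if n' = n ∧ i - j = 0 then ((f s : ℝ) : ℂ) else 0 := by
    ext s; exact Aop_stg n n' (i - j) f s
  simp only [Kf, Set.mem_univ, true_and]
  by_cases h : j ≤ i ∧ i ≤ n' ∧ l < numLev n'
  · rw [if_pos h, hA]
    by_cases h2 : n' = n ∧ i = j
    · obtain ⟨rfl, rfl⟩ := h2
      rw [if_pos h.2.1, stg_in h.2.2]
      have : (fun s : UnitAddCircle => if n' = n' ∧ i - i = 0 then ((f s : ℝ) : ℂ) else 0) =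
          fun s => ((f s : ℝ) : ℂ) := by
        ext s; rw [if_pos ⟨rfl, Nat.sub_self i⟩]
      rw [this, cen_ofReal hf, Complex.ofReal_mul]
      rfl
    · have : (fun s : UnitAddCircle => if n' = n ∧ i - j = 0 then ((f s : ℝ) : ℂ) else 0) =
          fun s => 0 := by
        ext s; rw [if_neg]; rintro ⟨h3, h4⟩; exact h2 ⟨h3, by omega⟩
      rw [this, cen_zero]
      have h5 : stgf n j w3 f (s, (n', i, l)) = 0 :=
        stg_out (fun h3 => h2 ⟨h3.1, h3.2.1⟩) _ _ _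
      rw [h5]
      simp
  · rw [if_neg h]
    split_ifs with h6
    · rw [stg_out, Complex.ofReal_zero]
      rintro ⟨h3, h4, h5⟩
      exact h ⟨by omega, by omega, by rw [h3]; exact h5⟩
    · rfl

lemma chaos_X (hP : FreePoisson nu M Ω emb X) {f : ZZ → ℝ} (hf : Good nu f) :
    (chaos emb Ω (X f) : ZZ → ℂ) =ᵐ[nu] fun z => ((f z : ℝ) : ℂ) := by
  rw [← XC_ofReal hP f, chaos_XC hP hf.ofReal]
  exact MemLp.coeFn_toLp _

lemma memLp_level_real {b : ZZ → ℝ} (hb : MemLp b 2 nu) (a : Lev) :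
    MemLp (fun s => b (s, a)) 2 volume := by
  have h := (memLp_level hb.ofReal a).re
  exact h

lemma bump_good (t : ℝ) (h0 : 0 < t) (h1 : t ≤ 1) (n i : ℕ) (w : Lev → ℝ) :
    Good nu (stgf n i w (bump t)) := stg_good n i w (bump_meas t) (abs_bump_le h0 h1)

lemma Nop_stg (hP : FreePoisson nu M Ω emb X) {n j : ℕ} {t : ℝ} (h0 : 0 < t) (h1 : t ≤ 1) :
    Nop emb Ω X Set.univ j (X (stgf n 0 w3 (bump t))) =
      if j ≤ n then X (stgf n j w3 (bump t)) else 0 := by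
  rw [Nop]
  have h := Kf_congr (chaos_X hP (bump_good t h0 h1 n 0 w3)) Set.univ j
  rw [XC_congr hP h]
  have h2 := Kf_stg (n := n) (j := j) (integral_bump h0 h1)
  by_cases hj : j ≤ n
  · rw [if_pos hj, ← XC_ofReal hP]
    congr 1
    ext z
    rw [h2 z, if_pos hj]
  · rw [if_neg hj, ← XC_zero hP]
    congr 1
    ext z
    rw [h2 z, if_neg hj]

lemma tr_stg (hP : FreePoisson nu M Ω emb X) {n j k : ℕ} {t : ℝ} (h0 : 0 < t) (h1 : t ≤ 1) :
    tr Ω (X (stgf n j w3 (bump t)) * X (stgf n k w1 (bump t))) =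
      if j = k then ((∫ s, bump t s ^ 2 : ℝ) : ℂ) else 0 := by
  rw [tr_X_mul hP (bump_good t h0 h1 n j w3)]
  have h2 : ∫ z, ((stgf n j w3 (bump t) z : ℝ) : ℂ) * chaos emb Ω (X (stgf n k w1 (bump t))) z ∂nu =
      ∫ z, ((stgf n j w3 (bump t) z * stgf n k w1 (bump t) z : ℝ) : ℂ) ∂nu := by
    apply integral_congr_ae
    filter_upwards [chaos_X hP (bump_good t h0 h1 n k w1)] with z hz
    rw [hz, Complex.ofReal_mul]
  rw [h2, integral_complex_ofReal]
  by_cases hjk : j = k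
  · subst hjk
    rw [if_pos rfl]
    congr 1
    rw [integral_stage (n := n) (i := j)]
    · have h3 : ∀ l ∈ Finset.range (numLev n), (q (n, j, l) ^ 4) • ∫ s,
          stgf n j w3 (bump t) (s, (n, j, l)) * stgf n j w1 (bump t) (s, (n, j, l)) =
          q (n, j, l) ^ 4 * (((8 ^ n * q (n, j, l)) ^ 3)⁻¹ * (8 ^ n * q (n, j, l))⁻¹) *
            ∫ s, bump t s ^ 2 := by
        intro l hl
        rw [Finset.mem_range] at hl
        have h4 : ∀ s, stgf n j w3 (bump t) (s, (n, j, l)) * stgf n j w1 (bump t) (s, (n, j, l)) =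
            (w3 (n, j, l) * w1 (n, j, l)) * bump t s ^ 2 := by
          intro s
          rw [stg_in hl, stg_in hl]
          ring
        simp_rw [h4]
        rw [integral_const_mul, smul_eq_mul, ← mul_assoc]
        rfl
      rw [Finset.sum_congr rfl h3, ← Finset.sum_mul, q_stage_sum, one_mul]
    · intro a ha s
      rw [stg_zero n j w3 _ a ha s, zero_mul]
    · rintro ⟨n', i', l⟩ ha
      obtain ⟨rfl, rfl, h3⟩ := mem_Tst.mp ha
      have h4 : ∀ s, stgf n' i' w3 (bump t) (s, (n', i', l)) * stgf n' i' w1 (bump t) (s, (n', i', l)) =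
          (w3 (n', i', l) * w1 (n', i', l)) * bump t s ^ 2 := by
        intro s
        rw [stg_in h3, stg_in h3]
        ring
      simp_rw [h4]
      exact (bump_pow_integrable h0 h1).const_mul _
  · rw [if_neg hjk]
    have h3 : ∀ z, stgf n j w3 (bump t) z * stgf n k w1 (bump t) z = 0 := by
      rintro ⟨s, n', i', l⟩
      by_cases h4 : i' = j
      · have h5 : stgf n k w1 (bump t) (s, (n', i', l)) = 0 := by
          apply stg_out
          rintro ⟨_, h6, _⟩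
          exact hjk (h4.symm.trans h6)
        rw [h5, mul_zero]
      · have h5 : stgf n j w3 (bump t) (s, (n', i', l)) = 0 := by
          apply stg_out
          rintro ⟨_, h6, _⟩
          exact h4 h6
        rw [h5, zero_mul]
    simp_rw [h3]
    simp

/-! ### norm bounds -/

lemma pnorm_four_stg (hP : FreePoisson nu M Ω emb X) {n i : ℕ} {t : ℝ} (h0 : 0 < t)
    (h1 : t ≤ 1) (ht : t * Q1 n i ≤ 1) : pnorm Ω 4 (X (stgf n i w1 (bump t))) ≤ 2 * t := by
  have h2 : pnorm Ω 4 (X (stgf n i w1 (bump t))) ^ 4 ≤ (2 * t) ^ 4 := by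
    rw [pnorm_four_X hP (bump_good t h0 h1 n i w1),
      integral_stg_pow n i w1 (by norm_num) (bump_pow_integrable h0 h1),
      integral_stg_pow n i w1 (by norm_num) (bump_pow_integrable h0 h1)]
    have e1 : ∑ j ∈ Finset.range (numLev n), q (n, i, j) ^ 4 * w1 (n, i, j) ^ 4 = 1 := by
      have e : ∀ j ∈ Finset.range (numLev n), q (n, i, j) ^ 4 * w1 (n, i, j) ^ 4 =
          (((8 : ℝ) ^ n) ^ 4)⁻¹ := by
        intro j _
        have hq := q_pos (n, i, j)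
        simp only [w1]
        field_simp
      rw [Finset.sum_congr rfl e, Finset.sum_const, Finset.card_range, nsmul_eq_mul, numLev_cast]
      exact mul_inv_cancel₀ (by positivity)
    have e2 : ∑ j ∈ Finset.range (numLev n), q (n, i, j) ^ 4 * w1 (n, i, j) ^ 2 ≤ Q1 n i ^ 2 := by
      refine le_trans (Finset.sum_le_sum fun j _ => ?_) (sum_q_pow 2 (by norm_num) n i)
      have hq := q_pos (n, i, j)
      have e3 : q (n, i, j) ^ 4 * w1 (n, i, j) ^ 2 = (((8 : ℝ) ^ n) ^ 2)⁻¹ * q (n, i, j) ^ 2 := by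
        simp only [w1]
        field_simp
      rw [e3]
      have e4 : (((8 : ℝ) ^ n) ^ 2)⁻¹ ≤ 1 :=
        inv_le_one_of_one_le₀ (one_le_pow₀ (one_le_pow₀ (by norm_num)))
      calc _ ≤ 1 * q (n, i, j) ^ 2 := by gcongr
        _ = _ := one_mul _
    have e5 := integral_bump_pow_le h0 h1 (m := 2) (by norm_num)
    have e6 := integral_bump_pow_le h0 h1 (m := 4) (by norm_num)
    have e7 : 0 ≤ ∫ s, bump t s ^ 2 := integral_nonneg fun s => sq_nonneg _
    have e8 : 0 ≤ ∑ j ∈ Finset.range (numLev n), q (n, i, j) ^ 4 * w1 (n, i, j) ^ 2 :=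
      Finset.sum_nonneg fun j _ => by have hq := q_pos (n, i, j); positivity
    have hQ : 0 ≤ Q1 n i := (Q1_pos n i).le
    rw [e1, one_mul]
    have e9 : ((∑ j ∈ Finset.range (numLev n), q (n, i, j) ^ 4 * w1 (n, i, j) ^ 2) *
        ∫ s, bump t s ^ 2) ^ 2 ≤ (Q1 n i ^ 2 * t ^ 4) ^ 2 := by gcongr
    have e10 : (Q1 n i ^ 2 * t ^ 4) ^ 2 = (t * Q1 n i) ^ 4 * t ^ 4 := by ring
    have e11 : (t * Q1 n i) ^ 4 ≤ 1 := pow_le_one₀ (by positivity) ht
    have e12 : 0 ≤ t ^ 4 := by positivity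
    nlinarith
  exact (pow_le_pow_iff_left₀ (pnorm_four_nonneg _) (by positivity) (by norm_num)).mp h2

lemma tr_stg_mul_sa (hP : FreePoisson nu M Ω emb X) {n : ℕ} {t : ℝ} (h0 : 0 < t)
    (h1 : t ≤ 1) {h : H →L[ℂ] H} (hh : h ∈ M) (hsa : IsSelfAdjoint h) :
    ‖tr Ω (X (stgf n 0 w3 (bump t)) * h)‖ ≤ t ^ 3 * (9 / 2 * pnorm Ω 4 h) := by
  set B : ZZ → ℂ := (chaos emb Ω h : ZZ → ℂ) with hB
  have hBL : MemLp B 2 nu := Lp.memLp _
  have e1 : tr Ω (X (stgf n 0 w3 (bump t)) * h) = ∫ s, ((bump t s : ℝ) : ℂ) * Bop n 0 B s := by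
    rw [tr_X_mul hP (bump_good t h0 h1 n 0 w3), integral_stage (n := n) (i := 0)]
    · have e2 : ∀ j ∈ Finset.range (numLev n), (q (n, 0, j) ^ 4) • ∫ s,
          ((stgf n 0 w3 (bump t) (s, (n, 0, j)) : ℝ) : ℂ) * chaos emb Ω h (s, (n, 0, j)) =
          ∫ s, ((bump t s : ℝ) : ℂ) * (((((8 : ℝ) ^ n) ^ 3)⁻¹ : ℝ) *
            (((q (n, 0, j) : ℝ) : ℂ) * B (s, (n, 0, j)))) := by
        intro j hj
        rw [Finset.mem_range] at hj
        rw [← integral_smul]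
        congr 1
        ext s
        rw [stg_in hj, Complex.real_smul, Complex.ofReal_mul]
        have := q_pos (n, 0, j)
        have h3 : ((q (n, 0, j) ^ 4 : ℝ) : ℂ) * ((w3 (n, 0, j) : ℝ) : ℂ) =
            (((((8 : ℝ) ^ n) ^ 3)⁻¹ : ℝ) : ℂ) * ((q (n, 0, j) : ℝ) : ℂ) := by
          rw [← Complex.ofReal_mul, ← Complex.ofReal_mul]
          congr 1
          simp only [w3]
          field_simp
        calc _ = (((q (n, 0, j) ^ 4 : ℝ) : ℂ) * ((w3 (n, 0, j) : ℝ) : ℂ)) *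
              (((bump t s : ℝ) : ℂ) * B (s, (n, 0, j))) := by ring
          _ = _ := by rw [h3]; ring
      rw [Finset.sum_congr rfl e2, ← integral_finsetSum]
      · congr 1
        ext s
        rw [← Finset.mul_sum, ← Finset.mul_sum]
        rfl
      · intro j _
        refine integrable_mul_two (MemLp.ofReal ?_) (((memLp_level hBL _).const_mul _).const_mul _)
        exact (memLp_top_of_bound (bump_meas t).aestronglyMeasurable 1
          (Eventually.of_forall (abs_bump_le h0 h1))).mono_exponent (by norm_num)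
    · intro a ha s
      rw [stg_zero n 0 w3 _ a ha s, Complex.ofReal_zero, zero_mul]
    · rintro ⟨n', i', j⟩ ha
      refine integrable_mul_two (MemLp.ofReal ?_) (memLp_level hBL _)
      exact memLp_level_real (bump_good t h0 h1 n 0 w3).1 _
  rw [e1]
  have hA := lint_le_of_pointwise (m := 4) (f := Bop n 0 B)
    (g := fun j s => B (s, (n, 0, j))) (μ := volume)
    (Finset.range (numLev n)) (C := 1)
    (w := fun j => q (n, 0, j) ^ 4) (by positivity)
    (fun j => by have := q_pos (n, 0, j); positivity)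
    (fun j _ => aesm_nu.mp hBL.1 _) (Bop_four_pt n 0 B)
  rw [ENNReal.ofReal_one, one_mul] at hA
  have hB4 : ∫⁻ s, ‖Bop n 0 B s‖ₑ ^ 4 ≤ ENNReal.ofReal ((9 / 2 * pnorm Ω 4 h) ^ 4) := by
    calc _ ≤ en 4 B n 0 := hA
      _ ≤ ∑' i, en 4 B n i := ENNReal.le_tsum 0
      _ ≤ ∑' n, ∑' i, en 4 B n i := ENNReal.le_tsum n
      _ ≤ ∫⁻ z, ‖B z‖ₑ ^ 4 ∂nu := sum_en_le 4 B
      _ ≤ ENNReal.ofReal (1024 / 3 * pnorm Ω 4 h ^ 4) := chaos_four hP hh hsa
      _ ≤ _ := by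
        apply ENNReal.ofReal_le_ofReal
        have : 0 ≤ pnorm Ω 4 h ^ 4 := by positivity
        rw [mul_pow]
        nlinarith
  exact bump_holder h0 h1 (by have := pnorm_four_nonneg (Ω := Ω) h; positivity)
    (Bop_memLp hBL n 0).1 hB4

lemma pnorm_stg (hP : FreePoisson nu M Ω emb X) {n : ℕ} {t : ℝ} (h0 : 0 < t)
    (h1 : t ≤ 1) : pnorm Ω (4 / 3) (X (stgf n 0 w3 (bump t))) ≤ 9 * t ^ 3 := by
  have hg := bump_good t h0 h1 n 0 w3
  refine pnorm_le_of_forall hP.isTrace (hP.mem _ hg.1 hg.2) (by positivity) fun y hy => ?_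
  obtain ⟨a, ha, b, hb, sa, sb, hab, na, nb⟩ := exists_re_im_four hP.isTrace hy
  have e1 := tr_stg_mul_sa hP h0 h1 ha sa (n := n)
  have e2 := tr_stg_mul_sa hP h0 h1 hb sb (n := n)
  have h3 : tr Ω (X (stgf n 0 w3 (bump t)) * y) = tr Ω (X (stgf n 0 w3 (bump t)) * a) +
      Complex.I * tr Ω (X (stgf n 0 w3 (bump t)) * b) := by
    rw [hab, mul_add, tr_add, mul_smul_comm, tr_smul]
  rw [h3]
  refine (norm_add_le _ _).trans ?_
  rw [norm_mul, Complex.norm_I, one_mul]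
  have h4 : t ^ 3 * (9 / 2 * pnorm Ω 4 a) ≤ t ^ 3 * (9 / 2 * pnorm Ω 4 y) := by gcongr
  have h5 : t ^ 3 * (9 / 2 * pnorm Ω 4 b) ≤ t ^ 3 * (9 / 2 * pnorm Ω 4 y) := by gcongr
  linarith

/-- powers of `N` on the algebra -/
noncomputable def Npow (emb : Lp ℂ 2 nu →ₗᵢ[ℂ] H) (Ω : H) (X : (ZZ → ℝ) → H →L[ℂ] H) (k : ℕ)
    (x : H →L[ℂ] H) : H →L[ℂ] H := (Nop emb Ω X Set.univ 1)^[k] x

lemma Npow_succ (k : ℕ) (x : H →L[ℂ] H) :
    Npow emb Ω X (k + 1) x = Nop emb Ω X Set.univ 1 (Npow emb Ω X k x) :=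
  Function.iterate_succ_apply' _ _ _

lemma Npow_eq (hP : FreePoisson nu M Ω emb X) {x : H →L[ℂ] H} (hx : x ∈ M) (k : ℕ) :
    Npow emb Ω X (k + 1) x = Nop emb Ω X Set.univ (k + 1) x := by
  induction k with
  | zero => rfl
  | succ k ih =>
    rw [Npow_succ, ih, Nop_comp hP hx _ _ (by omega), Set.univ_inter]

theorem growth_elt (hP : FreePoisson nu M Ω emb X) (k : ℕ) :
    ∃ g ∈ M, ∃ y ∈ M, pnorm Ω (4 / 3) g ≤ 1 ∧ pnorm Ω 4 y ≤ 1 ∧ tr Ω g = 0 ∧
      (∀ j, j ≠ k → tr Ω (Npow emb Ω X j g * y) = 0) ∧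
      1 / 72 ≤ ‖tr Ω (Npow emb Ω X k g * y)‖ := by
  set t : ℝ := (Q1 k k)⁻¹ with ht
  have hQ := Q1_pos k k
  have hQ1 := one_le_Q1 k k
  have h0 : 0 < t := by positivity
  have h1 : t ≤ 1 := inv_le_one_of_one_le₀ hQ1
  have htQ : t * Q1 k k ≤ 1 := by rw [ht, inv_mul_cancel₀ hQ.ne']
  set g0 := X (stgf k 0 w3 (bump t)) with hg0
  set y0 := X (stgf k k w1 (bump t)) with hy0
  have gg := bump_good t h0 h1 k 0 w3
  have gy := bump_good t h0 h1 k k w1
  have mg : g0 ∈ M := hP.mem _ gg.1 gg.2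
  have my : y0 ∈ M := hP.mem _ gy.1 gy.2
  set α : ℂ := (((9 * t ^ 3)⁻¹ : ℝ) : ℂ) with hα
  set β : ℂ := (((2 * t)⁻¹ : ℝ) : ℂ) with hβ
  have nα : ‖α‖ = (9 * t ^ 3)⁻¹ := by
    rw [hα, Complex.norm_real, Real.norm_of_nonneg (by positivity)]
  have nβ : ‖β‖ = (2 * t)⁻¹ := by
    rw [hβ, Complex.norm_real, Real.norm_of_nonneg (by positivity)]
  -- the pairing
  have key : ∀ j, tr Ω (Npow emb Ω X j (α • g0) * (β • y0)) =
      if j = k then α * β * ((∫ s, bump t s ^ 2 : ℝ) : ℂ) else 0 := by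
    intro j
    have e1 : Npow emb Ω X j (α • g0) = α • (if j ≤ k then X (stgf k j w3 (bump t)) else 0) := by
      rcases j with _ | j
      · rw [if_pos (Nat.zero_le _)]
        rfl
      · rw [Npow_eq hP (smul_mem' α mg), Nop_smul hP α mg _ (by omega), hg0, Nop_stg hP h0 h1]
    rw [e1, smul_mul_smul_comm, tr_smul]
    by_cases hj : j ≤ k
    · rw [if_pos hj, hy0, tr_stg hP h0 h1]
      split_ifs <;> simp
    · rw [if_neg hj, zero_mul, if_neg (by omega)]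
      simp [tr]
  refine ⟨α • g0, smul_mem' α mg, β • y0, smul_mem' β my, ?_, ?_, ?_, ?_, ?_⟩
  · rw [pnorm_smul hP.isTrace mg, nα]
    have := pnorm_stg hP h0 h1 (n := k)
    rw [inv_mul_le_iff₀ (by positivity), mul_one]
    exact this
  · refine (pnorm_four_smul hP.isTrace my β).trans ?_
    rw [nβ]
    have := pnorm_four_stg hP h0 h1 htQ
    rw [inv_mul_le_iff₀ (by positivity), mul_one]
    exact this
  · rw [tr_smul, hg0, tr, hP.vacuum _ gg.1 gg.2, hP.emb_orth, mul_zero]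
  · intro j hj
    rw [key, if_neg hj]
  · rw [key, if_pos rfl, norm_mul, norm_mul, nα, nβ, Complex.norm_real,
      Real.norm_of_nonneg (integral_nonneg fun s => sq_nonneg _)]
    have e := integral_bump_sq h0 h1
    calc (1 : ℝ) / 72 = (9 * t ^ 3)⁻¹ * (2 * t)⁻¹ * (t ^ 4 / 4) := by field_simp; norm_num
      _ ≤ _ := by gcongr

end Pool.Agent.H21.NC
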