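import Pool.Agent.H21.NC.Levels

/-!
# Function-level operators
-/

open MeasureTheory ENNReal NNReal Filter Topology
open scoped InnerProductSpace

namespace Pool.Agent.H21.NC

/-! ### integrals over `nu` -/

lemma integral_nu {E : Type*} [NormedAddCommGroup E] [NormedSpace ℝ E]
    {F : ZZ → E} (hF : Integrable F nu) :
    ∫ z, F z ∂nu = ∑' a : Lev, (q a ^ 4) • ∫ s, F (s, a) := by
  have h := hF
  unfold nu at h ⊢
  rw [integral_sum_measure h]
  congr 1
  ext a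
  rw [integral_smul_measure, (memb a).integral_map, ENNReal.toReal_ofReal]
  have := q_pos a
  positivity

lemma integrable_nu_iff {E : Type*} [NormedAddCommGroup E] {F : ZZ → E} :
    Integrable F nu ↔ (∀ a : Lev, AEStronglyMeasurable (fun s => F (s, a)) volume) ∧
      ∑' a : Lev, ENNReal.ofReal (q a ^ 4) * ∫⁻ s, ‖F (s, a)‖ₑ < ∞ := by
  rw [Integrable, HasFiniteIntegral, aesm_nu, lintegral_nu]

lemma integrable_nu_finset {E : Type*} [NormedAddCommGroup E] {F : ZZ → E} (T : Finset Lev)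
    (hT : ∀ a ∉ T, ∀ s, F (s, a) = 0) (hi : ∀ a ∈ T, Integrable (fun s => F (s, a)) volume) :
    Integrable F nu := by
  rw [integrable_nu_iff]
  constructor
  · intro a
    by_cases ha : a ∈ T
    · exact (hi a ha).1
    · have : (fun s => F (s, a)) = fun _ => 0 := by ext s; exact hT a ha s
      rw [this]; exact aestronglyMeasurable_const
  · rw [tsum_eq_sum (s := T)]
    · rw [ENNReal.sum_lt_top]
      intro a ha
      exact ENNReal.mul_lt_top ENNReal.ofReal_lt_top (hi a ha).2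
    · intro a ha
      simp [hT a ha]

lemma integral_nu_finset {E : Type*} [NormedAddCommGroup E] [NormedSpace ℝ E] {F : ZZ → E}
    (T : Finset Lev) (hT : ∀ a ∉ T, ∀ s, F (s, a) = 0)
    (hi : ∀ a ∈ T, Integrable (fun s => F (s, a)) volume) :
    ∫ z, F z ∂nu = ∑ a ∈ T, (q a ^ 4) • ∫ s, F (s, a) := by
  rw [integral_nu (integrable_nu_finset T hT hi), tsum_eq_sum (s := T)]
  intro a ha
  simp [hT a ha]

/-! ### geometric sums -/

lemma geom_up (r : ℝ) (hr : 1 < r) (b L : ℕ) :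
    ∑ j ∈ Finset.range L, r ^ (b + j) ≤ r ^ (b + L) / (r - 1) := by
  have h0 : 0 < r - 1 := by linarith
  rw [le_div_iff₀ h0]
  have h1 : ∑ j ∈ Finset.range L, r ^ (b + j) = r ^ b * ∑ j ∈ Finset.range L, r ^ j := by
    rw [Finset.mul_sum]
    apply Finset.sum_congr rfl
    intro j _
    rw [pow_add]
  rw [h1, mul_assoc, geom_sum_mul, pow_add]
  have : 0 < r ^ b := by positivity
  nlinarith

lemma geom_down (r : ℝ) (hr : 1 < r) (b L : ℕ) :
    ∑ j ∈ Finset.range L, (r ^ (b + j))⁻¹ ≤ r / (r - 1) * (r ^ b)⁻¹ := by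
  have h0 : 0 < r - 1 := by linarith
  have hr0 : 0 < r := by linarith
  have h1 : ∑ j ∈ Finset.range L, (r ^ (b + j))⁻¹ = (r ^ b)⁻¹ * ∑ j ∈ Finset.range L, (r⁻¹) ^ j := by
    rw [Finset.mul_sum]
    apply Finset.sum_congr rfl
    intro j _
    rw [pow_add, mul_inv, inv_pow]
  rw [h1, mul_comm]
  have h2 : ∑ j ∈ Finset.range L, (r⁻¹) ^ j ≤ r / (r - 1) := by
    rw [le_div_iff₀ h0]
    have h3 := geom_sum_mul (r⁻¹) L
    have h4 : (∑ j ∈ Finset.range L, (r⁻¹) ^ j) * (r - 1) =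
        -r * ((∑ j ∈ Finset.range L, (r⁻¹) ^ j) * (r⁻¹ - 1)) := by
      field_simp
      ring
    rw [h4, h3]
    have h5 : 0 ≤ (r⁻¹) ^ L := by positivity
    nlinarith
  gcongr

/-- lower end of the window of stage `(n, i)` -/
noncomputable def Q0 (n i : ℕ) : ℝ := 2 ^ base n i

/-- upper end of the window of stage `(n, i)` -/
noncomputable def Q1 (n i : ℕ) : ℝ := 2 ^ (base n i + numLev n)

lemma Q0_pos (n i : ℕ) : 0 < Q0 n i := by unfold Q0; positivity
lemma Q1_pos (n i : ℕ) : 0 < Q1 n i := by unfold Q1; positivity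
lemma one_le_Q0 (n i : ℕ) : 1 ≤ Q0 n i := one_le_pow₀ (by norm_num)
lemma one_le_Q1 (n i : ℕ) : 1 ≤ Q1 n i := one_le_pow₀ (by norm_num)

lemma sum_q_pow (m : ℕ) (hm : 1 ≤ m) (n i : ℕ) :
    ∑ j ∈ Finset.range (numLev n), q (n, i, j) ^ m ≤ Q1 n i ^ m := by
  have h := geom_up ((2 : ℝ) ^ m) (by
    calc (1 : ℝ) < 2 ^ 1 := by norm_num
      _ ≤ 2 ^ m := pow_le_pow_right₀ (by norm_num) hm) (base n i) (numLev n)
  have h1 : ∀ j, q (n, i, j) ^ m = ((2 : ℝ) ^ m) ^ (base n i + j) := by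
    intro j
    rw [q, ← pow_mul, ← pow_mul, mul_comm]
  simp_rw [h1]
  refine h.trans ?_
  have h2 : Q1 n i ^ m = ((2 : ℝ) ^ m) ^ (base n i + numLev n) := by
    rw [Q1, ← pow_mul, ← pow_mul, mul_comm]
  rw [h2]
  apply div_le_self (by positivity)
  have : (2 : ℝ) ^ 1 ≤ 2 ^ m := pow_le_pow_right₀ (by norm_num) hm
  linarith

lemma sum_q_inv_pow (m : ℕ) (hm : 1 ≤ m) (n i : ℕ) :
    ∑ j ∈ Finset.range (numLev n), (q (n, i, j) ^ m)⁻¹ ≤ 2 * (Q0 n i ^ m)⁻¹ := by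
  have h2m : (2 : ℝ) ≤ 2 ^ m := by
    calc (2 : ℝ) = 2 ^ 1 := by norm_num
      _ ≤ 2 ^ m := pow_le_pow_right₀ (by norm_num) hm
  have h := geom_down ((2 : ℝ) ^ m) (by linarith) (base n i) (numLev n)
  have h1 : ∀ j, q (n, i, j) ^ m = ((2 : ℝ) ^ m) ^ (base n i + j) := by
    intro j
    rw [q, ← pow_mul, ← pow_mul, mul_comm]
  simp_rw [h1]
  refine h.trans ?_
  have h2 : Q0 n i ^ m = ((2 : ℝ) ^ m) ^ (base n i) := by
    rw [Q0, ← pow_mul, ← pow_mul, mul_comm]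
  rw [h2]
  gcongr
  rw [div_le_iff₀ (by linarith)]
  linarith

/-- the windows are super-increasing -/
lemma window (n i i' : ℕ) (h : i' < i) : 8 ^ n * Q1 n i' ^ 3 ≤ Q0 n i := by
  have h1 : (8 : ℝ) ^ n = 2 ^ (3 * n) := by rw [pow_mul]; norm_num
  rw [h1, Q1, Q0, ← pow_mul, ← pow_add]
  apply pow_le_pow_right₀ (by norm_num)
  have h2 : base n (i' + 1) ≤ base n i := by
    unfold base
    gcongr
    · norm_num
    · omega
  refine le_trans ?_ h2
  have h3 : n ≤ 4096 ^ n := (Nat.lt_pow_self (by norm_num)).le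
  have h4 : 1 ≤ 4 ^ i' := Nat.one_le_pow _ _ (by norm_num)
  unfold base numLev
  rw [pow_succ]
  nlinarith [Nat.zero_le (4096 ^ n), Nat.mul_le_mul h4 (le_refl (4096 ^ n))]

end Pool.Agent.H21.NC
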