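import Pool.Agent.H21.NC.Kop

/-!
# Function-level operators: definitions and bounds
-/

open MeasureTheory ENNReal NNReal Filter Topology
open scoped InnerProductSpace

namespace Pool.Agent.H21.NC

/-- analysis of stage `(n, i)` -/
noncomputable def Aop (n i : ℕ) (B : ZZ → ℂ) (s : UnitAddCircle) : ℂ :=
  (((8 : ℝ) ^ n)⁻¹ : ℝ) * ∑ j ∈ Finset.range (numLev n), ((q (n, i, j) ^ 3 : ℝ) : ℂ) * B (s, (n, i, j))

/-- dual synthesis of stage `(n, i)` -/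
noncomputable def Bop (n i : ℕ) (C : ZZ → ℂ) (s : UnitAddCircle) : ℂ :=
  ((((8 : ℝ) ^ n) ^ 3)⁻¹ : ℝ) * ∑ j ∈ Finset.range (numLev n), ((q (n, i, j) : ℝ) : ℂ) * C (s, (n, i, j))

/-- centring -/
noncomputable def cen (c : UnitAddCircle → ℂ) (s : UnitAddCircle) : ℂ := c s - ∫ t, c t

open Classical in
/-- shift of the stages by `k` in the blocks `n ∈ S` -/
noncomputable def Kf (S : Set ℕ) (k : ℕ) (B : ZZ → ℂ) (z : ZZ) : ℂ :=
  if z.2.1 ∈ S ∧ k ≤ z.2.2.1 ∧ z.2.2.1 ≤ z.2.1 ∧ z.2.2.2 < numLev z.2.1 then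
    (((8 ^ z.2.1 * q z.2) ^ 3)⁻¹ : ℝ) * cen (Aop z.2.1 (z.2.2.1 - k) B) z.1 else 0

open Classical in
/-- the part of `Kf S k B` on stage `(n, i)` -/
noncomputable def Kst (n i k : ℕ) (B : ZZ → ℂ) (z : ZZ) : ℂ :=
  if z.2.1 = n ∧ z.2.2.1 = i ∧ z.2.2.2 < numLev n then
    (((8 ^ n * q z.2) ^ 3)⁻¹ : ℝ) * cen (Aop n (i - k) B) z.1 else 0

open Classical in
/-- the transposed operator of `Kf S 1` -/
noncomputable def Gf (S : Set ℕ) (C : ZZ → ℂ) (z : ZZ) : ℂ :=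
  if z.2.1 ∈ S ∧ z.2.2.1 + 1 ≤ z.2.1 ∧ z.2.2.2 < numLev z.2.1 then
    ((8 ^ z.2.1 * q z.2)⁻¹ : ℝ) * cen (Bop z.2.1 (z.2.2.1 + 1) C) z.1 else 0

/-! ### measurability -/

lemma Aop_aesm {B : ZZ → ℂ} (hB : AEStronglyMeasurable B nu) (n i : ℕ) :
    AEStronglyMeasurable (Aop n i B) volume := by
  unfold Aop
  apply AEStronglyMeasurable.const_mul
  apply Finset.aestronglyMeasurable_fun_sum
  intro j _
  exact (aesm_nu.mp hB _).const_mul _

lemma Bop_aesm {B : ZZ → ℂ} (hB : AEStronglyMeasurable B nu) (n i : ℕ) :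
    AEStronglyMeasurable (Bop n i B) volume := by
  unfold Bop
  apply AEStronglyMeasurable.const_mul
  apply Finset.aestronglyMeasurable_fun_sum
  intro j _
  exact (aesm_nu.mp hB _).const_mul _

lemma cen_aesm {c : UnitAddCircle → ℂ} (hc : AEStronglyMeasurable c volume) :
    AEStronglyMeasurable (cen c) volume := hc.sub aestronglyMeasurable_const

lemma Kf_aesm {B : ZZ → ℂ} (hB : AEStronglyMeasurable B nu) (S : Set ℕ) (k : ℕ) :
    AEStronglyMeasurable (Kf S k B) nu := by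
  rw [aesm_nu]
  intro a
  by_cases h : a.1 ∈ S ∧ k ≤ a.2.1 ∧ a.2.1 ≤ a.1 ∧ a.2.2 < numLev a.1
  · have : (fun s => Kf S k B (s, a)) = fun s => ((((8 ^ a.1 * q a) ^ 3)⁻¹ : ℝ) : ℂ) *
        cen (Aop a.1 (a.2.1 - k) B) s := by
      ext s; simp only [Kf]; rw [if_pos h]
    rw [this]
    exact (cen_aesm (Aop_aesm hB _ _)).const_mul _
  · have : (fun s => Kf S k B (s, a)) = fun s => 0 := by
      ext s; simp only [Kf]; rw [if_neg h]
    rw [this]
    exact aestronglyMeasurable_const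

lemma Gf_aesm {B : ZZ → ℂ} (hB : AEStronglyMeasurable B nu) (S : Set ℕ) :
    AEStronglyMeasurable (Gf S B) nu := by
  rw [aesm_nu]
  intro a
  by_cases h : a.1 ∈ S ∧ a.2.1 + 1 ≤ a.1 ∧ a.2.2 < numLev a.1
  · have : (fun s => Gf S B (s, a)) = fun s => (((8 ^ a.1 * q a)⁻¹ : ℝ) : ℂ) *
        cen (Bop a.1 (a.2.1 + 1) B) s := by
      ext s; simp only [Gf]; rw [if_pos h]
    rw [this]
    exact (cen_aesm (Bop_aesm hB _ _)).const_mul _
  · have : (fun s => Gf S B (s, a)) = fun s => 0 := by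
      ext s; simp only [Gf]; rw [if_neg h]
    rw [this]
    exact aestronglyMeasurable_const

/-! ### a.e. congruence -/

lemma Aop_congr {B C : ZZ → ℂ} (h : B =ᵐ[nu] C) (n i : ℕ) : Aop n i B =ᵐ[volume] Aop n i C := by
  have h1 := ae_nu.mp h
  have h2 : ∀ᵐ s : UnitAddCircle, ∀ j, B (s, (n, i, j)) = C (s, (n, i, j)) :=
    ae_all_iff.mpr fun j => h1 (n, i, j)
  filter_upwards [h2] with s hs
  simp only [Aop]
  congr 1
  apply Finset.sum_congr rfl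
  intro j _
  rw [hs j]

lemma Bop_congr {B C : ZZ → ℂ} (h : B =ᵐ[nu] C) (n i : ℕ) : Bop n i B =ᵐ[volume] Bop n i C := by
  have h1 := ae_nu.mp h
  have h2 : ∀ᵐ s : UnitAddCircle, ∀ j, B (s, (n, i, j)) = C (s, (n, i, j)) :=
    ae_all_iff.mpr fun j => h1 (n, i, j)
  filter_upwards [h2] with s hs
  simp only [Bop]
  congr 1
  apply Finset.sum_congr rfl
  intro j _
  rw [hs j]

lemma cen_congr {c d : UnitAddCircle → ℂ} (h : c =ᵐ[volume] d) : cen c =ᵐ[volume] cen d := by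
  filter_upwards [h] with s hs
  simp only [cen]
  rw [hs, integral_congr_ae h]

lemma Kf_congr {B C : ZZ → ℂ} (h : B =ᵐ[nu] C) (S : Set ℕ) (k : ℕ) :
    Kf S k B =ᵐ[nu] Kf S k C := by
  apply ae_nu.mpr
  intro a
  filter_upwards [cen_congr (Aop_congr h a.1 (a.2.1 - k))] with s hs
  simp only [Kf]
  rw [hs]

lemma Gf_congr {B C : ZZ → ℂ} (h : B =ᵐ[nu] C) (S : Set ℕ) :
    Gf S B =ᵐ[nu] Gf S C := by
  apply ae_nu.mpr
  intro a
  filter_upwards [cen_congr (Bop_congr h a.1 (a.2.1 + 1))] with s hs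
  simp only [Gf]
  rw [hs]

/-! ### pointwise bounds to integral bounds -/

lemma lint_le_of_pointwise {α ι : Type*} [MeasurableSpace α] {μ : Measure α} {m : ℕ}
    {f : α → ℂ} {g : ι → α → ℂ} (T : Finset ι) {C : ℝ} {w : ι → ℝ} (hC : 0 ≤ C)
    (hw : ∀ j, 0 ≤ w j) (hg : ∀ j ∈ T, AEStronglyMeasurable (g j) μ)
    (h : ∀ s, ‖f s‖ ^ m ≤ C * ∑ j ∈ T, w j * ‖g j s‖ ^ m) :
    ∫⁻ s, ‖f s‖ₑ ^ m ∂μ ≤
      ENNReal.ofReal C * ∑ j ∈ T, ENNReal.ofReal (w j) * ∫⁻ s, ‖g j s‖ₑ ^ m ∂μ := by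
  have h1 : ∀ s, ‖f s‖ₑ ^ m ≤ ENNReal.ofReal C * ∑ j ∈ T, ENNReal.ofReal (w j) * ‖g j s‖ₑ ^ m := by
    intro s
    have h2 := ENNReal.ofReal_le_ofReal (h s)
    rw [ENNReal.ofReal_mul hC, ENNReal.ofReal_sum_of_nonneg
      (fun i _ => mul_nonneg (hw i) (by positivity)), ENNReal.ofReal_pow (norm_nonneg _),
      ofReal_norm] at h2
    refine h2.trans (le_of_eq ?_)
    congr 1
    apply Finset.sum_congr rfl
    intro j _
    rw [ENNReal.ofReal_mul (hw j), ENNReal.ofReal_pow (norm_nonneg _), ofReal_norm]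
  refine (lintegral_mono h1).trans (le_of_eq ?_)
  rw [lintegral_const_mul' _ _ ENNReal.ofReal_ne_top, lintegral_finsetSum']
  · congr 1
    apply Finset.sum_congr rfl
    intro j _
    rw [lintegral_const_mul' _ _ ENNReal.ofReal_ne_top]
  · intro j hj
    exact ((hg j hj).enorm.pow_const m).const_mul _

lemma cen_lint (m : ℕ) (hm : 1 ≤ m) {c : UnitAddCircle → ℂ} (hc : AEStronglyMeasurable c volume) :
    ∫⁻ s, ‖cen c s‖ₑ ^ m ≤ 2 ^ m * ∫⁻ s, ‖c s‖ₑ ^ m := by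
  have hprob : IsProbabilityMeasure (volume : Measure UnitAddCircle) :=
    ⟨UnitAddCircle.measure_univ⟩
  have hm0 : (m : ℝ≥0∞) ≠ 0 := by
    simp only [ne_eq, Nat.cast_eq_zero]; omega
  have hm1 : (1 : ℝ≥0∞) ≤ m := by exact_mod_cast hm
  have hmr : (0 : ℝ) < m := by exact_mod_cast hm
  have key : ∀ g : UnitAddCircle → ℂ, eLpNorm g m volume ^ m = ∫⁻ s, ‖g s‖ₑ ^ m := by
    intro g
    rw [eLpNorm_eq_lintegral_rpow_enorm_toReal hm0 (ENNReal.natCast_ne_top m)]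
    simp only [ENNReal.toReal_natCast, ENNReal.rpow_natCast]
    rw [← ENNReal.rpow_natCast, ← ENNReal.rpow_mul, one_div, inv_mul_cancel₀ hmr.ne',
      ENNReal.rpow_one]
  rw [← key, ← key, ← mul_pow]
  gcongr
  have h1 : eLpNorm (cen c) m volume ≤ eLpNorm c m volume +
      eLpNorm (fun _ : UnitAddCircle => ∫ t, c t) m volume :=
    eLpNorm_sub_le hc aestronglyMeasurable_const hm1
  have h2 : eLpNorm (fun _ : UnitAddCircle => ∫ t, c t) m volume ≤ eLpNorm c m volume := by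
    rw [eLpNorm_const _ hm0 (NeZero.ne _), measure_univ, ENNReal.one_rpow, mul_one]
    calc ‖∫ t, c t‖ₑ ≤ ∫⁻ t, ‖c t‖ₑ := enorm_integral_le_lintegral_enorm _
      _ = eLpNorm c 1 volume := by rw [eLpNorm_one_eq_lintegral_enorm]
      _ ≤ eLpNorm c m volume := eLpNorm_le_eLpNorm_of_exponent_le hm1 hc
  calc _ ≤ eLpNorm c m volume + eLpNorm c m volume := h1.trans (by gcongr)
    _ = _ := (two_mul _).symm

/-! ### pointwise estimates for the analysis operators -/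

lemma Aop_sq_pt (n i : ℕ) (B : ZZ → ℂ) (s : UnitAddCircle) :
    ‖Aop n i B s‖ ^ 2 ≤ (((8 : ℝ) ^ n)⁻¹ * Q1 n i) ^ 2 *
      ∑ j ∈ Finset.range (numLev n), q (n, i, j) ^ 4 * ‖B (s, (n, i, j))‖ ^ 2 := by
  have h1 : ‖Aop n i B s‖ ≤ ((8 : ℝ) ^ n)⁻¹ *
      ∑ j ∈ Finset.range (numLev n), q (n, i, j) * (q (n, i, j) ^ 2 * ‖B (s, (n, i, j))‖) := by
    rw [Aop, norm_mul, Complex.norm_real, Real.norm_of_nonneg (by positivity)]
    gcongr
    refine (norm_sum_le _ _).trans (le_of_eq ?_)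
    apply Finset.sum_congr rfl
    intro j _
    have := q_pos (n, i, j)
    rw [norm_mul, Complex.norm_real, Real.norm_of_nonneg (by positivity)]
    ring
  have h2 : 0 ≤ ∑ j ∈ Finset.range (numLev n),
      q (n, i, j) * (q (n, i, j) ^ 2 * ‖B (s, (n, i, j))‖) :=
    Finset.sum_nonneg fun j _ => by have := q_pos (n, i, j); positivity
  calc ‖Aop n i B s‖ ^ 2 ≤ (((8 : ℝ) ^ n)⁻¹ *
      ∑ j ∈ Finset.range (numLev n), q (n, i, j) * (q (n, i, j) ^ 2 * ‖B (s, (n, i, j))‖)) ^ 2 := by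
        gcongr
    _ = (((8 : ℝ) ^ n)⁻¹) ^ 2 * (∑ j ∈ Finset.range (numLev n),
        q (n, i, j) * (q (n, i, j) ^ 2 * ‖B (s, (n, i, j))‖)) ^ 2 := by ring
    _ ≤ (((8 : ℝ) ^ n)⁻¹) ^ 2 * ((∑ j ∈ Finset.range (numLev n), q (n, i, j) ^ 2) *
        ∑ j ∈ Finset.range (numLev n), (q (n, i, j) ^ 2 * ‖B (s, (n, i, j))‖) ^ 2) := by
        gcongr
        exact Finset.sum_mul_sq_le_sq_mul_sq _ _ _
    _ ≤ (((8 : ℝ) ^ n)⁻¹) ^ 2 * (Q1 n i ^ 2 *
        ∑ j ∈ Finset.range (numLev n), (q (n, i, j) ^ 2 * ‖B (s, (n, i, j))‖) ^ 2) := by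
        gcongr
        exact sum_q_pow 2 (by norm_num) n i
    _ = _ := by
        rw [← mul_assoc, ← mul_pow]
        congr 1
        apply Finset.sum_congr rfl
        intro j _
        ring

lemma Bop_sq_pt (n i : ℕ) (B : ZZ → ℂ) (s : UnitAddCircle) :
    ‖Bop n i B s‖ ^ 2 ≤ (2 * (Q0 n i ^ 2)⁻¹) *
      ∑ j ∈ Finset.range (numLev n), q (n, i, j) ^ 4 * ‖B (s, (n, i, j))‖ ^ 2 := by
  have h8 : (((8 : ℝ) ^ n) ^ 3)⁻¹ ≤ 1 := inv_le_one_of_one_le₀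
    (one_le_pow₀ (one_le_pow₀ (by norm_num)))
  have h1 : ‖Bop n i B s‖ ≤
      ∑ j ∈ Finset.range (numLev n), (q (n, i, j))⁻¹ * (q (n, i, j) ^ 2 * ‖B (s, (n, i, j))‖) := by
    rw [Bop, norm_mul, Complex.norm_real, Real.norm_of_nonneg (by positivity)]
    calc _ ≤ 1 * ∑ j ∈ Finset.range (numLev n), (q (n, i, j))⁻¹ *
          (q (n, i, j) ^ 2 * ‖B (s, (n, i, j))‖) := by
          gcongr
          refine (norm_sum_le _ _).trans (le_of_eq ?_)
          apply Finset.sum_congr rfl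
          intro j _
          have := q_pos (n, i, j)
          rw [norm_mul, Complex.norm_real, Real.norm_of_nonneg (by positivity)]
          field_simp
      _ = _ := one_mul _
  have h2 : 0 ≤ ∑ j ∈ Finset.range (numLev n),
      (q (n, i, j))⁻¹ * (q (n, i, j) ^ 2 * ‖B (s, (n, i, j))‖) :=
    Finset.sum_nonneg fun j _ => by have := q_pos (n, i, j); positivity
  calc ‖Bop n i B s‖ ^ 2 ≤ (∑ j ∈ Finset.range (numLev n),
        (q (n, i, j))⁻¹ * (q (n, i, j) ^ 2 * ‖B (s, (n, i, j))‖)) ^ 2 := by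
        gcongr
    _ ≤ (∑ j ∈ Finset.range (numLev n), ((q (n, i, j))⁻¹) ^ 2) *
        ∑ j ∈ Finset.range (numLev n), (q (n, i, j) ^ 2 * ‖B (s, (n, i, j))‖) ^ 2 :=
        Finset.sum_mul_sq_le_sq_mul_sq _ _ _
    _ ≤ (2 * (Q0 n i ^ 2)⁻¹) *
        ∑ j ∈ Finset.range (numLev n), (q (n, i, j) ^ 2 * ‖B (s, (n, i, j))‖) ^ 2 := by
        gcongr
        simp_rw [inv_pow]
        exact sum_q_inv_pow 2 (by norm_num) n i
    _ = _ := by
        congr 1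
        apply Finset.sum_congr rfl
        intro j _
        ring

lemma Bop_four_pt (n i : ℕ) (B : ZZ → ℂ) (s : UnitAddCircle) :
    ‖Bop n i B s‖ ^ 4 ≤ 1 *
      ∑ j ∈ Finset.range (numLev n), q (n, i, j) ^ 4 * ‖B (s, (n, i, j))‖ ^ 4 := by
  have h1 : ‖Bop n i B s‖ ≤ (((8 : ℝ) ^ n) ^ 3)⁻¹ *
      ∑ j ∈ Finset.range (numLev n), q (n, i, j) * ‖B (s, (n, i, j))‖ := by
    rw [Bop, norm_mul, Complex.norm_real, Real.norm_of_nonneg (by positivity)]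
    gcongr
    refine (norm_sum_le _ _).trans (le_of_eq ?_)
    apply Finset.sum_congr rfl
    intro j _
    have := q_pos (n, i, j)
    rw [norm_mul, Complex.norm_real, Real.norm_of_nonneg (by positivity)]
  have hL : ((numLev n : ℕ) : ℝ) = ((8 : ℝ) ^ n) ^ 4 := by
    rw [numLev]; push_cast
    rw [← pow_mul, mul_comm n 4, pow_mul]; norm_num
  have h2 : (∑ j ∈ Finset.range (numLev n), q (n, i, j) * ‖B (s, (n, i, j))‖) ^ 4 ≤
      (numLev n : ℝ) ^ 3 * ∑ j ∈ Finset.range (numLev n), (q (n, i, j) * ‖B (s, (n, i, j))‖) ^ 4 := by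
    have h3 := sq_sum_le_card_mul_sum_sq (s := Finset.range (numLev n))
      (f := fun j => q (n, i, j) * ‖B (s, (n, i, j))‖)
    have h4 := sq_sum_le_card_mul_sum_sq (s := Finset.range (numLev n))
      (f := fun j => (q (n, i, j) * ‖B (s, (n, i, j))‖) ^ 2)
    rw [Finset.card_range] at h3 h4
    calc (∑ j ∈ Finset.range (numLev n), q (n, i, j) * ‖B (s, (n, i, j))‖) ^ 4
        = ((∑ j ∈ Finset.range (numLev n), q (n, i, j) * ‖B (s, (n, i, j))‖) ^ 2) ^ 2 := by ring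
      _ ≤ ((numLev n : ℝ) * ∑ j ∈ Finset.range (numLev n),
          (q (n, i, j) * ‖B (s, (n, i, j))‖) ^ 2) ^ 2 := by gcongr
      _ = (numLev n : ℝ) ^ 2 * (∑ j ∈ Finset.range (numLev n),
          (q (n, i, j) * ‖B (s, (n, i, j))‖) ^ 2) ^ 2 := by ring
      _ ≤ (numLev n : ℝ) ^ 2 * ((numLev n : ℝ) * ∑ j ∈ Finset.range (numLev n),
          ((q (n, i, j) * ‖B (s, (n, i, j))‖) ^ 2) ^ 2) := by gcongr
      _ = _ := by
          rw [← mul_assoc, ← pow_succ]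
          congr 1
          apply Finset.sum_congr rfl
          intro j _
          ring
  have h0 : 0 ≤ ∑ j ∈ Finset.range (numLev n), q (n, i, j) * ‖B (s, (n, i, j))‖ :=
    Finset.sum_nonneg fun j _ => by have := q_pos (n, i, j); positivity
  calc ‖Bop n i B s‖ ^ 4 ≤ ((((8 : ℝ) ^ n) ^ 3)⁻¹ *
        ∑ j ∈ Finset.range (numLev n), q (n, i, j) * ‖B (s, (n, i, j))‖) ^ 4 := by gcongr
    _ = (((8 : ℝ) ^ n) ^ 12)⁻¹ *
        (∑ j ∈ Finset.range (numLev n), q (n, i, j) * ‖B (s, (n, i, j))‖) ^ 4 := by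
        rw [mul_pow, inv_pow, ← pow_mul]
    _ ≤ (((8 : ℝ) ^ n) ^ 12)⁻¹ * ((numLev n : ℝ) ^ 3 *
        ∑ j ∈ Finset.range (numLev n), (q (n, i, j) * ‖B (s, (n, i, j))‖) ^ 4) := by gcongr
    _ = _ := by
        have e : (((8 : ℝ) ^ n) ^ 12)⁻¹ * (((8 : ℝ) ^ n) ^ 4) ^ 3 = 1 := by
          have e2 : (((8 : ℝ) ^ n) ^ 4) ^ 3 = ((8 : ℝ) ^ n) ^ 12 := by ring
          rw [e2]
          exact inv_mul_cancel₀ (by positivity)
        rw [hL, ← mul_assoc, e]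
        congr 1
        apply Finset.sum_congr rfl
        intro j _
        ring

end Pool.Agent.H21.NC
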