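import Pool.Agent.H21.NC.Kop2

/-!
# Function-level operators: integrated bounds
-/

open MeasureTheory ENNReal NNReal Filter Topology
open scoped InnerProductSpace

namespace Pool.Agent.H21.NC

lemma lintegral_nu3 (f : ZZ → ℝ≥0∞) :
    ∫⁻ z, f z ∂nu =
      ∑' n : ℕ, ∑' i : ℕ, ∑' j : ℕ, ENNReal.ofReal (q (n, i, j) ^ 4) * ∫⁻ s, f (s, (n, i, j)) := by
  rw [lintegral_nu, ENNReal.tsum_prod']
  apply tsum_congr
  intro n
  rw [ENNReal.tsum_prod']

/-- energy of a stage -/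
noncomputable def en (m : ℕ) (B : ZZ → ℂ) (n i : ℕ) : ℝ≥0∞ :=
  ∑ j ∈ Finset.range (numLev n), ENNReal.ofReal (q (n, i, j) ^ 4) * ∫⁻ s, ‖B (s, (n, i, j))‖ₑ ^ m

lemma sum_en_le (m : ℕ) (B : ZZ → ℂ) :
    ∑' n : ℕ, ∑' i : ℕ, en m B n i ≤ ∫⁻ z, ‖B z‖ₑ ^ m ∂nu := by
  rw [lintegral_nu3]
  gcongr with n i
  exact ENNReal.sum_le_tsum _

lemma lint_struct (m : ℕ) (hm : 1 ≤ m) {F : ZZ → ℂ} (c : ℕ → ℕ → UnitAddCircle → ℂ) (w : Lev → ℝ)
    (hw : ∀ a, 0 ≤ w a) (cond : ℕ → ℕ → Prop) [∀ n i, Decidable (cond n i)]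
    (hF : ∀ n i j s, F (s, (n, i, j)) =
      if cond n i ∧ j < numLev n then (w (n, i, j) : ℂ) * c n i s else 0) :
    ∫⁻ z, ‖F z‖ₑ ^ m ∂nu = ∑' n : ℕ, ∑' i : ℕ, if cond n i then
      ENNReal.ofReal (∑ j ∈ Finset.range (numLev n), q (n, i, j) ^ 4 * w (n, i, j) ^ m) *
        ∫⁻ s, ‖c n i s‖ₑ ^ m else 0 := by
  have hm0 : m ≠ 0 := by omega
  rw [lintegral_nu3]
  apply tsum_congr
  intro n
  apply tsum_congr
  intro i
  by_cases hc : cond n i
  · rw [if_pos hc, tsum_eq_sum (s := Finset.range (numLev n)), ENNReal.ofReal_sum_of_nonneg,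
      Finset.sum_mul]
    · apply Finset.sum_congr rfl
      intro j hj
      rw [Finset.mem_range] at hj
      have h1 : ∀ s, ‖F (s, (n, i, j))‖ₑ ^ m =
          ENNReal.ofReal (w (n, i, j) ^ m) * ‖c n i s‖ₑ ^ m := by
        intro s
        rw [hF, if_pos ⟨hc, hj⟩, enorm_mul, mul_pow, ← ofReal_norm (w (n, i, j) : ℂ),
          Complex.norm_real, Real.norm_of_nonneg (hw _), ENNReal.ofReal_pow (hw _)]
      simp_rw [h1]
      rw [lintegral_const_mul' _ _ ENNReal.ofReal_ne_top, ← mul_assoc, ← ENNReal.ofReal_mul]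
      have := q_pos (n, i, j)
      positivity
    · intro j _
      have := q_pos (n, i, j)
      have := hw (n, i, j)
      positivity
    · intro j hj
      rw [Finset.mem_range] at hj
      have h1 : ∀ s, ‖F (s, (n, i, j))‖ₑ ^ m = 0 := by
        intro s
        rw [hF, if_neg (fun h => hj h.2)]
        simp [hm0]
      simp_rw [h1]
      simp
  · rw [if_neg hc]
    have h1 : ∀ j s, ‖F (s, (n, i, j))‖ₑ ^ m = 0 := by
      intro j s
      rw [hF, if_neg (fun h => hc h.1)]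
      simp [hm0]
    simp_rw [h1]
    simp

lemma tsum_shift (k : ℕ) (f : ℕ → ℝ≥0∞) :
    ∑' i : ℕ, (if k ≤ i then f (i - k) else 0) = ∑' i, f i := by
  have h := (add_left_injective k : Function.Injective fun i : ℕ => i + k).tsum_eq
    (f := fun i : ℕ => if k ≤ i then f (i - k) else 0) (by
      intro i hi
      rw [Function.mem_support] at hi
      by_cases h : k ≤ i
      · exact ⟨i - k, by simp only; omega⟩
      · rw [if_neg h] at hi
        exact absurd rfl hi)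
  rw [← h]
  apply tsum_congr
  intro i
  rw [if_pos (by omega), Nat.add_sub_cancel]

/-- the ratio estimate -/
lemma ratio_le {n i i' : ℕ} (h : i' < i) : Q1 n i' * (Q0 n i)⁻¹ ≤ ((8 : ℝ) ^ n)⁻¹ := by
  have h1 := window n i i' h
  have h2 : Q1 n i' ≤ Q1 n i' ^ 3 := by
    have := one_le_Q1 n i'
    calc Q1 n i' = Q1 n i' ^ 1 := (pow_one _).symm
      _ ≤ Q1 n i' ^ 3 := pow_le_pow_right₀ this (by norm_num)
  have h3 : 0 < Q0 n i := Q0_pos n i
  rw [← div_eq_mul_inv, div_le_iff₀ h3, inv_mul_eq_div, le_div_iff₀ (by positivity)]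
  calc Q1 n i' * 8 ^ n ≤ Q1 n i' ^ 3 * 8 ^ n := by gcongr
    _ = 8 ^ n * Q1 n i' ^ 3 := mul_comm _ _
    _ ≤ Q0 n i := h1

/-- `L²` bound for the shift operators. -/
lemma Kf_L2 {B : ZZ → ℂ} (hB : AEStronglyMeasurable B nu) {S : Set ℕ} {m : ℕ}
    (hS : ∀ n ∈ S, m ≤ n) {k : ℕ} (hk : 1 ≤ k) :
    ∫⁻ z, ‖Kf S k B z‖ₑ ^ 2 ∂nu ≤
      ENNReal.ofReal (8 * (((8 : ℝ) ^ m)⁻¹) ^ 2) * ∫⁻ z, ‖B z‖ₑ ^ 2 ∂nu := by
  classical
  rw [lint_struct 2 (by norm_num) (F := Kf S k B) (fun n i => cen (Aop n (i - k) B))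
    (fun a => ((8 ^ a.1 * q a) ^ 3)⁻¹) (fun a => by have := q_pos a; positivity)
    (fun n i => n ∈ S ∧ k ≤ i ∧ i ≤ n)
    (fun n i j s => by
      simp only [Kf]
      by_cases h : n ∈ S ∧ k ≤ i ∧ i ≤ n ∧ j < numLev n
      · rw [if_pos h, if_pos ⟨⟨h.1, h.2.1, h.2.2.1⟩, h.2.2.2⟩]
      · rw [if_neg h, if_neg (fun h' => h ⟨h'.1.1, h'.1.2.1, h'.1.2.2, h'.2⟩)])]
  have hterm : ∀ n i, (if n ∈ S ∧ k ≤ i ∧ i ≤ n then
      ENNReal.ofReal (∑ j ∈ Finset.range (numLev n), q (n, i, j) ^ 4 *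
        (((8 ^ n * q (n, i, j)) ^ 3)⁻¹) ^ 2) * ∫⁻ s, ‖cen (Aop n (i - k) B) s‖ₑ ^ 2 else 0) ≤
      ENNReal.ofReal (8 * (((8 : ℝ) ^ m)⁻¹) ^ 2) * (if k ≤ i then en 2 B n (i - k) else 0) := by
    intro n i
    split_ifs with h1 h2 h2
    · -- main case
      have hlt : i - k < i := by omega
      have h8 : (1 : ℝ) ≤ 8 ^ n := one_le_pow₀ (by norm_num)
      have hs : ∑ j ∈ Finset.range (numLev n), q (n, i, j) ^ 4 *
          (((8 ^ n * q (n, i, j)) ^ 3)⁻¹) ^ 2 ≤ 2 * (Q0 n i ^ 2)⁻¹ := by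
        refine le_trans ?_ (sum_q_inv_pow 2 (by norm_num) n i)
        apply Finset.sum_le_sum
        intro j _
        have hq := q_pos (n, i, j)
        have e : q (n, i, j) ^ 4 * (((8 ^ n * q (n, i, j)) ^ 3)⁻¹) ^ 2 =
            (((8 : ℝ) ^ n) ^ 6)⁻¹ * (q (n, i, j) ^ 2)⁻¹ := by
          field_simp
        rw [e]
        calc (((8 : ℝ) ^ n) ^ 6)⁻¹ * (q (n, i, j) ^ 2)⁻¹ ≤ 1 * (q (n, i, j) ^ 2)⁻¹ := by
              gcongr
              exact inv_le_one_of_one_le₀ (one_le_pow₀ h8)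
          _ = _ := one_mul _
      have hA := lint_le_of_pointwise (m := 2) (f := Aop n (i - k) B)
        (g := fun j s => B (s, (n, i - k, j))) (μ := volume)
        (Finset.range (numLev n)) (C := (((8 : ℝ) ^ n)⁻¹ * Q1 n (i - k)) ^ 2)
        (w := fun j => q (n, i - k, j) ^ 4) (by positivity)
        (fun j => by have := q_pos (n, i - k, j); positivity)
        (fun j _ => aesm_nu.mp hB _) (Aop_sq_pt n (i - k) B)
      have hcen := cen_lint 2 (by norm_num) (Aop_aesm hB n (i - k))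
      calc ENNReal.ofReal (∑ j ∈ Finset.range (numLev n), q (n, i, j) ^ 4 *
            (((8 ^ n * q (n, i, j)) ^ 3)⁻¹) ^ 2) * ∫⁻ s, ‖cen (Aop n (i - k) B) s‖ₑ ^ 2
          ≤ ENNReal.ofReal (2 * (Q0 n i ^ 2)⁻¹) * (2 ^ 2 *
            (ENNReal.ofReal ((((8 : ℝ) ^ n)⁻¹ * Q1 n (i - k)) ^ 2) * en 2 B n (i - k))) := by
            gcongr
            refine hcen.trans ?_
            gcongr
            exact hA
        _ = ENNReal.ofReal (8 * (((8 : ℝ) ^ n)⁻¹) ^ 2 * (Q1 n (i - k) * (Q0 n i)⁻¹) ^ 2) *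
            en 2 B n (i - k) := by
            have e4 : (2 : ℝ≥0∞) ^ 2 = ENNReal.ofReal 4 := by norm_num
            rw [e4, ← mul_assoc, ← mul_assoc, ← ENNReal.ofReal_mul (by positivity),
              ← ENNReal.ofReal_mul (by positivity)]
            congr 2
            have := Q0_pos n i
            field_simp
            ring
        _ ≤ ENNReal.ofReal (8 * (((8 : ℝ) ^ m)⁻¹) ^ 2) * en 2 B n (i - k) := by
            refine mul_le_mul' (ENNReal.ofReal_le_ofReal ?_) le_rfl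
            have h5 : (((8 : ℝ) ^ n)⁻¹) ≤ ((8 : ℝ) ^ m)⁻¹ := by
              apply inv_anti₀ (by positivity)
              exact pow_le_pow_right₀ (by norm_num) (hS n h1.1)
            have h6 : Q1 n (i - k) * (Q0 n i)⁻¹ ≤ 1 :=
              (ratio_le hlt).trans (inv_le_one_of_one_le₀ h8)
            have h7 : 0 ≤ Q1 n (i - k) * (Q0 n i)⁻¹ := by
              have := Q0_pos n i
              have := Q1_pos n (i - k)
              positivity
            calc 8 * (((8 : ℝ) ^ n)⁻¹) ^ 2 * (Q1 n (i - k) * (Q0 n i)⁻¹) ^ 2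
                ≤ 8 * (((8 : ℝ) ^ m)⁻¹) ^ 2 * 1 ^ 2 := by gcongr
              _ = _ := by ring
    · exact absurd h1.2.1 h2
    · exact zero_le
    · exact zero_le
  calc _ ≤ ∑' n : ℕ, ∑' i : ℕ, ENNReal.ofReal (8 * (((8 : ℝ) ^ m)⁻¹) ^ 2) *
        (if k ≤ i then en 2 B n (i - k) else 0) := by
        gcongr with n i
        exact hterm n i
    _ = ENNReal.ofReal (8 * (((8 : ℝ) ^ m)⁻¹) ^ 2) * ∑' n : ℕ, ∑' i : ℕ, en 2 B n i := by
        rw [← ENNReal.tsum_mul_left]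
        apply tsum_congr
        intro n
        rw [ENNReal.tsum_mul_left, tsum_shift k (fun i => en 2 B n i)]
    _ ≤ _ := by
        gcongr
        exact sum_en_le 2 B

/-- sup bound for the shift operators -/
lemma Kf_sup {B : ZZ → ℂ} {C : ℝ} (hC : 0 ≤ C) (hBC : ∀ᵐ z ∂nu, ‖B z‖ ≤ C) {S : Set ℕ} {m : ℕ}
    (hS : ∀ n ∈ S, m ≤ n) {k : ℕ} (hk : 1 ≤ k) :
    ∀ᵐ z ∂nu, ‖Kf S k B z‖ ≤ 2 * ((8 : ℝ) ^ m)⁻¹ * C := by
  have hprob : IsProbabilityMeasure (volume : Measure UnitAddCircle) :=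
    ⟨UnitAddCircle.measure_univ⟩
  have h1 := ae_nu.mp hBC
  apply ae_nu.mpr
  rintro ⟨n, i, j⟩
  by_cases h : n ∈ S ∧ k ≤ i ∧ i ≤ n ∧ j < numLev n
  · have h8 : (1 : ℝ) ≤ 8 ^ n := one_le_pow₀ (by norm_num)
    have hAb : ∀ᵐ s : UnitAddCircle, ‖Aop n (i - k) B s‖ ≤ Q1 n (i - k) ^ 3 * C := by
      have h2 : ∀ᵐ s : UnitAddCircle, ∀ j, ‖B (s, (n, i - k, j))‖ ≤ C :=
        ae_all_iff.mpr fun j => h1 (n, i - k, j)
      filter_upwards [h2] with s hs
      rw [Aop, norm_mul, Complex.norm_real, Real.norm_of_nonneg (by positivity)]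
      calc _ ≤ 1 * ∑ j ∈ Finset.range (numLev n), q (n, i - k, j) ^ 3 * C := by
            gcongr
            · exact inv_le_one_of_one_le₀ h8
            · refine (norm_sum_le _ _).trans ?_
              apply Finset.sum_le_sum
              intro j _
              have := q_pos (n, i - k, j)
              rw [norm_mul, Complex.norm_real, Real.norm_of_nonneg (by positivity)]
              gcongr
              exact hs j
        _ = (∑ j ∈ Finset.range (numLev n), q (n, i - k, j) ^ 3) * C := by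
            rw [one_mul, Finset.sum_mul]
        _ ≤ _ := by
            gcongr
            exact sum_q_pow 3 (by norm_num) n (i - k)
    have hint : ‖∫ t, Aop n (i - k) B t‖ ≤ Q1 n (i - k) ^ 3 * C := by
      have := norm_integral_le_of_norm_le_const hAb
      simpa using this
    filter_upwards [hAb] with s hs
    simp only [Kf]
    rw [if_pos h, norm_mul, Complex.norm_real]
    have hq := q_pos (n, i, j)
    have hq1 := one_le_q (n, i, j)
    rw [Real.norm_of_nonneg (by positivity)]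
    have hcen : ‖cen (Aop n (i - k) B) s‖ ≤ 2 * (Q1 n (i - k) ^ 3 * C) := by
      rw [cen]
      refine (norm_sub_le _ _).trans ?_
      linarith
    have hQq : Q0 n i ≤ q (n, i, j) := by
      rw [Q0, q]
      exact pow_le_pow_right₀ (by norm_num) (by simp)
    have hw := window n i (i - k) (by omega)
    have hmn : ((8 : ℝ) ^ n)⁻¹ ≤ ((8 : ℝ) ^ m)⁻¹ := by
      apply inv_anti₀ (by positivity)
      exact pow_le_pow_right₀ (by norm_num) (hS n h.1)
    have hinv : ((8 ^ n * q (n, i, j)) ^ 3)⁻¹ * Q1 n (i - k) ^ 3 ≤ ((8 : ℝ) ^ n)⁻¹ := by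
      rw [inv_mul_eq_div, div_le_iff₀ (by positivity), inv_mul_eq_div,
        le_div_iff₀ (by positivity)]
      calc Q1 n (i - k) ^ 3 * 8 ^ n = 8 ^ n * Q1 n (i - k) ^ 3 := mul_comm _ _
        _ ≤ Q0 n i := hw
        _ ≤ q (n, i, j) := hQq
        _ = (1 * q (n, i, j)) ^ 1 := by rw [one_mul, pow_one]
        _ ≤ (8 ^ n * q (n, i, j)) ^ 1 := by gcongr
        _ ≤ (8 ^ n * q (n, i, j)) ^ 3 := by
            apply pow_le_pow_right₀ _ (by norm_num)
            calc (1 : ℝ) = 1 * 1 := by ring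
              _ ≤ 8 ^ n * q (n, i, j) := by gcongr
    calc ((8 ^ n * q (n, i, j)) ^ 3)⁻¹ * ‖cen (Aop n (i - k) B) s‖
        ≤ ((8 ^ n * q (n, i, j)) ^ 3)⁻¹ * (2 * (Q1 n (i - k) ^ 3 * C)) := by gcongr
      _ = 2 * (((8 ^ n * q (n, i, j)) ^ 3)⁻¹ * Q1 n (i - k) ^ 3) * C := by ring
      _ ≤ 2 * ((8 : ℝ) ^ n)⁻¹ * C := by gcongr
      _ ≤ 2 * ((8 : ℝ) ^ m)⁻¹ * C := by gcongr
  · filter_upwards with s
    simp only [Kf]
    rw [if_neg h, norm_zero]
    positivity

/-- `L⁴` bound for the dual operator -/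
lemma Gf_L4 {B : ZZ → ℂ} (hB : AEStronglyMeasurable B nu) (S : Set ℕ) :
    ∫⁻ z, ‖Gf S B z‖ₑ ^ 4 ∂nu ≤ 16 * ∫⁻ z, ‖B z‖ₑ ^ 4 ∂nu := by
  classical
  rw [lint_struct 4 (by norm_num) (F := Gf S B) (fun n i => cen (Bop n (i + 1) B))
    (fun a => (8 ^ a.1 * q a)⁻¹) (fun a => by have := q_pos a; positivity)
    (fun n i => n ∈ S ∧ i + 1 ≤ n)
    (fun n i j s => by
      simp only [Gf]
      by_cases h : n ∈ S ∧ i + 1 ≤ n ∧ j < numLev n
      · rw [if_pos h, if_pos ⟨⟨h.1, h.2.1⟩, h.2.2⟩]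
      · rw [if_neg h, if_neg (fun h' => h ⟨h'.1.1, h'.1.2, h'.2⟩)])]
  have hterm : ∀ n i, (if n ∈ S ∧ i + 1 ≤ n then
      ENNReal.ofReal (∑ j ∈ Finset.range (numLev n), q (n, i, j) ^ 4 *
        ((8 ^ n * q (n, i, j))⁻¹) ^ 4) * ∫⁻ s, ‖cen (Bop n (i + 1) B) s‖ₑ ^ 4 else 0) ≤
      16 * en 4 B n (i + 1) := by
    intro n i
    split_ifs with h1
    · have hs : ∑ j ∈ Finset.range (numLev n), q (n, i, j) ^ 4 *
          ((8 ^ n * q (n, i, j))⁻¹) ^ 4 = 1 := by
        have e : ∀ j ∈ Finset.range (numLev n), q (n, i, j) ^ 4 *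
            ((8 ^ n * q (n, i, j))⁻¹) ^ 4 = (((8 : ℝ) ^ n) ^ 4)⁻¹ := by
          intro j _
          have hq := q_pos (n, i, j)
          field_simp
        rw [Finset.sum_congr rfl e, Finset.sum_const, Finset.card_range, nsmul_eq_mul]
        have hL : ((numLev n : ℕ) : ℝ) = ((8 : ℝ) ^ n) ^ 4 := by
          rw [numLev]; push_cast
          rw [← pow_mul, mul_comm n 4, pow_mul]; norm_num
        rw [hL]
        exact mul_inv_cancel₀ (by positivity)
      have hA := lint_le_of_pointwise (m := 4) (f := Bop n (i + 1) B)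
        (g := fun j s => B (s, (n, i + 1, j))) (μ := volume)
        (Finset.range (numLev n)) (C := 1)
        (w := fun j => q (n, i + 1, j) ^ 4) (by positivity)
        (fun j => by have := q_pos (n, i + 1, j); positivity)
        (fun j _ => aesm_nu.mp hB _) (Bop_four_pt n (i + 1) B)
      rw [ENNReal.ofReal_one, one_mul] at hA
      have hcen := cen_lint 4 (by norm_num) (Bop_aesm hB n (i + 1))
      rw [hs, ENNReal.ofReal_one, one_mul]
      have e16 : (2 : ℝ≥0∞) ^ 4 = 16 := by norm_num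
      rw [e16] at hcen
      refine hcen.trans ?_
      gcongr
      exact hA
    · exact zero_le
  calc _ ≤ ∑' n : ℕ, ∑' i : ℕ, 16 * en 4 B n (i + 1) := by
        gcongr with n i
        exact hterm n i
    _ = 16 * ∑' n : ℕ, ∑' i : ℕ, en 4 B n (i + 1) := by
        rw [← ENNReal.tsum_mul_left]
        apply tsum_congr
        intro n
        rw [ENNReal.tsum_mul_left]
    _ ≤ 16 * ∑' n : ℕ, ∑' i : ℕ, en 4 B n i := by
        refine mul_le_mul' le_rfl (ENNReal.tsum_le_tsum fun n => ?_)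
        exact ENNReal.tsum_comp_le_tsum_of_injective (add_left_injective 1) (fun i => en 4 B n i)
    _ ≤ _ := by
        gcongr
        exact sum_en_le 4 B

/-- `L²` bound for the dual operator -/
lemma Gf_L2 {B : ZZ → ℂ} (hB : AEStronglyMeasurable B nu) (S : Set ℕ) :
    ∫⁻ z, ‖Gf S B z‖ₑ ^ 2 ∂nu ≤ 8 * ∫⁻ z, ‖B z‖ₑ ^ 2 ∂nu := by
  classical
  rw [lint_struct 2 (by norm_num) (F := Gf S B) (fun n i => cen (Bop n (i + 1) B))
    (fun a => (8 ^ a.1 * q a)⁻¹) (fun a => by have := q_pos a; positivity)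
    (fun n i => n ∈ S ∧ i + 1 ≤ n)
    (fun n i j s => by
      simp only [Gf]
      by_cases h : n ∈ S ∧ i + 1 ≤ n ∧ j < numLev n
      · rw [if_pos h, if_pos ⟨⟨h.1, h.2.1⟩, h.2.2⟩]
      · rw [if_neg h, if_neg (fun h' => h ⟨h'.1.1, h'.1.2, h'.2⟩)])]
  have hterm : ∀ n i, (if n ∈ S ∧ i + 1 ≤ n then
      ENNReal.ofReal (∑ j ∈ Finset.range (numLev n), q (n, i, j) ^ 4 *
        ((8 ^ n * q (n, i, j))⁻¹) ^ 2) * ∫⁻ s, ‖cen (Bop n (i + 1) B) s‖ₑ ^ 2 else 0) ≤
      8 * en 2 B n (i + 1) := by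
    intro n i
    split_ifs with h1
    · have h8 : (1 : ℝ) ≤ 8 ^ n := one_le_pow₀ (by norm_num)
      have hs : ∑ j ∈ Finset.range (numLev n), q (n, i, j) ^ 4 *
          ((8 ^ n * q (n, i, j))⁻¹) ^ 2 ≤ Q1 n i ^ 2 := by
        refine le_trans ?_ (sum_q_pow 2 (by norm_num) n i)
        apply Finset.sum_le_sum
        intro j _
        have hq := q_pos (n, i, j)
        have e : q (n, i, j) ^ 4 * ((8 ^ n * q (n, i, j))⁻¹) ^ 2 =
            (((8 : ℝ) ^ n) ^ 2)⁻¹ * q (n, i, j) ^ 2 := by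
          field_simp
        rw [e]
        calc (((8 : ℝ) ^ n) ^ 2)⁻¹ * q (n, i, j) ^ 2 ≤ 1 * q (n, i, j) ^ 2 := by
              gcongr
              exact inv_le_one_of_one_le₀ (one_le_pow₀ h8)
          _ = _ := one_mul _
      have hA := lint_le_of_pointwise (m := 2) (f := Bop n (i + 1) B)
        (g := fun j s => B (s, (n, i + 1, j))) (μ := volume)
        (Finset.range (numLev n)) (C := 2 * (Q0 n (i + 1) ^ 2)⁻¹)
        (w := fun j => q (n, i + 1, j) ^ 4) (by have := Q0_pos n (i + 1); positivity)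
        (fun j => by have := q_pos (n, i + 1, j); positivity)
        (fun j _ => aesm_nu.mp hB _) (Bop_sq_pt n (i + 1) B)
      have hcen := cen_lint 2 (by norm_num) (Bop_aesm hB n (i + 1))
      calc ENNReal.ofReal (∑ j ∈ Finset.range (numLev n), q (n, i, j) ^ 4 *
            ((8 ^ n * q (n, i, j))⁻¹) ^ 2) * ∫⁻ s, ‖cen (Bop n (i + 1) B) s‖ₑ ^ 2
          ≤ ENNReal.ofReal (Q1 n i ^ 2) * (2 ^ 2 *
            (ENNReal.ofReal (2 * (Q0 n (i + 1) ^ 2)⁻¹) * en 2 B n (i + 1))) := by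
            gcongr
            refine hcen.trans ?_
            gcongr
            exact hA
        _ = ENNReal.ofReal (8 * (Q1 n i * (Q0 n (i + 1))⁻¹) ^ 2) * en 2 B n (i + 1) := by
            have e4 : (2 : ℝ≥0∞) ^ 2 = ENNReal.ofReal 4 := by norm_num
            rw [e4, ← mul_assoc, ← mul_assoc, ← ENNReal.ofReal_mul (by positivity),
              ← ENNReal.ofReal_mul (by positivity)]
            congr 2
            have := Q0_pos n (i + 1)
            field_simp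
            ring
        _ ≤ 8 * en 2 B n (i + 1) := by
            gcongr
            have h6 : Q1 n i * (Q0 n (i + 1))⁻¹ ≤ 1 :=
              (ratio_le (Nat.lt_succ_self i)).trans (inv_le_one_of_one_le₀ h8)
            have h7 : 0 ≤ Q1 n i * (Q0 n (i + 1))⁻¹ := by
              have := Q0_pos n (i + 1)
              have := Q1_pos n i
              positivity
            have e8 : (8 : ℝ≥0∞) = ENNReal.ofReal 8 := by norm_num
            rw [e8]
            apply ENNReal.ofReal_le_ofReal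
            calc 8 * (Q1 n i * (Q0 n (i + 1))⁻¹) ^ 2 ≤ 8 * 1 ^ 2 := by gcongr
              _ = _ := by ring
    · exact zero_le
  calc _ ≤ ∑' n : ℕ, ∑' i : ℕ, 8 * en 2 B n (i + 1) := by
        gcongr with n i
        exact hterm n i
    _ = 8 * ∑' n : ℕ, ∑' i : ℕ, en 2 B n (i + 1) := by
        rw [← ENNReal.tsum_mul_left]
        apply tsum_congr
        intro n
        rw [ENNReal.tsum_mul_left]
    _ ≤ 8 * ∑' n : ℕ, ∑' i : ℕ, en 2 B n i := by
        refine mul_le_mul' le_rfl (ENNReal.tsum_le_tsum fun n => ?_)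
        exact ENNReal.tsum_comp_le_tsum_of_injective (add_left_injective 1) (fun i => en 2 B n i)
    _ ≤ _ := by
        gcongr
        exact sum_en_le 2 B

end Pool.Agent.H21.NC
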