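import Pool.Agent.H21.NC.Kop3

/-!
# Function-level operators: algebra, duality, flow
-/

open MeasureTheory ENNReal NNReal Filter Topology
open scoped InnerProductSpace

namespace Pool.Agent.H21.NC

instance instProbCircle : IsProbabilityMeasure (volume : Measure UnitAddCircle) :=
  ⟨UnitAddCircle.measure_univ⟩

/-! ### membership -/

lemma memLp_two_iff_lint {α : Type*} [MeasurableSpace α] {μ : Measure α} {f : α → ℂ} :
    MemLp f 2 μ ↔ AEStronglyMeasurable f μ ∧ ∫⁻ x, ‖f x‖ₑ ^ 2 ∂μ < ∞ := by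
  have h : eLpNorm f 2 μ < ∞ ↔ ∫⁻ x, ‖f x‖ₑ ^ 2 ∂μ < ∞ := by
    rw [eLpNorm_lt_top_iff_lintegral_rpow_enorm_lt_top (by norm_num) (by norm_num)]
    simp
  rw [MemLp, h]

lemma memLp_level {B : ZZ → ℂ} (hB : MemLp B 2 nu) (a : Lev) :
    MemLp (fun s => B (s, a)) 2 volume := by
  rw [memLp_two_iff_lint] at hB ⊢
  refine ⟨aesm_nu.mp hB.1 a, ?_⟩
  have h1 : ENNReal.ofReal (q a ^ 4) * ∫⁻ s, ‖B (s, a)‖ₑ ^ 2 ≤ ∫⁻ z, ‖B z‖ₑ ^ 2 ∂nu := by
    rw [lintegral_nu]
    exact ENNReal.le_tsum (f := fun a => ENNReal.ofReal (q a ^ 4) * ∫⁻ s, ‖B (s, a)‖ₑ ^ 2) a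
  by_contra h2
  rw [not_lt, top_le_iff] at h2
  rw [h2, ENNReal.mul_top (ofReal_q_ne a), top_le_iff] at h1
  exact hB.2.ne h1

lemma Kf_memLp {B : ZZ → ℂ} (hB : MemLp B 2 nu) (S : Set ℕ) {k : ℕ} (hk : 1 ≤ k) :
    MemLp (Kf S k B) 2 nu := by
  rw [memLp_two_iff_lint] at hB ⊢
  refine ⟨Kf_aesm hB.1 S k, ?_⟩
  refine lt_of_le_of_lt (Kf_L2 hB.1 (m := 0) (fun _ _ => Nat.zero_le _) hk) ?_
  exact ENNReal.mul_lt_top ENNReal.ofReal_lt_top hB.2

lemma Gf_memLp {B : ZZ → ℂ} (hB : MemLp B 2 nu) (S : Set ℕ) : MemLp (Gf S B) 2 nu := by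
  rw [memLp_two_iff_lint] at hB ⊢
  refine ⟨Gf_aesm hB.1 S, ?_⟩
  refine lt_of_le_of_lt (Gf_L2 hB.1 S) ?_
  exact ENNReal.mul_lt_top (by norm_num) hB.2

lemma Kf_good {B : ZZ → ℂ} (hB : MemLp B 2 nu) {C : ℝ} (hC : 0 ≤ C)
    (hBC : ∀ᵐ z ∂nu, ‖B z‖ ≤ C) (S : Set ℕ) {k : ℕ} (hk : 1 ≤ k) : Good nu (Kf S k B) :=
  ⟨Kf_memLp hB S hk, memLp_top_of_bound (Kf_aesm hB.1 S k) _
    (Kf_sup hC hBC (m := 0) (fun _ _ => Nat.zero_le _) hk)⟩

lemma Aop_memLp {B : ZZ → ℂ} (hB : MemLp B 2 nu) (n i : ℕ) : MemLp (Aop n i B) 2 volume := by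
  unfold Aop
  apply MemLp.const_mul
  apply memLp_finsetSum
  intro j _
  exact (memLp_level hB _).const_mul _

lemma Bop_memLp {B : ZZ → ℂ} (hB : MemLp B 2 nu) (n i : ℕ) : MemLp (Bop n i B) 2 volume := by
  unfold Bop
  apply MemLp.const_mul
  apply memLp_finsetSum
  intro j _
  exact (memLp_level hB _).const_mul _

/-! ### linearity -/

lemma Aop_add (n i : ℕ) (B C : ZZ → ℂ) (s : UnitAddCircle) :
    Aop n i (fun z => B z + C z) s = Aop n i B s + Aop n i C s := by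
  simp only [Aop]
  rw [← mul_add, ← Finset.sum_add_distrib]
  congr 1
  exact Finset.sum_congr rfl fun j _ => mul_add _ _ _

lemma Aop_smul (n i : ℕ) (c : ℂ) (B : ZZ → ℂ) (s : UnitAddCircle) :
    Aop n i (fun z => c * B z) s = c * Aop n i B s := by
  simp only [Aop, Finset.mul_sum]
  exact Finset.sum_congr rfl fun j _ => by ring

lemma cen_add {c d : UnitAddCircle → ℂ} (hc : Integrable c) (hd : Integrable d)
    (s : UnitAddCircle) : cen (fun s => c s + d s) s = cen c s + cen d s := by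
  simp only [cen]
  rw [integral_add hc hd]
  ring

lemma cen_smul (a : ℂ) (c : UnitAddCircle → ℂ) (s : UnitAddCircle) :
    cen (fun s => a * c s) s = a * cen c s := by
  simp only [cen]
  rw [integral_const_mul]
  ring

lemma Kf_add {B C : ZZ → ℂ} (hB : MemLp B 2 nu) (hC : MemLp C 2 nu) (S : Set ℕ) (k : ℕ) (z : ZZ) :
    Kf S k (fun z => B z + C z) z = Kf S k B z + Kf S k C z := by
  simp only [Kf]
  split_ifs with h
  · have h1 : Aop z.2.1 (z.2.2.1 - k) (fun z => B z + C z) =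
        fun s => Aop z.2.1 (z.2.2.1 - k) B s + Aop z.2.1 (z.2.2.1 - k) C s := by
      ext s; exact Aop_add _ _ _ _ _
    rw [h1, cen_add ((Aop_memLp hB _ _).integrable (by norm_num))
      ((Aop_memLp hC _ _).integrable (by norm_num)), mul_add]
  · simp

lemma Kf_smul (c : ℂ) (B : ZZ → ℂ) (S : Set ℕ) (k : ℕ) (z : ZZ) :
    Kf S k (fun z => c * B z) z = c * Kf S k B z := by
  simp only [Kf]
  split_ifs with h
  · have h1 : Aop z.2.1 (z.2.2.1 - k) (fun z => c * B z) =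
        fun s => c * Aop z.2.1 (z.2.2.1 - k) B s := by
      ext s; exact Aop_smul _ _ _ _ _
    rw [h1, cen_smul]
    ring
  · simp

/-! ### composition -/

lemma integral_cen (c : UnitAddCircle → ℂ) : ∫ s, cen c s = 0 := by
  by_cases h : Integrable c
  · simp only [cen]
    rw [integral_sub h (integrable_const _), integral_const]
    simp
  · have : cen c = c := by
      ext s; simp only [cen]; rw [integral_undef h, sub_zero]
    rw [this, integral_undef h]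

lemma cen_cen (c : UnitAddCircle → ℂ) : cen (cen c) = cen c := by
  ext s
  rw [cen, integral_cen, sub_zero]

lemma cen_zero : cen (fun _ => 0) = fun _ => 0 := by
  ext s; simp [cen]

lemma numLev_cast (n : ℕ) : ((numLev n : ℕ) : ℝ) = ((8 : ℝ) ^ n) ^ 4 := by
  rw [numLev]; push_cast
  rw [← pow_mul, mul_comm n 4, pow_mul]; norm_num

lemma Aop_Kf (S : Set ℕ) (k : ℕ) (B : ZZ → ℂ) (n i : ℕ) :
    Aop n i (Kf S k B) = fun s => open Classical in
      if n ∈ S ∧ k ≤ i ∧ i ≤ n then cen (Aop n (i - k) B) s else 0 := by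
  classical
  ext s
  simp only [Aop]
  by_cases h : n ∈ S ∧ k ≤ i ∧ i ≤ n
  · rw [if_pos h]
    have h1 : ∀ j ∈ Finset.range (numLev n),
        ((q (n, i, j) ^ 3 : ℝ) : ℂ) * Kf S k B (s, (n, i, j)) =
        (((((8 : ℝ) ^ n) ^ 3)⁻¹ : ℝ) : ℂ) * cen (Aop n (i - k) B) s := by
      intro j hj
      rw [Finset.mem_range] at hj
      simp only [Kf]
      rw [if_pos ⟨h.1, h.2.1, h.2.2, hj⟩, ← mul_assoc, ← Complex.ofReal_mul]
      congr 2
      have := q_pos (n, i, j)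
      field_simp
    rw [Finset.sum_congr rfl h1, Finset.sum_const, Finset.card_range, nsmul_eq_mul, ← mul_assoc,
      ← mul_assoc, ← Complex.ofReal_natCast, numLev_cast, ← Complex.ofReal_mul,
      ← Complex.ofReal_mul]
    have : (((8 : ℝ) ^ n)⁻¹ * ((8 : ℝ) ^ n) ^ 4 * (((8 : ℝ) ^ n) ^ 3)⁻¹) = 1 := by
      field_simp
    rw [this, Complex.ofReal_one, one_mul]
  · rw [if_neg h]
    have h1 : ∀ j ∈ Finset.range (numLev n),
        ((q (n, i, j) ^ 3 : ℝ) : ℂ) * Kf S k B (s, (n, i, j)) = 0 := by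
      intro j _
      simp only [Kf]
      rw [if_neg (fun h' => h ⟨h'.1, h'.2.1, h'.2.2.1⟩), mul_zero]
    rw [Finset.sum_congr rfl h1]
    simp

lemma Kf_comp (S S' : Set ℕ) (k : ℕ) (B : ZZ → ℂ) (z : ZZ) :
    Kf S 1 (Kf S' k B) z = Kf (S ∩ S') (k + 1) B z := by
  classical
  obtain ⟨s, n, i, j⟩ := z
  simp only [Kf]
  by_cases h : n ∈ S ∧ 1 ≤ i ∧ i ≤ n ∧ j < numLev n
  · rw [if_pos h]
    by_cases h' : n ∈ S' ∧ k ≤ i - 1
    · rw [if_pos ⟨⟨h.1, h'.1⟩, by omega, h.2.2.1, h.2.2.2⟩]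
      congr 1
      have : Aop n (i - 1) (Kf S' k B) = cen (Aop n (i - (k + 1)) B) := by
        rw [Aop_Kf]
        ext t
        rw [if_pos ⟨h'.1, h'.2, by omega⟩]
        congr 2
        omega
      have h2 : (fun z => Kf S' k B z) = Kf S' k B := rfl
      change cen (Aop n (i - 1) (Kf S' k B)) s = _
      rw [this, cen_cen]
    · rw [if_neg (by
        rintro ⟨⟨_, h2⟩, h3, _⟩
        exact h' ⟨h2, by omega⟩)]
      have : Aop n (i - 1) (Kf S' k B) = fun _ => 0 := by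
        rw [Aop_Kf]
        ext t
        rw [if_neg (fun h3 => h' ⟨h3.1, h3.2.1⟩)]
      change _ * cen (Aop n (i - 1) (Kf S' k B)) s = _
      rw [this, cen_zero, mul_zero]
  · rw [if_neg h, if_neg (by
      rintro ⟨⟨h1, _⟩, h3, h4, h5⟩
      exact h ⟨h1, by omega, h4, h5⟩)]

lemma Kf_zero_of_lt (m : ℕ) (B : ZZ → ℂ) (z : ZZ) : Kf {n | n < m} (m + 1) B z = 0 := by
  simp only [Kf]
  rw [if_neg]
  rintro ⟨h1, h2, h3, _⟩
  simp only [Set.mem_setOf_eq] at h1
  omega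

lemma Kf_union {S S' : Set ℕ} (h : Disjoint S S') (k : ℕ) (B : ZZ → ℂ) (z : ZZ) :
    Kf (S ∪ S') k B z = Kf S k B z + Kf S' k B z := by
  simp only [Kf]
  rw [Set.disjoint_left] at h
  by_cases h1 : z.2.1 ∈ S
  · have h2 : z.2.1 ∉ S' := h h1
    simp [h1, h2]
  · by_cases h2 : z.2.1 ∈ S'
    · simp [h1, h2]
    · simp [h1, h2]

lemma Kf_empty (k : ℕ) (B : ZZ → ℂ) (z : ZZ) : Kf ∅ k B z = 0 := by
  simp [Kf]

/-! ### flow covariance -/

lemma Aop_phi (t : ℝ) (n i : ℕ) (B : ZZ → ℂ) (s : UnitAddCircle) :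
    Aop n i (fun z => B (phi t z)) s = Aop n i B (s + ((2 ^ n * t : ℝ) : UnitAddCircle)) := rfl

lemma cen_shift (c : UnitAddCircle → ℂ) (x s : UnitAddCircle) :
    cen (fun s => c (s + x)) s = cen c (s + x) := by
  simp only [cen]
  rw [integral_add_right_eq_self]

lemma Kf_phi (t : ℝ) (S : Set ℕ) (k : ℕ) (B : ZZ → ℂ) (z : ZZ) :
    Kf S k (fun z => B (phi t z)) z = Kf S k B (phi t z) := by
  obtain ⟨s, n, i, j⟩ := z
  simp only [Kf, phi]
  split_ifs with h
  · congr 1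
    have : Aop n (i - k) (fun z => B (z.1 + ((2 ^ z.2.1 * t : ℝ) : UnitAddCircle), z.2)) =
        fun s => Aop n (i - k) B (s + ((2 ^ n * t : ℝ) : UnitAddCircle)) := by
      ext s; exact Aop_phi t n (i - k) B s
    rw [this, cen_shift]
  · rfl

lemma Kf_period (m : ℕ) {S : Set ℕ} (hS : ∀ n ∈ S, m ≤ n) (k : ℕ) (B : ZZ → ℂ) (z : ZZ) :
    Kf S k B (phi (-((1 / 2) ^ m)) z) = Kf S k B z := by
  obtain ⟨s, n, i, j⟩ := z
  simp only [Kf, phi]
  split_ifs with h
  · congr 2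
    have h1 := hS n h.1
    have : (2 : ℝ) ^ n * -((1 / 2) ^ m) = ((-(2 ^ (n - m) : ℕ) : ℤ) : ℝ) := by
      push_cast
      rw [mul_neg]
      congr 1
      rw [one_div, inv_pow, ← div_eq_mul_inv, div_eq_iff (by positivity), ← pow_add,
        Nat.sub_add_cancel h1]
    rw [this]
    have h2 : (((-(2 ^ (n - m) : ℕ) : ℤ) : ℝ) : UnitAddCircle) = 0 := by
      rw [AddCircle.coe_eq_zero_iff]
      exact ⟨-(2 ^ (n - m) : ℕ), by push_cast; simp⟩
    rw [h2, add_zero]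
  · rfl

/-- mean over a full number of turns vanishes -/
lemma integral_turns {c : UnitAddCircle → ℂ} (hc : Integrable c) (hc0 : ∫ s, c s = 0)
    (s : UnitAddCircle) (N : ℕ) :
    ∫ u in (0 : ℝ)..N, c (s + ((-u : ℝ) : UnitAddCircle)) = 0 := by
  set f : ℝ → ℂ := fun u => c (s + ((-u : ℝ) : UnitAddCircle)) with hf
  have hper : Function.Periodic f 1 := by
    intro u
    simp only [hf]
    congr 2
    rw [neg_add, AddCircle.coe_add]
    have : (((-1 : ℝ)) : UnitAddCircle) = 0 := by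
      rw [AddCircle.coe_eq_zero_iff]
      exact ⟨-1, by simp⟩
    rw [this, add_zero]
  have h1 : ∀ t : ℝ, ∫ u in t..t + 1, f u = 0 := by
    intro t
    have h2 := UnitAddCircle.intervalIntegral_preimage t
      (fun x : UnitAddCircle => c (s - x))
    have h3 : (fun u : ℝ => c (s - (u : UnitAddCircle))) = f := by
      ext u
      simp only [hf]
      rw [AddCircle.coe_neg, sub_eq_add_neg]
    rw [← h3, h2, integral_sub_left_eq_self]
    exact hc0
  have hint0 : IntervalIntegrable f volume 0 (0 + 1) := by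
    rw [intervalIntegrable_iff_integrableOn_Ioc_of_le (by norm_num)]
    have h4 : Integrable (fun x : UnitAddCircle => c (s - x)) volume := hc.comp_sub_left s
    have h5 := (UnitAddCircle.measurePreserving_mk 0).integrable_comp_of_integrable h4
    exact h5.congr (by
      filter_upwards with u
      simp only [hf, Function.comp]
      rw [AddCircle.coe_neg, sub_eq_add_neg])
  have hint : ∀ t₁ t₂, IntervalIntegrable f volume t₁ t₂ := by
    intro t₁ t₂
    exact hper.intervalIntegrable (by norm_num) hint0 t₁ t₂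
  have h6 := hper.intervalIntegral_add_zsmul_eq (N : ℤ) 0 (fun t₁ t₂ => hint t₁ t₂)
  simp only [zero_add, zsmul_eq_mul, Int.cast_natCast, mul_one] at h6
  rw [h6]
  have h7 := h1 0
  rw [zero_add] at h7
  rw [h7, mul_zero]

end Pool.Agent.H21.NC
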