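import Pool.Agent.H21.NC.Kop4

/-!
# Duality of `Kf` and `Gf`
-/

open MeasureTheory ENNReal NNReal Filter Topology
open scoped InnerProductSpace

namespace Pool.Agent.H21.NC

instance : IsProbabilityMeasure (volume : Measure UnitAddCircle) :=
  ⟨UnitAddCircle.measure_univ⟩

lemma integrable_mul_two {c d : UnitAddCircle → ℂ} (hc : MemLp c 2 volume)
    (hd : MemLp d 2 volume) : Integrable (fun s => c s * d s) volume :=
  hc.integrable_mul hd

lemma cen_memLp {c : UnitAddCircle → ℂ} (hc : MemLp c 2 volume) : MemLp (cen c) 2 volume :=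
  hc.sub (memLp_const _)

lemma dual_stage {B C : ZZ → ℂ} (hB : MemLp B 2 nu) (hC : MemLp C 2 nu) (n i i' : ℕ) :
    ∫ s, cen (Aop n i B) s * Bop n i' C s = ∫ s, Aop n i B s * cen (Bop n i' C) s := by
  have ha := Aop_memLp hB n i
  have hb := Bop_memLp hC n i'
  have h1 : ∀ s, cen (Aop n i B) s * Bop n i' C s =
      Aop n i B s * Bop n i' C s - (∫ t, Aop n i B t) * Bop n i' C s := by
    intro s; simp only [cen]; ring
  have h2 : ∀ s, Aop n i B s * cen (Bop n i' C) s =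
      Aop n i B s * Bop n i' C s - (∫ t, Bop n i' C t) * Aop n i B s := by
    intro s; simp only [cen]; ring
  simp_rw [h1, h2]
  rw [integral_sub (integrable_mul_two ha hb) ((hb.integrable (by norm_num)).const_mul _),
    integral_sub (integrable_mul_two ha hb) ((ha.integrable (by norm_num)).const_mul _),
    integral_const_mul, integral_const_mul]
  ring

/-- a finite set of levels containing the blocks below `m` -/
def Tm (m : ℕ) : Finset Lev := Finset.range m ×ˢ Finset.range m ×ˢ Finset.range (numLev m)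

lemma numLev_mono {n m : ℕ} (h : n ≤ m) : numLev n ≤ numLev m :=
  Nat.pow_le_pow_right (by norm_num) h

lemma mem_Tm {m n i j : ℕ} (h1 : n < m) (h2 : i ≤ n) (h3 : j < numLev n) : (n, i, j) ∈ Tm m := by
  simp only [Tm, Finset.mem_product, Finset.mem_range]
  exact ⟨h1, by omega, h3.trans_le (numLev_mono h1.le)⟩

lemma sum_range_extend {m n : ℕ} (h : n ≤ m) (f : ℕ → ℂ) :
    ∑ j ∈ Finset.range (numLev m), (if j < numLev n then f j else 0) =
      ∑ j ∈ Finset.range (numLev n), f j := by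
  rw [← Finset.sum_filter]
  apply Finset.sum_congr _ fun _ _ => rfl
  ext j
  have := numLev_mono h
  simp only [Finset.mem_filter, Finset.mem_range]
  omega

lemma Kf_mul_integrable {B C : ZZ → ℂ} (hB : MemLp B 2 nu) (hC : MemLp C 2 nu) :
    Integrable (fun z => B z * C z) nu := hB.integrable_mul hC

/-- pairing of the stages -/
noncomputable def Dst (B C : ZZ → ℂ) (n i : ℕ) : ℂ := ∫ s, Aop n i B s * cen (Bop n (i + 1) C) s

lemma Kf_level {S : Set ℕ} {n i j : ℕ} (h1 : n ∈ S) (h2 : 1 ≤ i) (h3 : i ≤ n)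
    (h4 : j < numLev n) (B : ZZ → ℂ) (s : UnitAddCircle) :
    Kf S 1 B (s, (n, i, j)) = (((8 ^ n * q (n, i, j)) ^ 3)⁻¹ : ℝ) * cen (Aop n (i - 1) B) s := by
  simp only [Kf]
  rw [if_pos ⟨h1, h2, h3, h4⟩]

lemma Gf_level {S : Set ℕ} {n i j : ℕ} (h1 : n ∈ S) (h2 : i + 1 ≤ n)
    (h4 : j < numLev n) (B : ZZ → ℂ) (s : UnitAddCircle) :
    Gf S B (s, (n, i, j)) = ((8 ^ n * q (n, i, j))⁻¹ : ℝ) * cen (Bop n (i + 1) B) s := by
  simp only [Gf]
  rw [if_pos ⟨h1, h2, h4⟩]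

lemma Kf_level_zero {S : Set ℕ} {n i j : ℕ} (h : ¬ (n ∈ S ∧ 1 ≤ i ∧ i ≤ n ∧ j < numLev n))
    (B : ZZ → ℂ) (s : UnitAddCircle) :
    Kf S 1 B (s, (n, i, j)) = 0 := by
  simp only [Kf]
  rw [if_neg h]

lemma Gf_level_zero {S : Set ℕ} {n i j : ℕ} (h : ¬ (n ∈ S ∧ i + 1 ≤ n ∧ j < numLev n))
    (B : ZZ → ℂ) (s : UnitAddCircle) :
    Gf S B (s, (n, i, j)) = 0 := by
  simp only [Gf]
  rw [if_neg h]

lemma Kf_stage {B C : ZZ → ℂ} (hB : MemLp B 2 nu) (hC : MemLp C 2 nu) {S : Set ℕ} {n m i : ℕ}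
    (hn : n < m) (h1 : n ∈ S) (h2 : 1 ≤ i) (h3 : i ≤ n) :
    ∑ j ∈ Finset.range (numLev m), (q (n, i, j) ^ 4) •
      ∫ s, Kf S 1 B (s, (n, i, j)) * C (s, (n, i, j)) = Dst B C n (i - 1) := by
  have h2' : ∀ j, (q (n, i, j) ^ 4) • ∫ s, Kf S 1 B (s, (n, i, j)) * C (s, (n, i, j)) =
      if j < numLev n then ∫ s, cen (Aop n (i - 1) B) s *
        (((((8 : ℝ) ^ n) ^ 3)⁻¹ : ℝ) * (((q (n, i, j) : ℝ) : ℂ) * C (s, (n, i, j)))) else 0 := by
    intro j
    by_cases hj : j < numLev n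
    · rw [if_pos hj, ← integral_smul]
      congr 1
      ext s
      rw [Kf_level h1 h2 h3 hj, Complex.real_smul]
      have := q_pos (n, i, j)
      have h3 : ((q (n, i, j) ^ 4 : ℝ) : ℂ) * ((((8 ^ n * q (n, i, j)) ^ 3)⁻¹ : ℝ) : ℂ) =
          (((((8 : ℝ) ^ n) ^ 3)⁻¹ : ℝ) : ℂ) * ((q (n, i, j) : ℝ) : ℂ) := by
        rw [← Complex.ofReal_mul, ← Complex.ofReal_mul]
        congr 1
        field_simp
      calc _ = (((q (n, i, j) ^ 4 : ℝ) : ℂ) * ((((8 ^ n * q (n, i, j)) ^ 3)⁻¹ : ℝ) : ℂ)) *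
            (cen (Aop n (i - 1) B) s * C (s, (n, i, j))) := by ring
        _ = _ := by rw [h3]; ring
    · rw [if_neg hj]
      have : ∀ s, Kf S 1 B (s, (n, i, j)) = 0 :=
        fun s => Kf_level_zero (fun h => hj h.2.2.2) B s
      simp [this]
  rw [Finset.sum_congr rfl fun j _ => h2' j, sum_range_extend hn.le,
    ← integral_finsetSum _ (fun j _ => ?_)]
  · rw [Dst, Nat.sub_add_cancel h2, ← dual_stage hB hC]
    congr 1
    ext s
    rw [← Finset.mul_sum, ← Finset.mul_sum]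
    rfl
  · exact integrable_mul_two (cen_memLp (Aop_memLp hB _ _))
      (((memLp_level hC _).const_mul _).const_mul _)

lemma Gf_stage {B C : ZZ → ℂ} (hB : MemLp B 2 nu) (hC : MemLp C 2 nu) {S : Set ℕ} {n m i : ℕ}
    (hn : n < m) (h1 : n ∈ S) (h2 : i + 1 ≤ n) :
    ∑ j ∈ Finset.range (numLev m), (q (n, i, j) ^ 4) •
      ∫ s, B (s, (n, i, j)) * Gf S C (s, (n, i, j)) = Dst B C n i := by
  have h2' : ∀ j, (q (n, i, j) ^ 4) • ∫ s, B (s, (n, i, j)) * Gf S C (s, (n, i, j)) =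
      if j < numLev n then ∫ s, ((((8 : ℝ) ^ n)⁻¹ : ℝ) *
        (((q (n, i, j) ^ 3 : ℝ) : ℂ) * B (s, (n, i, j)))) * cen (Bop n (i + 1) C) s else 0 := by
    intro j
    by_cases hj : j < numLev n
    · rw [if_pos hj, ← integral_smul]
      congr 1
      ext s
      rw [Gf_level h1 h2 hj, Complex.real_smul]
      have := q_pos (n, i, j)
      have h3 : ((q (n, i, j) ^ 4 : ℝ) : ℂ) * (((8 ^ n * q (n, i, j))⁻¹ : ℝ) : ℂ) =
          ((((8 : ℝ) ^ n)⁻¹ : ℝ) : ℂ) * ((q (n, i, j) ^ 3 : ℝ) : ℂ) := by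
        rw [← Complex.ofReal_mul, ← Complex.ofReal_mul]
        congr 1
        field_simp
      calc _ = (((q (n, i, j) ^ 4 : ℝ) : ℂ) * (((8 ^ n * q (n, i, j))⁻¹ : ℝ) : ℂ)) *
            (B (s, (n, i, j)) * cen (Bop n (i + 1) C) s) := by ring
        _ = _ := by rw [h3]; ring
    · rw [if_neg hj]
      have : ∀ s, Gf S C (s, (n, i, j)) = 0 :=
        fun s => Gf_level_zero (fun h => hj h.2.2) C s
      simp [this]
  rw [Finset.sum_congr rfl fun j _ => h2' j, sum_range_extend hn.le,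
    ← integral_finsetSum _ (fun j _ => ?_)]
  · rw [Dst]
    congr 1
    ext s
    rw [← Finset.sum_mul, ← Finset.mul_sum]
    rfl
  · exact integrable_mul_two (((memLp_level hB _).const_mul _).const_mul _)
      (cen_memLp (Bop_memLp hC _ _))

lemma sum_shift_stages {n m : ℕ} (hn : n < m) (P : Prop) [Decidable P] (D : ℕ → ℂ) :
    ∑ i ∈ Finset.range m, (if P ∧ 1 ≤ i ∧ i ≤ n then D (i - 1) else 0) =
      ∑ i ∈ Finset.range m, (if P ∧ i + 1 ≤ n then D i else 0) := by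
  obtain ⟨m', rfl⟩ : ∃ m', m = m' + 1 := ⟨m - 1, by omega⟩
  rw [Finset.sum_range_succ', Finset.sum_range_succ]
  have e1 : (if P ∧ 1 ≤ 0 ∧ 0 ≤ n then D (0 - 1) else 0) = 0 := by
    rw [if_neg]; omega
  have e2 : (if P ∧ m' + 1 ≤ n then D m' else 0) = 0 := by
    rw [if_neg]; omega
  rw [e1, e2]
  congr 1
  apply Finset.sum_congr rfl
  intro i _
  by_cases h : P ∧ i + 1 ≤ n
  · rw [if_pos h, if_pos ⟨h.1, by omega, h.2⟩]
    simp
  · rw [if_neg h, if_neg]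
    rintro ⟨a, b, c⟩
    exact h ⟨a, c⟩

lemma sum_Tm (m : ℕ) (f : Lev → ℂ) :
    ∑ a ∈ Tm m, f a = ∑ n ∈ Finset.range m, ∑ i ∈ Finset.range m,
      ∑ j ∈ Finset.range (numLev m), f (n, i, j) := by
  unfold Tm
  generalize numLev m = K
  rw [Finset.sum_product]
  apply Finset.sum_congr rfl
  intro n _
  rw [Finset.sum_product]

lemma integral_nu_Tm {F : ZZ → ℂ} (m : ℕ) (hT : ∀ a ∉ Tm m, ∀ s, F (s, a) = 0)
    (hi : ∀ a ∈ Tm m, Integrable (fun s => F (s, a)) volume) :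
    ∫ z, F z ∂nu = ∑ n ∈ Finset.range m, ∑ i ∈ Finset.range m,
      ∑ j ∈ Finset.range (numLev m), (q (n, i, j) ^ 4) • ∫ s, F (s, (n, i, j)) := by
  rw [integral_nu_finset (Tm m) hT hi, sum_Tm]

lemma Kf_dual_block {B C : ZZ → ℂ} (hB : MemLp B 2 nu) (hC : MemLp C 2 nu) {S : Set ℕ} {n m : ℕ}
    (hn : n < m) :
    ∑ i ∈ Finset.range m, ∑ j ∈ Finset.range (numLev m), (q (n, i, j) ^ 4) •
      ∫ s, Kf S 1 B (s, (n, i, j)) * C (s, (n, i, j)) =
    ∑ i ∈ Finset.range m, ∑ j ∈ Finset.range (numLev m), (q (n, i, j) ^ 4) •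
      ∫ s, B (s, (n, i, j)) * Gf S C (s, (n, i, j)) := by
  classical
  refine Eq.trans (Finset.sum_congr rfl fun i _ => ?_)
    ((sum_shift_stages hn (n ∈ S) (Dst B C n)).trans
      (Finset.sum_congr rfl fun i _ => Eq.symm ?_))
  · by_cases hc : n ∈ S ∧ 1 ≤ i ∧ i ≤ n
    · rw [if_pos hc]
      exact Kf_stage hB hC hn hc.1 hc.2.1 hc.2.2
    · rw [if_neg hc]
      apply Finset.sum_eq_zero
      intro j _
      have : ∀ s, Kf S 1 B (s, (n, i, j)) = 0 :=
        fun s => Kf_level_zero (fun h => hc ⟨h.1, h.2.1, h.2.2.1⟩) B s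
      simp [this]
  · by_cases hc : n ∈ S ∧ i + 1 ≤ n
    · rw [if_pos hc]
      exact Gf_stage hB hC hn hc.1 hc.2
    · rw [if_neg hc]
      apply Finset.sum_eq_zero
      intro j _
      have : ∀ s, Gf S C (s, (n, i, j)) = 0 :=
        fun s => Gf_level_zero (fun h => hc ⟨h.1, h.2.1⟩) C s
      simp [this]

theorem Kf_dual {B C : ZZ → ℂ} (hB : MemLp B 2 nu) (hC : MemLp C 2 nu) {S : Set ℕ} {m : ℕ}
    (hS : ∀ n ∈ S, n < m) :
    ∫ z, Kf S 1 B z * C z ∂nu = ∫ z, B z * Gf S C z ∂nu := by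
  have hKf : ∀ a ∉ Tm m, ∀ s, Kf S 1 B (s, a) * C (s, a) = 0 := by
    rintro ⟨n, i, j⟩ ha s
    rw [Kf_level_zero, zero_mul]
    rintro ⟨h1, h2, h3, h4⟩
    exact ha (mem_Tm (hS n h1) h3 h4)
  have hGf : ∀ a ∉ Tm m, ∀ s, B (s, a) * Gf S C (s, a) = 0 := by
    rintro ⟨n, i, j⟩ ha s
    rw [Gf_level_zero, mul_zero]
    rintro ⟨h1, h2, h3⟩
    exact ha (mem_Tm (hS n h1) (by omega) h3)
  have iKf : ∀ a ∈ Tm m, Integrable (fun s => Kf S 1 B (s, a) * C (s, a)) volume := fun a _ =>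
    integrable_mul_two (memLp_level (Kf_memLp hB S (by norm_num)) a) (memLp_level hC a)
  have iGf : ∀ a ∈ Tm m, Integrable (fun s => B (s, a) * Gf S C (s, a)) volume := fun a _ =>
    integrable_mul_two (memLp_level hB a) (memLp_level (Gf_memLp hC S) a)
  have e1 := integral_nu_Tm (F := fun z => Kf S 1 B z * C z) m hKf iKf
  have e2 := integral_nu_Tm (F := fun z => B z * Gf S C z) m hGf iGf
  refine e1.trans (Eq.trans ?_ e2.symm)
  exact Finset.sum_congr rfl fun n hn => Kf_dual_block hB hC (Finset.mem_range.mp hn)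

/-- `Gf` of a good function is good when only finitely many blocks are involved -/
lemma memLp_top_finset {F : ZZ → ℂ} (T : Finset Lev) (hT : ∀ a ∉ T, ∀ s, F (s, a) = 0)
    (hm : ∀ a, AEStronglyMeasurable (fun s => F (s, a)) volume)
    (hi : ∀ a ∈ T, ∃ C : ℝ, ∀ᵐ s, ‖F (s, a)‖ ≤ C) : MemLp F ∞ nu := by
  choose! C hC using hi
  have hb : ∀ᵐ z ∂nu, ‖F z‖ ≤ ∑ a ∈ T, |C a| := by
    apply ae_nu.mpr
    intro a
    by_cases ha : a ∈ T
    · filter_upwards [hC a ha] with s hs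
      refine hs.trans ((le_abs_self _).trans ?_)
      exact Finset.single_le_sum (f := fun a => |C a|) (fun _ _ => abs_nonneg _) ha
    · filter_upwards with s
      rw [hT a ha, norm_zero]
      exact Finset.sum_nonneg fun _ _ => abs_nonneg _
  exact memLp_top_of_bound (aesm_nu.mpr hm) _ hb

lemma exists_bound_of_memLp_top {F : ZZ → ℂ} (hF : MemLp F ∞ nu) :
    ∃ C : ℝ, 0 ≤ C ∧ ∀ᵐ z ∂nu, ‖F z‖ ≤ C := by
  have h := hF.2
  rw [eLpNorm_exponent_top] at h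
  refine ⟨(eLpNormEssSup F nu).toReal, ENNReal.toReal_nonneg, ?_⟩
  filter_upwards [enorm_ae_le_eLpNormEssSup F nu] with z hz
  rw [← toReal_enorm]
  exact ENNReal.toReal_mono h.ne hz

lemma Gf_good {C : ZZ → ℂ} (hC2 : MemLp C 2 nu) (hCi : MemLp C ∞ nu) {S : Set ℕ} {m : ℕ}
    (hS : ∀ n ∈ S, n < m) : Good nu (Gf S C) := by
  refine ⟨Gf_memLp hC2 S, ?_⟩
  obtain ⟨K, hK0, hK⟩ := exists_bound_of_memLp_top hCi
  apply memLp_top_finset (Tm m)
  · rintro ⟨n, i, j⟩ ha s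
    rw [Gf_level_zero]
    rintro ⟨h1, h2, h3⟩
    exact ha (mem_Tm (hS n h1) (by omega) h3)
  · exact aesm_nu.mp (Gf_memLp hC2 S).1
  · rintro ⟨n, i, j⟩ -
    have hb : ∀ᵐ s : UnitAddCircle, ‖Bop n (i + 1) C s‖ ≤ (((8 : ℝ) ^ n) ^ 3)⁻¹ *
        ∑ j ∈ Finset.range (numLev n), q (n, i + 1, j) * K := by
      have h1 := ae_nu.mp hK
      have h2 : ∀ᵐ s : UnitAddCircle, ∀ j, ‖C (s, (n, i + 1, j))‖ ≤ K :=
        ae_all_iff.mpr fun j => h1 (n, i + 1, j)
      filter_upwards [h2] with s hs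
      rw [Bop, norm_mul, Complex.norm_real, Real.norm_of_nonneg (by positivity)]
      gcongr
      refine (norm_sum_le _ _).trans (Finset.sum_le_sum fun j _ => ?_)
      have := q_pos (n, i + 1, j)
      rw [norm_mul, Complex.norm_real, Real.norm_of_nonneg this.le]
      gcongr
      exact hs j
    refine ⟨(8 ^ n * q (n, i, j))⁻¹ * ((((8 : ℝ) ^ n) ^ 3)⁻¹ *
        ∑ j ∈ Finset.range (numLev n), q (n, i + 1, j) * K + ‖∫ t, Bop n (i + 1) C t‖), ?_⟩
    have hq := q_pos (n, i, j)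
    have hq' : ∀ j, 0 < q (n, i + 1, j) := fun j => q_pos (n, i + 1, j)
    filter_upwards [hb] with s hs
    simp only [Gf]
    split_ifs
    · rw [norm_mul, Complex.norm_real, Real.norm_of_nonneg (by positivity)]
      gcongr
      exact (norm_sub_le _ _).trans (by gcongr)
    · rw [norm_zero]
      have : 0 ≤ ∑ j ∈ Finset.range (numLev n), q (n, i + 1, j) * K :=
        Finset.sum_nonneg fun j _ => by have := hq' j; positivity
      positivity

end Pool.Agent.H21.NC
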