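import Pool.Agent.H21.NC.Chaos

/-!
# The measure space of levels and the rotation flow
-/

open MeasureTheory ENNReal NNReal Filter Topology
open scoped InnerProductSpace

namespace Pool.Agent.H21.NC

/-- levels: `(block, stage, index)` -/
abbrev Lev : Type := ℕ × ℕ × ℕ

/-- the one-particle space -/
abbrev ZZ : Type := UnitAddCircle × Lev

/-- number of levels per stage in block `n` is `4096 ^ n = (8 ^ n) ^ 4` -/
def numLev (n : ℕ) : ℕ := 4096 ^ n

/-- the exponent at the beginning of stage `i` of block `n` -/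
def base (n i : ℕ) : ℕ := 16 * 4 ^ i * 4096 ^ n

/-- `q(a) = D(a)^(1/4)` -/
noncomputable def q (a : Lev) : ℝ := 2 ^ (base a.1 a.2.1 + a.2.2)

lemma q_pos (a : Lev) : 0 < q a := by unfold q; positivity

lemma one_le_q (a : Lev) : 1 ≤ q a := one_le_pow₀ (by norm_num)

/-- the intensity measure of the free Poisson system: at level `a` it has mass `q(a)^4` -/
noncomputable def nu : Measure ZZ :=
  Measure.sum fun a : Lev => ENNReal.ofReal (q a ^ 4) • (volume : Measure UnitAddCircle).map
    (fun s => (s, a))

lemma memb (a : Lev) : MeasurableEmbedding (fun s : UnitAddCircle => ((s, a) : ZZ)) :=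
  MeasurableEmbedding.prodMk_right MeasurableEmbedding.id a

lemma ofReal_q_ne (a : Lev) : ENNReal.ofReal (q a ^ 4) ≠ 0 := by
  have := q_pos a
  simp only [ne_eq, ENNReal.ofReal_eq_zero, not_le]
  positivity

lemma lintegral_nu (f : ZZ → ℝ≥0∞) :
    ∫⁻ z, f z ∂nu = ∑' a : Lev, ENNReal.ofReal (q a ^ 4) * ∫⁻ s, f (s, a) := by
  rw [nu, lintegral_sum_measure]
  congr 1
  ext a
  rw [lintegral_smul_measure, (memb a).lintegral_map]
  rfl

lemma ae_nu {p : ZZ → Prop} : (∀ᵐ z ∂nu, p z) ↔ ∀ a : Lev, ∀ᵐ s, p (s, a) := by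
  rw [nu, Measure.ae_sum_iff]
  apply forall_congr'
  intro a
  rw [Measure.ae_ennreal_smul_measure_iff (ofReal_q_ne a), (memb a).ae_map_iff]

lemma aesm_nu {β : Type*} [TopologicalSpace β] [TopologicalSpace.PseudoMetrizableSpace β]
    {f : ZZ → β} : AEStronglyMeasurable f nu ↔
      ∀ a : Lev, AEStronglyMeasurable (fun s => f (s, a)) volume := by
  rw [nu, aestronglyMeasurable_sum_measure_iff]
  apply forall_congr'
  intro a
  have h1 : AEStronglyMeasurable f (ENNReal.ofReal (q a ^ 4) • (volume : Measure UnitAddCircle).map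
      (fun s => ((s, a) : ZZ))) ↔ AEStronglyMeasurable f ((volume : Measure UnitAddCircle).map
      (fun s => ((s, a) : ZZ))) :=
    ⟨fun h => h.mono_ac (Measure.absolutelyContinuous_smul (ofReal_q_ne a)),
      fun h => h.mono_ac Measure.smul_absolutelyContinuous⟩
  rw [h1, (memb a).aestronglyMeasurable_map_iff]
  rfl

lemma nu_apply {s : Set ZZ} (hs : MeasurableSet s) :
    nu s = ∑' a : Lev, ENNReal.ofReal (q a ^ 4) * volume {x : UnitAddCircle | (x, a) ∈ s} := by
  rw [nu, Measure.sum_apply _ hs]
  congr 1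
  ext a
  rw [Measure.smul_apply, (memb a).map_apply]
  rfl

lemma nu_level (b : Lev) : nu {z | z.2 = b} = ENNReal.ofReal (q b ^ 4) := by
  have hs : MeasurableSet {z : ZZ | z.2 = b} := measurable_snd (measurableSet_singleton b)
  rw [nu_apply hs, tsum_eq_single b]
  · have : {x : UnitAddCircle | ((x, b) : ZZ) ∈ {z : ZZ | z.2 = b}} = Set.univ := by
      ext x; simp
    rw [this, UnitAddCircle.measure_univ, mul_one]
  · intro a ha
    have : {x : UnitAddCircle | ((x, a) : ZZ) ∈ {z : ZZ | z.2 = b}} = ∅ := by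
      ext x; simp [ha]
    rw [this, measure_empty, mul_zero]

instance : SigmaFinite nu := by
  refine Measure.sigmaFinite_of_countable (S := Set.range fun b : Lev => {z : ZZ | z.2 = b})
    (Set.countable_range _) ?_ ?_
  · rintro _ ⟨b, rfl⟩
    simp only
    rw [nu_level]
    exact ENNReal.ofReal_lt_top
  · ext z
    simp

instance : IsLocallyFiniteMeasure nu := by
  refine ⟨fun z => ⟨{y | y.2 = z.2}, ?_, ?_⟩⟩
  · have : IsOpen {y : ZZ | y.2 = z.2} :=
      continuous_snd.isOpen_preimage {z.2} (isOpen_discrete _)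
    exact this.mem_nhds rfl
  · rw [nu_level]
    exact ENNReal.ofReal_lt_top

/-- the rotation flow: level `a` of block `n` rotates with speed `2 ^ n` -/
noncomputable def phi (t : ℝ) (z : ZZ) : ZZ := (z.1 + ((2 ^ z.2.1 * t : ℝ) : UnitAddCircle), z.2)

lemma phi_zero (z : ZZ) : phi 0 z = z := by simp [phi]

lemma phi_add (s t : ℝ) (z : ZZ) : phi (s + t) z = phi s (phi t z) := by
  simp only [phi]
  congr 1
  rw [mul_add, AddCircle.coe_add]
  abel

lemma continuous_phi : Continuous fun p : ℝ × ZZ => phi p.1 p.2 := by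
  unfold phi
  refine Continuous.prodMk ?_ (by fun_prop)
  refine Continuous.add (by fun_prop) ?_
  have h1 : Continuous fun p : ℝ × ZZ => (2 : ℝ) ^ p.2.2.1 * p.1 := by
    have h2 : Continuous fun a : Lev => (2 : ℝ) ^ a.1 := continuous_of_discreteTopology
    exact (h2.comp (continuous_snd.comp continuous_snd)).mul continuous_fst
  exact (AddCircle.continuous_mk' 1).comp h1

lemma measurePreserving_phi (t : ℝ) : MeasurePreserving (phi t) nu nu := by
  have hc : Continuous (phi t) := continuous_phi.comp (by fun_prop : Continuous fun z => (t, z))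
  refine ⟨hc.measurable, ?_⟩
  ext s hs
  rw [Measure.map_apply hc.measurable hs, nu_apply (hc.measurable hs), nu_apply hs]
  congr 1
  ext a
  congr 1
  have : {x : UnitAddCircle | ((x, a) : ZZ) ∈ phi t ⁻¹' s} =
      (fun x => x + ((2 ^ a.1 * t : ℝ) : UnitAddCircle)) ⁻¹' {x | ((x, a) : ZZ) ∈ s} := by
    ext x; simp [phi]
  rw [this]
  exact measure_preimage_add_right _ _ _

instance : Measure.InnerRegular nu := by
  have h : ∀ a : Lev, Measure.InnerRegular (ENNReal.ofReal (q a ^ 4) •
      (volume : Measure UnitAddCircle).map (fun s => ((s, a) : ZZ))) := by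
    intro a
    have h1 : Measure.InnerRegular ((volume : Measure UnitAddCircle).map
        (fun s => ((s, a) : ZZ))) := Measure.InnerRegular.map_of_continuous (by fun_prop)
    infer_instance
  unfold nu
  infer_instance

lemma continuous_compMeasurePreserving_phi (f : Lp ℂ 2 nu) :
    Continuous fun t => Lp.compMeasurePreserving (phi t) (measurePreserving_phi t) f := by
  have h1 : Continuous fun t : ℝ => (⟨phi t, continuous_phi.comp
      (by fun_prop : Continuous fun z => (t, z))⟩ : C(ZZ, ZZ)) :=
    ContinuousMap.continuous_of_continuous_uncurry _ continuous_phi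
  exact (continuous_const (y := f)).compMeasurePreservingLp h1 measurePreserving_phi (by norm_num)

end Pool.Agent.H21.NC
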