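import Pool.Agent.H21.NC.Flow

/-!
# The mean of the flow over a period vanishes on the range of `N'`
-/

open MeasureTheory ENNReal NNReal Filter Topology
open scoped InnerProductSpace

namespace Pool.Agent.H21.NC

variable {H : Type*} [NormedAddCommGroup H] [InnerProductSpace ℂ H] [CompleteSpace H]
variable {M : VonNeumannAlgebra H} {Ω : H}
  {emb : Lp ℂ 2 nu →ₗᵢ[ℂ] H} {X : (ZZ → ℝ) → H →L[ℂ] H} {Γ : ℝ → H ≃ₗᵢ[ℂ] H}

lemma Kf_measurable {B : ZZ → ℂ} (hB : Measurable B) (S : Set ℕ) (k : ℕ) :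
    Measurable (Kf S k B) := by
  apply measurable_from_prod_countable_left
  intro a
  by_cases h : a.1 ∈ S ∧ k ≤ a.2.1 ∧ a.2.1 ≤ a.1 ∧ a.2.2 < numLev a.1
  · have h1 : (fun s => Kf S k B (s, a)) = fun s => ((((8 ^ a.1 * q a) ^ 3)⁻¹ : ℝ) : ℂ) *
        cen (Aop a.1 (a.2.1 - k) B) s := by
      ext s; simp only [Kf]; rw [if_pos h]
    rw [h1]
    apply Measurable.const_mul
    apply Measurable.sub_const
    unfold Aop
    apply Measurable.const_mul
    apply Finset.measurable_fun_sum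
    intro j _
    exact (hB.comp measurable_prodMk_right).const_mul _
  · have h1 : (fun s => Kf S k B (s, a)) = fun s => 0 := by
      ext s; simp only [Kf]; rw [if_neg h]
    rw [h1]
    exact measurable_const

lemma turn_zero {b : ZZ → ℂ} (hb : MemLp b 2 nu) (m : ℕ) (z : ZZ) :
    ∫ t in (0 : ℝ)..((1 / 2) ^ m), Kf {n | m ≤ n} 1 b (phi (-t) z) = 0 := by
  classical
  obtain ⟨s, n, i, j⟩ := z
  by_cases h : n ∈ {n | m ≤ n} ∧ 1 ≤ i ∧ i ≤ n ∧ j < numLev n
  · have hm : m ≤ n := h.1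
    set w : ℂ := ((((8 ^ n * q (n, i, j)) ^ 3)⁻¹ : ℝ) : ℂ) with hw
    set c : UnitAddCircle → ℂ := cen (Aop n (i - 1) b) with hc
    have h1 : ∀ t : ℝ, Kf {n | m ≤ n} 1 b (phi (-t) (s, (n, i, j))) =
        w * c (s + ((-(2 ^ n * t) : ℝ) : UnitAddCircle)) := by
      intro t
      simp only [Kf, phi]
      rw [if_pos h, mul_neg]
    simp_rw [h1]
    rw [intervalIntegral.integral_const_mul]
    have h2 := intervalIntegral.integral_comp_mul_left (a := 0) (b := (1 / 2) ^ m)
      (fun u : ℝ => c (s + ((-u : ℝ) : UnitAddCircle)))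
      (show ((2 : ℝ) ^ n) ≠ 0 by positivity)
    rw [h2]
    have h3 : (2 : ℝ) ^ n * (1 / 2) ^ m = ((2 ^ (n - m) : ℕ) : ℝ) := by
      push_cast
      rw [one_div, inv_pow, ← div_eq_mul_inv, div_eq_iff (by positivity), ← pow_add,
        Nat.sub_add_cancel hm]
    rw [mul_zero, h3, integral_turns, smul_zero, mul_zero]
    · exact (cen_memLp (Aop_memLp hb _ _)).integrable (by norm_num)
    · exact integral_cen _
  · have h1 : ∀ t : ℝ, Kf {n | m ≤ n} 1 b (phi (-t) (s, (n, i, j))) = 0 := by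
      intro t
      simp only [Kf, phi]
      rw [if_neg h]
    simp_rw [h1]
    simp

lemma fub_integrable {F G : ZZ → ℂ} (hFm : Measurable F) (hGm : Measurable G)
    (hF : MemLp F 2 nu) (hG : MemLp G 2 nu) {δ : ℝ} :
    Integrable (Function.uncurry fun (t : ℝ) (z : ZZ) => F (phi (-t) z) * G z)
      ((volume.restrict (Set.Ioc 0 δ)).prod nu) := by
  have hphi : Measurable fun p : ℝ × ZZ => phi (-p.1) p.2 := by
    unfold phi
    refine Measurable.prodMk ?_ measurable_snd.snd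
    refine measurable_snd.fst.add (AddCircle.measurable_mk'.comp ?_)
    refine Measurable.mul ?_ measurable_fst.neg
    exact (measurable_from_nat (f := fun n : ℕ => (2 : ℝ) ^ n)).comp measurable_snd.snd.fst
  have hm : Measurable (Function.uncurry fun (t : ℝ) (z : ZZ) => F (phi (-t) z) * G z) :=
    (hFm.comp hphi).mul (hGm.comp measurable_snd)
  have hFt : ∀ t : ℝ, MemLp (fun z => F (phi (-t) z)) 2 nu := fun t =>
    hF.comp_measurePreserving (measurePreserving_phi (-t))
  rw [integrable_prod_iff hm.aestronglyMeasurable]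
  constructor
  · exact Eventually.of_forall fun t => (hFt t).integrable_mul hG
  · have hsm : StronglyMeasurable fun t : ℝ => ∫ z, ‖Function.uncurry
        (fun (t : ℝ) (z : ZZ) => F (phi (-t) z) * G z) (t, z)‖ ∂nu :=
      hm.stronglyMeasurable.norm.integral_prod_right'
    refine Integrable.mono' (integrable_const
      ((∫ z, ‖F z‖ ^ 2 ∂nu) + ∫ z, ‖G z‖ ^ 2 ∂nu)) hsm.aestronglyMeasurable
      (Eventually.of_forall fun t => ?_)
    rw [Real.norm_of_nonneg (integral_nonneg fun z => norm_nonneg _)]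
    have h1 : Integrable (fun z => ‖F (phi (-t) z)‖ ^ 2) nu := (hFt t).integrable_norm_pow (by norm_num)
    have h2 : Integrable (fun z => ‖G z‖ ^ 2) nu := hG.integrable_norm_pow (by norm_num)
    have h3 : ∫ z, ‖F z‖ ^ 2 ∂nu = ∫ z, ‖F (phi (-t) z)‖ ^ 2 ∂nu := by
      have h := measurePreserving_phi (-t)
      have h4 : AEStronglyMeasurable (fun z => ‖F z‖ ^ 2) (Measure.map (phi (-t)) nu) := by
        rw [h.map_eq]; exact (hFm.norm.pow_const 2).aestronglyMeasurable
      have h5 := integral_map h.measurable.aemeasurable h4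
      rw [h.map_eq] at h5
      exact h5
    rw [h3, ← integral_add h1 h2]
    apply integral_mono_of_nonneg (Eventually.of_forall fun z => norm_nonneg _) (h1.add h2)
    filter_upwards with z
    show ‖F (phi (-t) z) * G z‖ ≤ ‖F (phi (-t) z)‖ ^ 2 + ‖G z‖ ^ 2
    rw [norm_mul]
    nlinarith [sq_nonneg (‖F (phi (-t) z)‖ - ‖G z‖), norm_nonneg (F (phi (-t) z)),
      norm_nonneg (G z), mul_nonneg (norm_nonneg (F (phi (-t) z))) (norm_nonneg (G z))]

theorem mean_zero (hP : FreePoisson nu M Ω emb X) (hF : FreePoissonFlow nu M Ω X phi Γ) (m : ℕ)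
    {x : H →L[ℂ] H} (hx : x ∈ M) (y : H →L[ℂ] H) :
    ∫ t in (0 : ℝ)..((1 / 2) ^ m), tr Ω (alp Γ t (Nop emb Ω X {n | m ≤ n} 1 x) * y) = 0 := by
  have hg := Kf_chaos_good hP hx {n | m ≤ n} le_rfl
  have h1 : ∀ t : ℝ, tr Ω (alp Γ t (Nop emb Ω X {n | m ≤ n} 1 x) * y) =
      ∫ z, Kf {n | m ≤ n} 1 (chaos emb Ω x) (phi (-t) z) * chaos emb Ω y z ∂nu := by
    intro t
    rw [Nop, alp_XC hP hF t hg, tr_XC_mul hP (good_comp hg (-t))]
  simp_rw [h1]
  have hδ : (0 : ℝ) ≤ (1 / 2) ^ m := by positivity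
  rw [intervalIntegral.integral_of_le hδ]
  have hbm : Measurable (chaos emb Ω x : ZZ → ℂ) := (Lp.stronglyMeasurable _).measurable
  have hym : Measurable (chaos emb Ω y : ZZ → ℂ) := (Lp.stronglyMeasurable _).measurable
  rw [integral_integral_swap (fub_integrable (Kf_measurable hbm _ _) hym hg.1 (Lp.memLp _))]
  have h2 : ∀ z, ∫ t in Set.Ioc (0 : ℝ) ((1 / 2) ^ m),
      Kf {n | m ≤ n} 1 (chaos emb Ω x) (phi (-t) z) * chaos emb Ω y z = 0 := by
    intro z
    rw [← intervalIntegral.integral_of_le hδ, intervalIntegral.integral_mul_const,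
      turn_zero (Lp.memLp _), zero_mul]
  simp_rw [h2]
  simp

end Pool.Agent.H21.NC
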