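import Pool.Agent.H21.NC.Kop5

/-!
# The operators `N_{S,k}` on the von Neumann algebra
-/

open MeasureTheory ENNReal NNReal Filter Topology
open scoped InnerProductSpace

namespace Pool.Agent.H21.NC

variable {H : Type*} [NormedAddCommGroup H] [InnerProductSpace ℂ H] [CompleteSpace H]
variable {M : VonNeumannAlgebra H} {Ω : H}
  {emb : Lp ℂ 2 nu →ₗᵢ[ℂ] H} {X : (ZZ → ℝ) → H →L[ℂ] H}

/-- the operator `N_{S,k}` -/
noncomputable def Nop (emb : Lp ℂ 2 nu →ₗᵢ[ℂ] H) (Ω : H) (X : (ZZ → ℝ) → H →L[ℂ] H) (S : Set ℕ)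
    (k : ℕ) (x : H →L[ℂ] H) : H →L[ℂ] H :=
  XC X (Kf S k (chaos emb Ω x))

lemma Kf_chaos_good (hP : FreePoisson nu M Ω emb X) {x : H →L[ℂ] H} (hx : x ∈ M) (S : Set ℕ)
    {k : ℕ} (hk : 1 ≤ k) : Good nu (Kf S k (chaos emb Ω x)) :=
  Kf_good (Lp.memLp _) (by positivity) (chaos_bound hP hx) S hk

lemma Nop_mem (hP : FreePoisson nu M Ω emb X) {x : H →L[ℂ] H} (hx : x ∈ M) (S : Set ℕ)
    {k : ℕ} (hk : 1 ≤ k) : Nop emb Ω X S k x ∈ M := XC_mem hP (Kf_chaos_good hP hx S hk)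

lemma Nop_add (hP : FreePoisson nu M Ω emb X) {x y : H →L[ℂ] H} (hx : x ∈ M) (hy : y ∈ M)
    (S : Set ℕ) {k : ℕ} (hk : 1 ≤ k) :
    Nop emb Ω X S k (x + y) = Nop emb Ω X S k x + Nop emb Ω X S k y := by
  rw [Nop, chaos_add, Nop, Nop, ← XC_add hP (Kf_chaos_good hP hx S hk) (Kf_chaos_good hP hy S hk)]
  apply XC_congr hP
  refine (Kf_congr (Lp.coeFn_add _ _) S k).trans ?_
  filter_upwards with z
  exact Kf_add (Lp.memLp _) (Lp.memLp _) S k z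

lemma Nop_smul (hP : FreePoisson nu M Ω emb X) (c : ℂ) {x : H →L[ℂ] H} (hx : x ∈ M)
    (S : Set ℕ) {k : ℕ} (hk : 1 ≤ k) :
    Nop emb Ω X S k (c • x) = c • Nop emb Ω X S k x := by
  rw [Nop, chaos_smul, Nop, ← XC_smul hP c (Kf_chaos_good hP hx S hk)]
  apply XC_congr hP
  refine (Kf_congr (Lp.coeFn_smul _ _) S k).trans ?_
  filter_upwards with z
  exact Kf_smul c _ S k z

lemma Nop_comp (hP : FreePoisson nu M Ω emb X) {x : H →L[ℂ] H} (hx : x ∈ M)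
    (S S' : Set ℕ) {k : ℕ} (hk : 1 ≤ k) :
    Nop emb Ω X S 1 (Nop emb Ω X S' k x) = Nop emb Ω X (S ∩ S') (k + 1) x := by
  rw [Nop, Nop, chaos_XC hP (Kf_chaos_good hP hx S' hk), Nop]
  apply XC_congr hP
  refine (Kf_congr (MemLp.coeFn_toLp _) S 1).trans ?_
  filter_upwards with z
  exact Kf_comp S S' k _ z

lemma XC_zero (hP : FreePoisson nu M Ω emb X) : XC X (fun _ => 0) = 0 := by
  have h := XC_smul hP 0 (F := fun _ => (0 : ℂ)) ⟨MemLp.zero, MemLp.zero⟩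
  simpa using h

lemma Nop_zero_of (hP : FreePoisson nu M Ω emb X) {x : H →L[ℂ] H} (S : Set ℕ) (k : ℕ)
    (h : ∀ᵐ z ∂nu, Kf S k (chaos emb Ω x) z = 0) : Nop emb Ω X S k x = 0 := by
  rw [Nop, XC_congr hP h, XC_zero hP]

lemma Kf_zero_fun (S : Set ℕ) (k : ℕ) (z : ZZ) : Kf S k (fun _ => 0) z = 0 := by
  have h := Kf_smul 0 (fun _ => (0 : ℂ)) S k z
  simpa using h

lemma Nop_one (hP : FreePoisson nu M Ω emb X) (S : Set ℕ) (k : ℕ) :
    Nop emb Ω X S k (1 : H →L[ℂ] H) = 0 := by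
  apply Nop_zero_of hP
  rw [chaos_one hP]
  refine (Kf_congr (Lp.coeFn_zero ℂ 2 nu) S k).trans ?_
  filter_upwards with z
  exact Kf_zero_fun S k z

lemma tr_Nop (hP : FreePoisson nu M Ω emb X) {x : H →L[ℂ] H} (hx : x ∈ M) (S : Set ℕ)
    {k : ℕ} (hk : 1 ≤ k) : tr Ω (Nop emb Ω X S k x) = 0 := by
  rw [tr, Nop, XC_vacuum hP (Kf_chaos_good hP hx S hk), hP.emb_orth]

/-! ### integrals -/

lemma lint_sq {α : Type*} [MeasurableSpace α] {μ : Measure α} {F : α → ℂ} (hF : MemLp F 2 μ) :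
    ∫⁻ z, ‖F z‖ₑ ^ 2 ∂μ = ENNReal.ofReal (‖hF.toLp F‖ ^ 2) := by
  have key : eLpNorm F 2 μ ^ 2 = ∫⁻ s, ‖F s‖ₑ ^ 2 ∂μ := by
    rw [eLpNorm_eq_lintegral_rpow_enorm_toReal (by norm_num) (by norm_num)]
    simp only [ENNReal.toReal_ofNat, ENNReal.rpow_ofNat]
    rw [← ENNReal.rpow_natCast, ← ENNReal.rpow_mul]
    norm_num
  rw [← key, Lp.norm_toLp, ENNReal.ofReal_pow ENNReal.toReal_nonneg, ENNReal.ofReal_toReal hF.2.ne]

lemma norm_toLp_le {α : Type*} [MeasurableSpace α] {μ : Measure α} {F : α → ℂ} (hF : MemLp F 2 μ)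
    {c : ℝ} (hc : 0 ≤ c) (h : ∫⁻ z, ‖F z‖ₑ ^ 2 ∂μ ≤ ENNReal.ofReal (c ^ 2)) :
    ‖hF.toLp F‖ ≤ c := by
  rw [lint_sq hF, ENNReal.ofReal_le_ofReal_iff (by positivity)] at h
  exact (pow_le_pow_iff_left₀ (norm_nonneg _) hc (by norm_num)).mp h

lemma lint_chaos_le (x : H →L[ℂ] H) :
    ∫⁻ z, ‖chaos emb Ω x z‖ₑ ^ 2 ∂nu ≤ ENNReal.ofReal (‖x Ω‖ ^ 2) := by
  rw [lint_sq (Lp.memLp (chaos emb Ω x))]
  apply ENNReal.ofReal_le_ofReal
  rw [Lp.toLp_coeFn]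
  gcongr
  exact norm_chaos_le x

lemma integral_pow_le {α : Type*} [MeasurableSpace α] {μ : Measure α} {f : α → ℝ} {F : α → ℂ}
    (hf : AEStronglyMeasurable f μ) {m : ℕ} (hm : Even m) (h : ∀ z, |f z| ≤ ‖F z‖) {c : ℝ}
    (hc : 0 ≤ c) (hF : ∫⁻ z, ‖F z‖ₑ ^ m ∂μ ≤ ENNReal.ofReal c) :
    ∫ z, f z ^ m ∂μ ≤ c := by
  rw [integral_eq_lintegral_of_nonneg_ae (Eventually.of_forall fun z => hm.pow_nonneg (f z))
    (hf.pow m)]
  apply ENNReal.toReal_le_of_le_ofReal hc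
  refine le_trans (lintegral_mono fun z => ?_) hF
  rw [← ofReal_norm, ← ENNReal.ofReal_pow (norm_nonneg _)]
  apply ENNReal.ofReal_le_ofReal
  rw [← hm.pow_abs]
  gcongr
  exact h z

/-! ### reality -/

lemma cen_conj (c : UnitAddCircle → ℂ) (s : UnitAddCircle) :
    (starRingEnd ℂ) (cen c s) = cen (fun s => (starRingEnd ℂ) (c s)) s := by
  simp only [cen, map_sub]
  rw [← integral_conj]

lemma Bop_conj (n i : ℕ) (B : ZZ → ℂ) (s : UnitAddCircle) :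
    (starRingEnd ℂ) (Bop n i B s) = Bop n i (fun z => (starRingEnd ℂ) (B z)) s := by
  simp only [Bop, map_mul, map_sum, Complex.conj_ofReal]

lemma Aop_conj (n i : ℕ) (B : ZZ → ℂ) (s : UnitAddCircle) :
    (starRingEnd ℂ) (Aop n i B s) = Aop n i (fun z => (starRingEnd ℂ) (B z)) s := by
  simp only [Aop, map_mul, map_sum, Complex.conj_ofReal]

lemma Gf_conj (S : Set ℕ) (B : ZZ → ℂ) (z : ZZ) :
    (starRingEnd ℂ) (Gf S B z) = Gf S (fun z => (starRingEnd ℂ) (B z)) z := by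
  simp only [Gf]
  split_ifs
  · rw [map_mul, Complex.conj_ofReal, cen_conj]
    simp only [Bop_conj]
  · simp

lemma Kf_conj (S : Set ℕ) (k : ℕ) (B : ZZ → ℂ) (z : ZZ) :
    (starRingEnd ℂ) (Kf S k B z) = Kf S k (fun z => (starRingEnd ℂ) (B z)) z := by
  simp only [Kf]
  split_ifs
  · rw [map_mul, Complex.conj_ofReal, cen_conj]
    simp only [Aop_conj]
  · simp

lemma Gf_ofReal (S : Set ℕ) (b : ZZ → ℝ) (z : ZZ) :
    ((Gf S (fun z => (b z : ℂ)) z).re : ℂ) = Gf S (fun z => (b z : ℂ)) z := by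
  apply Complex.conj_eq_iff_re.mp
  rw [Gf_conj]
  simp only [Complex.conj_ofReal]

/-! ### the bound -/

lemma pnorm_four_X (hP : FreePoisson nu M Ω emb X) {f : ZZ → ℝ} (hf : Good nu f) :
    pnorm Ω 4 (X f) ^ 4 = 2 * (∫ z, f z ^ 2 ∂nu) ^ 2 + ∫ z, f z ^ 4 ∂nu := by
  rw [pnorm_four_pow hP.isTrace (hP.mem f hf.1 hf.2), (hP.selfAdjoint f hf.1 hf.2).star_eq,
    ContinuousLinearMap.mul_apply, hP.fourth f hf.1 hf.2]

lemma pnorm_four_Gf (hP : FreePoisson nu M Ω emb X) {h : H →L[ℂ] H} (hh : h ∈ M)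
    (hsa : IsSelfAdjoint h) {S : Set ℕ} {m : ℕ} (hS : ∀ n ∈ S, n < m) :
    XC X (Gf S (chaos emb Ω h)) ∈ M ∧
      pnorm Ω 4 (XC X (Gf S (chaos emb Ω h))) ≤ 9 * pnorm Ω 4 h := by
  have hG : Good nu (Gf S (chaos emb Ω h)) :=
    Gf_good (Lp.memLp _) (memLp_top_of_bound (Lp.aestronglyMeasurable _) _ (chaos_bound hP hh)) hS
  refine ⟨XC_mem hP hG, ?_⟩
  set b : ZZ → ℝ := fun z => (chaos emb Ω h z).re with hb
  have hcb : (chaos emb Ω h : ZZ → ℂ) =ᵐ[nu] fun z => (b z : ℂ) := by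
    filter_upwards [chaos_im hP hh hsa] with z hz
    apply Complex.ext <;> simp [hb, hz]
  set f : ZZ → ℝ := fun z => (Gf S (chaos emb Ω h) z).re with hf
  have hfg : Good nu f := hG.re
  have hX : XC X (Gf S (chaos emb Ω h)) = X f := by
    rw [← XC_ofReal hP f]
    apply XC_congr hP
    have h1 := Gf_congr hcb S
    filter_upwards [h1] with z hz
    simp only [hf]
    rw [hz, Gf_ofReal]
  rw [hX]
  have hPn := pnorm_four_nonneg (Ω := Ω) h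
  have hle : ∀ z, |f z| ≤ ‖Gf S (chaos emb Ω h) z‖ := fun z => Complex.abs_re_le_norm _
  have h2 : ∫ z, f z ^ 2 ∂nu ≤ 8 * pnorm Ω 4 h ^ 2 := by
    refine integral_pow_le hfg.1.1 (by norm_num) hle (by positivity) ?_
    refine (Gf_L2 (Lp.aestronglyMeasurable _) S).trans ?_
    rw [ENNReal.ofReal_mul (by norm_num), ENNReal.ofReal_ofNat]
    gcongr
    refine (lint_chaos_le h).trans (ENNReal.ofReal_le_ofReal ?_)
    gcongr
    exact norm_vacuum_le_pnorm_four hP.isTrace hh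
  have h4 : ∫ z, f z ^ 4 ∂nu ≤ 16 * (1024 / 3 * pnorm Ω 4 h ^ 4) := by
    refine integral_pow_le hfg.1.1 (by norm_num) hle (by positivity) ?_
    refine (Gf_L4 (Lp.aestronglyMeasurable _) S).trans ?_
    rw [ENNReal.ofReal_mul (by norm_num), ENNReal.ofReal_ofNat]
    gcongr
    exact chaos_four hP hh hsa
  have h20 : 0 ≤ ∫ z, f z ^ 2 ∂nu := integral_nonneg fun z => sq_nonneg _
  have h5 : pnorm Ω 4 (X f) ^ 4 ≤ (9 * pnorm Ω 4 h) ^ 4 := by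
    rw [pnorm_four_X hP hfg]
    have h6 : (∫ z, f z ^ 2 ∂nu) ^ 2 ≤ (8 * pnorm Ω 4 h ^ 2) ^ 2 := by gcongr
    have h7 : 0 ≤ pnorm Ω 4 h ^ 4 := by positivity
    nlinarith
  exact (pow_le_pow_iff_left₀ (pnorm_four_nonneg _) (by positivity) (by norm_num)).mp h5

lemma norm_star_vacuum (hΩ : IsTraceVector M Ω) {x : H →L[ℂ] H} (hx : x ∈ M) :
    ‖star x Ω‖ = ‖x Ω‖ := by
  have h1 : ‖star x Ω‖ ^ 2 = ‖x Ω‖ ^ 2 := by
    rw [norm_sq_vacuum, norm_sq_vacuum, star_star, tr_comm hΩ hx (star_mem hx)]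
  exact (pow_left_inj₀ (norm_nonneg _) (norm_nonneg _) (by norm_num)).mp h1

lemma norm_tr_XC_mul_le (hP : FreePoisson nu M Ω emb X) {F : ZZ → ℂ} (hF : Good nu F)
    {c : ℝ} (hc : 0 ≤ c) (h : ∫⁻ z, ‖F z‖ₑ ^ 2 ∂nu ≤ ENNReal.ofReal (c ^ 2)) (y : H →L[ℂ] H) :
    ‖tr Ω (XC X F * y)‖ ≤ c * ‖y Ω‖ := by
  refine (norm_tr_mul_le _ _).trans ?_
  gcongr
  rw [norm_star_vacuum hP.isTrace (XC_mem hP hF), XC_vacuum hP hF, LinearIsometry.norm_map]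
  exact norm_toLp_le hF.1 hc h

/-- decomposition of a set of blocks -/
lemma Kf_split (S : Set ℕ) (m k : ℕ) (B : ZZ → ℂ) (z : ZZ) :
    Kf S k B z = Kf (S ∩ {n | n < m}) k B z + Kf (S ∩ {n | m ≤ n}) k B z := by
  have h : S = (S ∩ {n | n < m}) ∪ (S ∩ {n | m ≤ n}) := by
    ext n
    simp only [Set.mem_union, Set.mem_inter_iff]
    constructor
    · intro hn
      rcases lt_or_ge n m with h | h
      · exact Or.inl ⟨hn, h⟩
      · exact Or.inr ⟨hn, h⟩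
    · rintro (h | h) <;> exact h.1
  conv_lhs => rw [h]
  apply Kf_union
  rw [Set.disjoint_left]
  rintro n ⟨_, h1⟩ ⟨_, h2⟩
  have h1' : n < m := h1
  have h2' : m ≤ n := h2
  omega

lemma Nop_split (hP : FreePoisson nu M Ω emb X) {x : H →L[ℂ] H} (hx : x ∈ M) (S : Set ℕ) (m : ℕ)
    {k : ℕ} (hk : 1 ≤ k) :
    Nop emb Ω X S k x =
      Nop emb Ω X (S ∩ {n | n < m}) k x + Nop emb Ω X (S ∩ {n | m ≤ n}) k x := by
  rw [Nop, Nop, Nop, ← XC_add hP (Kf_chaos_good hP hx _ hk) (Kf_chaos_good hP hx _ hk)]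
  congr 1
  ext z
  exact Kf_split S m k _ z

lemma tr_Nop_mul_finite (hP : FreePoisson nu M Ω emb X) {x h : H →L[ℂ] H} (hx : x ∈ M)
    (hh : h ∈ M) (hsa : IsSelfAdjoint h) {S : Set ℕ} {m : ℕ} (hS : ∀ n ∈ S, n < m) :
    ‖tr Ω (Nop emb Ω X S 1 x * h)‖ ≤ 9 * pnorm Ω 4 h * pnorm Ω (4 / 3) x := by
  have hG : Good nu (Gf S (chaos emb Ω h)) :=
    Gf_good (Lp.memLp _) (memLp_top_of_bound (Lp.aestronglyMeasurable _) _ (chaos_bound hP hh)) hS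
  have h1 : tr Ω (Nop emb Ω X S 1 x * h) = tr Ω (XC X (Gf S (chaos emb Ω h)) * x) := by
    rw [Nop, tr_XC_mul hP (Kf_chaos_good hP hx S le_rfl), tr_XC_mul hP hG,
      Kf_dual (Lp.memLp _) (Lp.memLp _) hS]
    congr 1
    ext z
    ring
  obtain ⟨h2, h3⟩ := pnorm_four_Gf hP hh hsa hS
  rw [h1]
  refine (holder' hP.isTrace h2 hx).trans ?_
  have := pnorm_nonneg' (Ω := Ω) x
  gcongr

lemma tr_Nop_mul_sa (hP : FreePoisson nu M Ω emb X) {x h : H →L[ℂ] H} (hx : x ∈ M)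
    (hh : h ∈ M) (hsa : IsSelfAdjoint h) (S : Set ℕ) :
    ‖tr Ω (Nop emb Ω X S 1 x * h)‖ ≤ 9 * pnorm Ω 4 h * pnorm Ω (4 / 3) x := by
  set K : ℝ := 3 * ‖x Ω‖ * ‖h Ω‖ with hK
  have hlim : Tendsto (fun m : ℕ => 9 * pnorm Ω 4 h * pnorm Ω (4 / 3) x +
      ((8 : ℝ)⁻¹) ^ m * K) atTop (𝓝 (9 * pnorm Ω 4 h * pnorm Ω (4 / 3) x + 0 * K)) :=
    ((_root_.tendsto_pow_atTop_nhds_zero_of_lt_one (by norm_num) (by norm_num)).mul_const
      K).const_add _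
  rw [zero_mul, add_zero] at hlim
  refine ge_of_tendsto' hlim fun m => ?_
  rw [Nop_split hP hx S m le_rfl, add_mul, tr_add]
  refine (norm_add_le _ _).trans (add_le_add ?_ ?_)
  · exact tr_Nop_mul_finite hP hx hh hsa (m := m) fun n hn => hn.2
  · have h1 : ∫⁻ z, ‖Kf (S ∩ {n | m ≤ n}) 1 (chaos emb Ω x) z‖ₑ ^ 2 ∂nu ≤
        ENNReal.ofReal ((3 * ((8 : ℝ) ^ m)⁻¹ * ‖x Ω‖) ^ 2) := by
      refine (Kf_L2 (Lp.aestronglyMeasurable _) (m := m) (fun n hn => hn.2) le_rfl).trans ?_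
      refine (mul_le_mul_right (lint_chaos_le x) _).trans ?_
      rw [← ENNReal.ofReal_mul (by positivity)]
      apply ENNReal.ofReal_le_ofReal
      have : 0 ≤ (((8 : ℝ) ^ m)⁻¹) ^ 2 * ‖x Ω‖ ^ 2 := by positivity
      nlinarith
    refine (norm_tr_XC_mul_le hP (Kf_chaos_good hP hx _ le_rfl) (by positivity) h1 h).trans
      (le_of_eq ?_)
    rw [hK, inv_pow]
    ring

lemma pnorm_four_smul (hΩ : IsTraceVector M Ω) {x : H →L[ℂ] H} (hx : x ∈ M) (c : ℂ) :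
    pnorm Ω 4 (c • x) ≤ ‖c‖ * pnorm Ω 4 x := by
  refine pnorm_four_le_of_forall hΩ (smul_mem' c hx)
    (mul_nonneg (norm_nonneg _) (pnorm_four_nonneg x)) fun y hy => ?_
  rw [smul_mul_assoc, tr_smul, norm_mul, mul_assoc]
  gcongr
  exact holder' hΩ hx hy

lemma exists_re_im_four (hΩ : IsTraceVector M Ω) {x : H →L[ℂ] H} (hx : x ∈ M) :
    ∃ a ∈ M, ∃ b ∈ M, IsSelfAdjoint a ∧ IsSelfAdjoint b ∧ x = a + Complex.I • b ∧
      pnorm Ω 4 a ≤ pnorm Ω 4 x ∧ pnorm Ω 4 b ≤ pnorm Ω 4 x := by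
  obtain ⟨a, ha, b, hb, sa, sb, hab, ea, eb, _, _⟩ := exists_re_im hx
  refine ⟨a, ha, b, hb, sa, sb, hab, ?_, ?_⟩
  · rw [ea]
    refine (pnorm_four_smul hΩ (add_mem hx (star_mem hx)) _).trans ?_
    have h1 := pnorm_four_add_le hΩ hx (star_mem hx)
    rw [pnorm_four_star hΩ hx] at h1
    rw [Complex.norm_real, Real.norm_of_nonneg (by norm_num)]
    linarith
  · rw [eb]
    refine (pnorm_four_smul hΩ (add_mem (smul_mem' _ hx) (smul_mem' _ (star_mem hx))) _).trans ?_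
    have h1 := pnorm_four_add_le hΩ (smul_mem' (-Complex.I) hx) (smul_mem' Complex.I (star_mem hx))
    have h2 := pnorm_four_smul hΩ hx (-Complex.I)
    have h3 := pnorm_four_smul hΩ (star_mem hx) Complex.I
    rw [norm_neg, Complex.norm_I, one_mul] at h2
    rw [Complex.norm_I, one_mul, pnorm_four_star hΩ hx] at h3
    rw [Complex.norm_real, Real.norm_of_nonneg (by norm_num)]
    linarith

/-- `N_{S,1}` is bounded on `L^{4/3}` -/
theorem pnorm_Nop_le (hP : FreePoisson nu M Ω emb X) {x : H →L[ℂ] H} (hx : x ∈ M) (S : Set ℕ) :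
    pnorm Ω (4 / 3) (Nop emb Ω X S 1 x) ≤ 18 * pnorm Ω (4 / 3) x := by
  have hpx := pnorm_nonneg' (Ω := Ω) x
  refine pnorm_le_of_forall hP.isTrace (Nop_mem hP hx S le_rfl) (by positivity) fun y hy => ?_
  obtain ⟨a, ha, b, hb, sa, sb, hab, na, nb⟩ := exists_re_im_four hP.isTrace hy
  have h1 := tr_Nop_mul_sa hP hx ha sa S
  have h2 := tr_Nop_mul_sa hP hx hb sb S
  have h3 : tr Ω (Nop emb Ω X S 1 x * y) = tr Ω (Nop emb Ω X S 1 x * a) +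
      Complex.I * tr Ω (Nop emb Ω X S 1 x * b) := by
    rw [hab, mul_add, tr_add, mul_smul_comm, tr_smul]
  rw [h3]
  refine (norm_add_le _ _).trans ?_
  rw [norm_mul, Complex.norm_I, one_mul]
  have h4 : 9 * pnorm Ω 4 a * pnorm Ω (4 / 3) x ≤ 9 * pnorm Ω 4 y * pnorm Ω (4 / 3) x := by gcongr
  have h5 : 9 * pnorm Ω 4 b * pnorm Ω (4 / 3) x ≤ 9 * pnorm Ω 4 y * pnorm Ω (4 / 3) x := by gcongr
  linarith

end Pool.Agent.H21.NC
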